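import Pool.Agent.Helper66.GL.Defs
import Pool.Agent.Helper66.MB.Rho

/-!
# Basic facts on `cm`
-/

set_option autoImplicit false

namespace Pool.Agent.Helper66.GL

open Finset Pool.Agent.Helper92.GB Pool.Agent.Helper66.MB

theorem cm_zero (f : ℕ → ℤ) : cm f 0 = 1 := by simp [cm]

theorem cm_one (f : ℕ → ℤ) : cm f 1 = 1 := by simp [cm]

theorem cm_mul (f : ℕ → ℤ) {m n : ℕ} (hm : m ≠ 0) (hn : n ≠ 0) : cm f (m * n) = cm f m * cm f n := by
  unfold cm
  rw [Nat.factorization_mul hm hn]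
  exact Finsupp.prod_add_index' (fun _ => pow_zero _) (fun _ _ _ => pow_add _ _ _)

theorem cm_prime (f : ℕ → ℤ) {p : ℕ} (hp : p.Prime) : cm f p = f p := by
  unfold cm
  rw [hp.factorization, Finsupp.prod_single_index]
  · exact pow_one _
  · exact pow_zero _

theorem cm_pow (f : ℕ → ℤ) {m : ℕ} (hm : m ≠ 0) (k : ℕ) : cm f (m ^ k) = cm f m ^ k := by
  induction k with
  | zero => simp [cm_one]
  | succ k ih => rw [pow_succ, cm_mul f (pow_ne_zero k hm) hm, ih, pow_succ]

theorem cm_sign (f : ℕ → ℤ) (hf : ∀ n, f n = 1 ∨ f n = -1) (n : ℕ) : cm f n = 1 ∨ cm f n = -1 := by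
  unfold cm Finsupp.prod
  refine Finset.prod_induction _ (fun a : ℤ => a = 1 ∨ a = -1) ?_ (Or.inl rfl) ?_
  · rintro a b (rfl | rfl) (rfl | rfl) <;> simp
  · intro p _
    show f p ^ _ = 1 ∨ f p ^ _ = -1
    rcases hf p with h | h <;> rw [h]
    · simp
    · exact neg_one_pow_eq_or ℤ _

theorem cm_congr {f g : ℕ → ℤ} {n : ℕ} (h : ∀ p ∈ n.primeFactors, f p = g p) : cm f n = cm g n := by
  unfold cm Finsupp.prod
  refine Finset.prod_congr rfl fun p hp => ?_
  show f p ^ _ = g p ^ _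
  rw [h p (by rwa [Nat.support_factorization] at hp)]

theorem cm_sq (f : ℕ → ℤ) (hf : ∀ n, f n = 1 ∨ f n = -1) {m : ℕ} (hm : m ≠ 0) : cm f (m ^ 2) = 1 := by
  rw [cm_pow f hm]
  rcases cm_sign f hf m with h | h <;> rw [h] <;> norm_num

/-- On squarefree integers `cm f` is `ext f`. -/
theorem cm_squarefree (f : ℕ → ℤ) {n : ℕ} (h : Squarefree n) : cm f n = ext f n := by
  have hn : n ≠ 0 := h.ne_zero
  unfold cm Helper92.GB.ext Finsupp.prod
  rw [if_pos h, Nat.support_factorization]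
  refine Finset.prod_congr rfl fun p hp => ?_
  have h1 : n.factorization p = 1 := by
    refine le_antisymm (h.natFactorization_le_one p) ?_
    exact (Nat.prime_of_mem_primeFactors hp).factorization_pos_of_dvd hn (Nat.dvd_of_mem_primeFactors hp)
  show f p ^ (n.factorization p) = f p
  rw [h1, pow_one]

theorem Lf_zero (f : ℕ → ℤ) : Lf f 0 = 0 := by simp [Lf]

theorem Lf_one (f : ℕ → ℤ) : Lf f 1 = 1 := by simp [Lf, cm_one]

theorem Tf_zero (f : ℕ → ℤ) (P : ℕ → Prop) : Tf f P 0 = 0 := by simp [Tf]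

theorem Tf_true (f : ℕ → ℤ) (x : ℕ) : Tf f (fun _ => True) x = Lf f x := by
  classical
  unfold Tf Lf
  refine sum_congr ?_ fun n _ => rfl
  ext n
  simp

/-- Adding one prime. -/
theorem Tf_add (f : ℕ → ℤ) (P : ℕ → Prop) {p : ℕ} (hp : p.Prime) (hP : ¬ P p) (x : ℕ) :
    Tf f (fun q => P q ∨ q = p) x = Tf f P x + f p * Tf f (fun q => P q ∨ q = p) (x / p) := by
  classical
  unfold Tf
  rw [← sum_filter_add_sum_filter_not _ (fun n => ¬ p ∣ n)]
  congr 1
  · rw [filter_filter]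
    refine sum_congr ?_ fun n _ => rfl
    ext n
    simp only [mem_filter, mem_Icc, and_congr_right_iff]
    intro hn
    constructor
    · rintro ⟨h1, h2⟩ q hq
      rcases h1 q hq with h | h
      · exact h
      · subst h
        exact absurd (Nat.dvd_of_mem_primeFactors hq) h2
    · intro h1
      refine ⟨fun q hq => Or.inl (h1 q hq), fun h2 => hP (h1 p ?_)⟩
      exact Nat.mem_primeFactors.2 ⟨hp, h2, by omega⟩
  · simp only [not_not]
    rw [mul_sum, filter_filter]
    have h1 : (Icc 1 x).filter (fun n => (∀ q ∈ n.primeFactors, P q ∨ q = p) ∧ p ∣ n) =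
        ((Icc 1 (x / p)).filter (fun n => ∀ q ∈ n.primeFactors, P q ∨ q = p)).image (fun m => p * m) := by
      ext n
      simp only [mem_filter, mem_Icc, mem_image]
      constructor
      · rintro ⟨⟨h1, h2⟩, h3, m, rfl⟩
        have hm : m ≠ 0 := by rintro rfl; simp at h1
        refine ⟨m, ⟨⟨Nat.pos_of_ne_zero hm, ?_⟩, fun q hq => h3 q ?_⟩, rfl⟩
        · rw [Nat.le_div_iff_mul_le hp.pos, mul_comm]; exact h2
        · rw [Nat.primeFactors_mul hp.ne_zero hm]; exact mem_union_right _ hq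
      · rintro ⟨m, ⟨⟨h1, h2⟩, h3⟩, rfl⟩
        rw [Nat.le_div_iff_mul_le hp.pos, mul_comm] at h2
        refine ⟨⟨Nat.mul_pos hp.pos h1, h2⟩, fun q hq => ?_, dvd_mul_right _ _⟩
        rw [Nat.primeFactors_mul hp.ne_zero (by omega), mem_union] at hq
        rcases hq with hq | hq
        · rw [hp.primeFactors, mem_singleton] at hq
          exact Or.inr hq
        · exact h3 q hq
    rw [h1, sum_image (fun a _ b _ h => Nat.eq_of_mul_eq_mul_left hp.pos h)]
    refine sum_congr rfl fun m hm => ?_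
    rw [mem_filter, mem_Icc] at hm
    rw [cm_mul f hp.ne_zero (by omega), cm_prime f hp]
    push_cast
    ring

theorem Tf_congr (f : ℕ → ℤ) {P Q : ℕ → Prop} (h : ∀ p, p.Prime → (P p ↔ Q p)) (x : ℕ) : Tf f P x = Tf f Q x := by
  classical
  unfold Tf
  refine sum_congr ?_ fun n _ => rfl
  ext n
  simp only [mem_filter, and_congr_right_iff]
  intro _
  constructor
  · intro h1 p hp; exact (h p (Nat.prime_of_mem_primeFactors hp)).1 (h1 p hp)
  · intro h1 p hp; exact (h p (Nat.prime_of_mem_primeFactors hp)).2 (h1 p hp)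

theorem Tf_congr_le (f : ℕ → ℤ) {P Q : ℕ → Prop} {x : ℕ} (h : ∀ p, p.Prime → p ≤ x → (P p ↔ Q p)) :
    Tf f P x = Tf f Q x := by
  classical
  unfold Tf
  refine sum_congr ?_ fun n _ => rfl
  ext n
  simp only [mem_filter, mem_Icc, and_congr_right_iff]
  intro hn
  have h0 : ∀ p ∈ n.primeFactors, p ≤ x := fun p hp =>
    (Nat.le_of_dvd (by omega) (Nat.dvd_of_mem_primeFactors hp)).trans hn.2
  constructor
  · intro h1 p hp; exact (h p (Nat.prime_of_mem_primeFactors hp) (h0 p hp)).1 (h1 p hp)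
  · intro h1 p hp; exact (h p (Nat.prime_of_mem_primeFactors hp) (h0 p hp)).2 (h1 p hp)

theorem Tf_fcongr {f g : ℕ → ℤ} (P : ℕ → Prop) (x : ℕ) (h : ∀ p, p.Prime → P p → f p = g p) : Tf f P x = Tf g P x := by
  classical
  unfold Tf
  refine sum_congr rfl fun n hn => ?_
  rw [mem_filter] at hn
  rw [cm_congr fun p hp => h p (Nat.prime_of_mem_primeFactors hp) (hn.2 p hp)]

end Pool.Agent.Helper66.GL
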