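import Pool.Agent.Helper66.GL.GRfr
import Pool.Agent.Helper66.MB.Exist

/-!
# Existence of the signs (MP_a499ba_nt, Q2)

`MB.exists_signs` with the events `GR r n₀ k` in place of `GG n₀ k`.
-/

set_option autoImplicit false

namespace Pool.Agent.Helper66.GL

open Finset Pool.Agent.Helper92.GB Pool.Agent.Helper66.MB

/-- The event `GR r n₀ k` depends on the signs of index below `2 ^ (k + 1)`. -/
theorem GR_local (r n₀ k : ℕ) (ω ω' : ℕ → ℤˣ) (h : ∀ i < 2 ^ (k + 1), ω i = ω' i)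
    (hG : GR r n₀ k ω) : GR r n₀ k ω' := by
  intro x h1 h2
  have h3 := hG x h1 h2
  have h4 : star ω (Ico n₀ (2 ^ (k + 1))) = star ω' (Ico n₀ (2 ^ (k + 1))) := by
    unfold MB.star
    exact Finset.prod_congr rfl fun i hi => by rw [h i (mem_Ico.1 hi).2]
  rwa [h4] at h3

theorem exists_signs_r (r n₀ : ℕ) : ∃ (ω : ℕ → ℤˣ) (A : ℝ) (k₁ : ℕ), 1 ≤ k₁ ∧
    ∀ k : ℕ, k₁ ≤ k → HH A k ω ∧ GR r n₀ k ω := by
  classical
  obtain ⟨A, a, hA, hHH⟩ := HH_fr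
  obtain ⟨C, b, hC, hb, hGG⟩ := GR_fr r n₀
  -- a large starting point
  obtain ⟨m, hm⟩ := exists_nat_gt (2 * C + 4)
  set k₁ : ℕ := max (max a b) (m + 2) with hk₁
  have hk1m : m + 2 ≤ k₁ := le_max_right _ _
  have hk1a : a ≤ k₁ := (le_max_left _ _).trans (le_max_left _ _)
  have hk1b : b ≤ k₁ := (le_max_right _ _).trans (le_max_left _ _)
  have hk1R : (m : ℝ) + 2 ≤ k₁ := by exact_mod_cast hk1m
  have hpos : (0 : ℝ) < (k₁ : ℝ) - 1 := by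
    have : (0 : ℝ) ≤ m := Nat.cast_nonneg m
    linarith
  have hC1 : C * (1 / ((k₁ : ℝ) - 1)) < 1 / 2 := by
    rw [mul_one_div, div_lt_div_iff₀ hpos (by norm_num)]
    linarith
  have hG1 : 2 / (2 : ℝ) ^ k₁ ≤ 1 / 2 := by
    have h2 : (2 : ℝ) ^ 2 ≤ 2 ^ k₁ := pow_le_pow_right₀ (by norm_num) (by omega)
    rw [div_le_div_iff₀ (by positivity) (by norm_num)]
    linarith
  have hfin : ∀ K : ℕ, ∃ ω : ℕ → ℤˣ, ∀ k < K, HH A (k + k₁) ω ∧ GR r n₀ (k + k₁) ω := by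
    intro K
    have hsum : ∑ k ∈ Ico k₁ (k₁ + K), fr (2 ^ (k₁ + K)) (fun ω => ¬ HH A k ω ∨ ¬ GR r n₀ k ω) < 1 := by
      have h1 : ∑ k ∈ Ico k₁ (k₁ + K), fr (2 ^ (k₁ + K)) (fun ω => ¬ HH A k ω ∨ ¬ GR r n₀ k ω) ≤
          ∑ k ∈ Ico k₁ (k₁ + K), (1 / (2 : ℝ) ^ k + C * (1 / (k : ℝ) ^ 2)) := by
        refine Finset.sum_le_sum fun k hk => ?_
        obtain ⟨h2, h3⟩ := mem_Ico.1 hk
        have h4 : 2 ^ (k + 1) ≤ 2 ^ (k₁ + K) := Nat.pow_le_pow_right (by norm_num) (by omega)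
        refine (fr_or _ _ _).trans (add_le_add (hHH k (by omega) _ h4) ?_)
        refine (hGG k (by omega) _ h4).trans (le_of_eq ?_)
        rw [mul_one_div]
      rw [Finset.sum_add_distrib, ← Finset.mul_sum] at h1
      have h5 := sum_geo k₁ (k₁ + K) (by omega)
      have h6 := sum_sq k₁ (k₁ + K) (by omega) (by omega)
      have h7 : (0 : ℝ) < 2 / 2 ^ (k₁ + K) := by positivity
      have h8 : (0 : ℝ) ≤ 1 / (((k₁ + K : ℕ) : ℝ) - 1) := by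
        apply div_nonneg (by norm_num)
        push_cast
        have : (0 : ℝ) ≤ K := Nat.cast_nonneg K
        linarith
      have h9 : C * ∑ k ∈ Ico k₁ (k₁ + K), 1 / (k : ℝ) ^ 2 ≤ C * (1 / ((k₁ : ℝ) - 1)) :=
        mul_le_mul_of_nonneg_left (by linarith) hC.le
      linarith
    obtain ⟨ω, hω⟩ := union_bound _ _ _ hsum
    refine ⟨exd ω, fun k hk => ?_⟩
    have h1 := hω (k + k₁) (mem_Ico.2 ⟨by omega, by omega⟩)
    push Not at h1
    exact h1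
  obtain ⟨ω, hω⟩ := compact (fun k ω => HH A (k + k₁) ω ∧ GR r n₀ (k + k₁) ω)
    (fun k => 2 ^ (k + k₁ + 1))
    (fun k ω ω' h1 h2 => ⟨HH_local A (k + k₁) ω ω' h1 h2.1, GR_local r n₀ (k + k₁) ω ω' h1 h2.2⟩) hfin
  refine ⟨ω, A, k₁, by omega, fun k hk => ?_⟩
  have h1 := hω (k - k₁)
  simp only [Nat.sub_add_cancel hk] at h1
  exact h1

end Pool.Agent.Helper66.GL
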