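import Pool.Agent.Helper66.GL.CmB

/-!
# Block GL-F2 (MP_a499ba_nt, Q2)

Adding finitely many primes. (`CmB` is proved.)

Proof. `add_one`: let `Q = fun q => P q ∨ q = p`. By `Tf_add`, `|Tf f Q x| ≤ |Tf f P x| + |Tf f Q (x / p)|`, so by iteration (`x < 2^N`)
`|Tf f Q x| ≤ ∑ j ∈ range N, |Tf f P (x / p^j)|`, and `|Tf f P (x / p^j)| ≤ C √(x/p^j) rho (x / p^j) ≤ C √x rho x * (p^{-j/2} (1 + log (2 p^j)))` (`MB.rho_div`; the term is `0` when
`x / p^j = 0`); the sum over `j` of the last factor converges. This is exactly the computation in `MB.Cl_update` (file `MB/Flip.lean`). If `p` is not a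
prime, or `P p` holds, then `Tf f Q = Tf f P` (`Tf_congr`).
`add_primes`: induction over the finitely many primes `pa i, pb i`, `i < n₀`: `Tf_congr` for `P p = (n₀ ≤ ix p ∨ p ∈ R)` with `R` a finite set,
at the end `R = {pa i, pb i : i < n₀}`, where all primes satisfy `P` (`prime_cases`, `ix_pa`, `ix_pb`) and `Tf_true`.
-/

set_option autoImplicit false

namespace Pool.Agent.Helper66.GL

open Finset Pool.Agent.Helper92.GB Pool.Agent.Helper66.MB

private lemma sqrt_powP {a : ℝ} (ha : 0 ≤ a) (k : ℕ) : Real.sqrt (a ^ k) = Real.sqrt a ^ k := by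
  induction k with
  | zero => simp
  | succ k ih => rw [pow_succ, Real.sqrt_mul (pow_nonneg ha k), ih, pow_succ]

private lemma sqrt_div_leP (x m : ℕ) :
    Real.sqrt ((x / m : ℕ) : ℝ) ≤ Real.sqrt x / Real.sqrt m := by
  rw [← Real.sqrt_div (Nat.cast_nonneg x)]
  exact Real.sqrt_le_sqrt Nat.cast_div_le

private lemma Tf_iterP (f : ℕ → ℤ) (hf : ∀ n, f n = 1 ∨ f n = -1) (P : ℕ → Prop) {p : ℕ} (hp : p.Prime)
    (hP : ¬ P p) (K : ℕ) : ∀ x : ℕ, x < 2 ^ K → |Tf f (fun q => P q ∨ q = p) x| ≤
      ∑ k ∈ range K, |Tf f P (x / p ^ k)| := by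
  induction K with
  | zero =>
    intro x hx
    have : x = 0 := by simpa using hx
    subst this
    simp [Tf_zero]
  | succ K ih =>
    intro x hx
    have h1 : x / p < 2 ^ K := by
      rw [Nat.div_lt_iff_lt_mul hp.pos]
      calc x < 2 ^ (K + 1) := hx
        _ = 2 ^ K * 2 := pow_succ _ _
        _ ≤ 2 ^ K * p := Nat.mul_le_mul_left _ hp.two_le
    have h2 := ih _ h1
    have h3 : |Tf f (fun q => P q ∨ q = p) x| ≤
        |Tf f P x| + |Tf f (fun q => P q ∨ q = p) (x / p)| := by
      rw [Tf_add f P hp hP x]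
      refine (abs_add_le _ _).trans ?_
      rw [abs_mul]
      have h4 : |((f p : ℤ) : ℝ)| = 1 := by rcases hf p with h | h <;> simp [h]
      rw [h4, one_mul]
    rw [sum_range_succ']
    have h4 : ∀ k, x / p / p ^ k = x / p ^ (k + 1) := by
      intro k
      rw [Nat.div_div_eq_div_mul, ← pow_succ' p k]
    simp only [h4] at h2
    simp only [pow_zero, Nat.div_one]
    linarith

theorem add_one_prime (f : ℕ → ℤ) (hf : ∀ n, f n = 1 ∨ f n = -1) (P : ℕ → Prop) (p : ℕ)
    (h : ∃ C : ℝ, ∀ x : ℕ, 1 ≤ x → |Tf f P x| ≤ C * Real.sqrt x * rho x) :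
    ∃ C : ℝ, ∀ x : ℕ, 1 ≤ x → |Tf f (fun q => P q ∨ q = p) x| ≤ C * Real.sqrt x * rho x := by
  obtain ⟨C, hC⟩ := h
  by_cases hp : p.Prime
  · by_cases hP : P p
    · refine ⟨C, fun x hx => ?_⟩
      rw [Tf_congr f (P := fun q => P q ∨ q = p) (Q := P) (fun q _ => by
        constructor
        · rintro (h | rfl)
          · exact h
          · exact hP
        · exact Or.inl)]
      exact hC x hx
    · have hC0 : 0 ≤ C := by
        have h1 := hC 1 le_rfl
        have h2 : 0 < rho ((1 : ℕ) : ℝ) := rho_pos (by norm_num)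
        have h3 : 0 ≤ C * Real.sqrt ((1 : ℕ) : ℝ) * rho ((1 : ℕ) : ℝ) := (abs_nonneg _).trans h1
        rw [Nat.cast_one, Real.sqrt_one, mul_one] at h3
        rw [Nat.cast_one] at h2
        exact nonneg_of_mul_nonneg_left h3 h2
      set r : ℝ := (Real.sqrt p)⁻¹ with hr
      have hp1 : 1 < Real.sqrt p := by
        rw [Real.lt_sqrt (by norm_num)]
        have : (1 : ℝ) < p := by exact_mod_cast hp.one_lt
        simpa using this
      have hr0 : 0 < r := by rw [hr]; positivity
      have hr1 : r < 1 := by rw [hr]; exact inv_lt_one_of_one_lt₀ hp1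
      set a : ℝ := 1 + Real.log 2 with ha
      set b : ℝ := Real.log p with hb
      have ha0 : 0 ≤ a := by
        rw [ha]; have := Real.log_nonneg (show (1 : ℝ) ≤ 2 by norm_num); linarith
      have hb0 : 0 ≤ b := by
        rw [hb]; exact Real.log_nonneg (by exact_mod_cast hp.one_lt.le)
      have hsum : Summable (fun k : ℕ => r ^ k * (a + k * b)) := by
        have h1 : Summable (fun k : ℕ => r ^ k) := summable_geometric_of_lt_one hr0.le hr1
        have h2 : Summable (fun k : ℕ => (k : ℝ) ^ 1 * r ^ k) :=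
          summable_pow_mul_geometric_of_norm_lt_one 1 (by rw [Real.norm_of_nonneg hr0.le]; exact hr1)
        have h3 := (h1.mul_right a).add (h2.mul_right b)
        refine h3.congr fun k => ?_
        ring
      set S : ℝ := ∑' k : ℕ, r ^ k * (a + k * b) with hS
      have hterm0 : ∀ k : ℕ, 0 ≤ r ^ k * (a + k * b) := fun k => by positivity
      refine ⟨C * S, fun x hx => ?_⟩
      have hK := Tf_iterP f hf P hp hP x x Nat.lt_two_pow_self
      have hρ : 0 < rho x := rho_pos (by exact_mod_cast hx)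
      have hbd : ∀ k : ℕ, |Tf f P (x / p ^ k)| ≤
          C * Real.sqrt x * rho x * (r ^ k * (a + (k : ℝ) * b)) := by
        intro k
        have hpk : 1 ≤ p ^ k := Nat.one_le_pow _ _ hp.pos
        rcases Nat.eq_zero_or_pos (x / p ^ k) with h0 | h0
        · rw [h0, Tf_zero, abs_zero]
          have := hterm0 k
          positivity
        · have h1 := hC _ h0
          have h2 := rho_div hpk h0
          have h3 := sqrt_div_leP x (p ^ k)
          have h4 : Real.sqrt x / Real.sqrt ((p ^ k : ℕ) : ℝ) = Real.sqrt x * r ^ k := by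
            rw [hr, inv_pow, Nat.cast_pow, sqrt_powP (Nat.cast_nonneg p), div_eq_mul_inv]
          have h5 : 1 + Real.log (2 * ((p ^ k : ℕ) : ℝ)) = a + (k : ℝ) * b := by
            rw [ha, hb, Nat.cast_pow, Real.log_mul (by norm_num)
              (pow_ne_zero _ (by exact_mod_cast hp.ne_zero)), Real.log_pow]
            ring
          rw [h4] at h3
          rw [h5] at h2
          have h6 : 0 ≤ rho ((x / p ^ k : ℕ) : ℝ) := (rho_pos (by exact_mod_cast h0)).le
          calc |Tf f P (x / p ^ k)| ≤ C * Real.sqrt ((x / p ^ k : ℕ) : ℝ) *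
                rho ((x / p ^ k : ℕ) : ℝ) := h1
            _ ≤ C * (Real.sqrt x * r ^ k) * (rho x * (a + (k : ℝ) * b)) := by
                gcongr
            _ = C * Real.sqrt x * rho x * (r ^ k * (a + (k : ℝ) * b)) := by ring
      calc |Tf f (fun q => P q ∨ q = p) x|
          ≤ ∑ k ∈ range x, |Tf f P (x / p ^ k)| := hK
        _ ≤ ∑ k ∈ range x, C * Real.sqrt x * rho x * (r ^ k * (a + (k : ℝ) * b)) :=
            sum_le_sum fun k _ => hbd k
        _ = C * Real.sqrt x * rho x * ∑ k ∈ range x, r ^ k * (a + (k : ℝ) * b) := by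
            rw [mul_sum]
        _ ≤ C * Real.sqrt x * rho x * S := by
            gcongr
            exact hsum.sum_le_tsum _ (fun k _ => hterm0 k)
        _ = C * S * Real.sqrt x * rho x := by ring
  · refine ⟨C, fun x hx => ?_⟩
    rw [Tf_congr f (P := fun q => P q ∨ q = p) (Q := P) (fun q hq => by
      constructor
      · rintro (h | rfl)
        · exact h
        · exact absurd hq hp
      · exact Or.inl)]
    exact hC x hx

theorem add_primes (f : ℕ → ℤ) (hf : ∀ n, f n = 1 ∨ f n = -1) (n₀ : ℕ)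
    (h : ∃ C : ℝ, ∀ x : ℕ, 1 ≤ x → |Tf f (fun p => n₀ ≤ ix p) x| ≤ C * Real.sqrt x * rho x) : ClL f := by
  classical
  have key : ∀ R : Finset ℕ, ∃ C : ℝ, ∀ x : ℕ, 1 ≤ x →
      |Tf f (fun p => n₀ ≤ ix p ∨ p ∈ R) x| ≤ C * Real.sqrt x * rho x := by
    intro R
    induction R using Finset.induction_on with
    | empty =>
      obtain ⟨C, hC⟩ := h
      refine ⟨C, fun x hx => ?_⟩
      rw [Tf_congr f (P := fun p => n₀ ≤ ix p ∨ p ∈ (∅ : Finset ℕ)) (Q := fun p => n₀ ≤ ix p)
        (fun q _ => by simp)]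
      exact hC x hx
    | insert p R _ ih =>
      obtain ⟨C, hC⟩ := add_one_prime f hf _ p ih
      refine ⟨C, fun x hx => ?_⟩
      rw [Tf_congr f (P := fun q => n₀ ≤ ix q ∨ q ∈ insert p R)
        (Q := fun q => (n₀ ≤ ix q ∨ q ∈ R) ∨ q = p) (fun q _ => by
          rw [mem_insert]
          tauto)]
      exact hC x hx
  obtain ⟨C, hC⟩ := key ((range n₀).image pa ∪ (range n₀).image pb)
  refine ⟨C, fun x hx => ?_⟩
  have h1 := hC x hx
  rw [Tf_congr f (P := fun p => n₀ ≤ ix p ∨ p ∈ (range n₀).image pa ∪ (range n₀).image pb)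
    (Q := fun _ => True) (fun q hq => by
      refine ⟨fun _ => trivial, fun _ => ?_⟩
      obtain ⟨i, hi⟩ := prime_cases hq
      rcases le_or_gt n₀ i with h2 | h2
      · left
        rcases hi with rfl | rfl
        · rw [ix_pa]; exact h2
        · rw [ix_pb]; exact h2
      · right
        rw [mem_union, mem_image, mem_image]
        rcases hi with rfl | rfl
        · exact Or.inl ⟨i, mem_range.2 h2, rfl⟩
        · exact Or.inr ⟨i, mem_range.2 h2, rfl⟩), Tf_true] at h1
  exact h1

end Pool.Agent.Helper66.GL
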