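import Pool.Agent.Helper66.GL.StarR

/-!
# Block GL-B (MP_a499ba_nt, Q2)

From the bound for `psi` to the bound for `bra`: the factors `(1 + Bf i - Cf i) * Sf ω i` are replaced one by one by
`geo K (pb i ^ 2) * (Sf ω i - Cf i)`.

Proof. Fix `r`. Suggested tool: for `u : DP`, `θ : ℝ` let `Op r θ u` say: for all `X M v` with `0 ≤ M`, `Sm 0 v = 0` and
`|Sm y v| ≤ M √y kr r y` for `1 ≤ y ≤ X / 2`, one has `Sm 0 (u * v) = 0` and `|Sm y (u * v)| ≤ θ M √y kr r y` for `1 ≤ y ≤ X`. For `m ≥ 2`: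
`Op r (w m) (mo m)` with `w m = (1 + log (2 m))^r / √m` (`Sm_mo_mul`; for `z = y / m ≥ 1`: `√z ≤ √y/√m`, `y < m (z+1) ≤ 2 m z`, so
`1 + log y ≤ (1 + log z)(1 + log (2m))`; see `MB.shift_term`); sums: `Op` of `u + u'`, `u - u'`, `c • u` (`|c| = 1`) with `θ + θ'`, `θ`;
products: `Op` of `u * u'` with `θ θ'`.
Inversion: if `Op r θ u`, `0 ≤ θ ≤ 1/2`, `Sm 0 v = 0` and `|Sm y ((1 + u) * v)| ≤ M √y kr r y` for `1 ≤ y ≤ X`, then `|Sm y v| ≤ (1 + 2θ) M √y kr r y` for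
`1 ≤ y ≤ X` (strong induction on `y`: `Sm y v = Sm y ((1+u) v) - Sm y (u v)`, `1 + θ (1 + 2θ) ≤ 1 + 2θ`).
One step. Let `X < 2^K`, `S = Sf ω i = 1 + ω i • dl i`, `B = Bf i`, `C' = Cf i`, `D = B - C'`, `G = geo K (pb i ^ 2) * (S - C')`. Then
`(1 - B) * geo K (pb i ^ 2) = 1 - mo (pb i ^ (2K))` (`mo (m^j) = mo m ^ j`) and
`(1 - B) * (G - (1 + D) * S) = C' * (S - 1) + B * D * S - mo (pb i ^ (2K)) * (S - C')`; the last term does not contribute to `Sm y`, `y ≤ X < 2^K`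
(after multiplication with `v`, as `Sm 0 = 0`). Let `v` have `|Sm y ((1 + D) * S * v)| ≤ M √y kr r y` for `1 ≤ y ≤ X`. `(1 + D) * S = 1 + u` with `Op r θ u`,
`θ → 0` as `i → ∞`, so for `i ≥ n₁` `|v| ≤ 2 M` (in the above sense), then `(G - (1 + D) S) v` is at most `2 * 2 M * c i` (inversion of `1 - B`),
where `c i` is the `Op`-bound of `C' * (S - 1) + B * D * S` (monomials `pa^2 pb, pa pb^2, pb^4, pa pb^3, ...`, all `≥ (pa i)^3`), `c i ≤ 16 w(4 (pa i)^4)`-like, in any case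
`c i ≤ c (1 + log (pa i))^r... / (pa i)^{3/2}` which is summable over `i` (`pa i ≥ 2 i + 1`; powers of the logarithm are `≤ C (pa i)^{1/4}`). So
`|Sm y (G * v)| ≤ (1 + 4 c i) M √y kr r y`, and `(1 + 4 c i)` has bounded partial products (`≤ exp (4 ∑ c i)`).
Induction over `i ∈ Ico n₀ J` (state: the product of `G` over `i < k`, of `(1 + D) * S` over `i ≥ k`; `psi` is the case `k = n₀`
because `psi ω I = ∏ (1 + D i) * ∏ Sf ω i`, `star ω I = ∏ Sf ω i` by definition). `Sm 0` of all these products is `0`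
(for a product of such factors with anything, by induction, see `MB.coeff_zero_star`).
-/

set_option autoImplicit false

namespace Pool.Agent.Helper66.GL

open Finset Pool.Agent.Helper92.GB Pool.Agent.Helper66.MB

/-- weight -/
private noncomputable def W (r y : ℕ) : ℝ := Real.sqrt y * kr r y

private lemma W_nonneg (r y : ℕ) : 0 ≤ W r y := mul_nonneg (Real.sqrt_nonneg _) (kr_pos r y).le

/-- loss of a monomial -/
private noncomputable def wt (r m : ℕ) : ℝ := (1 + Real.log (2 * m)) ^ r / Real.sqrt m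

private lemma shift (r m y : ℕ) (hm : 1 ≤ m) (hz : 1 ≤ y / m) :
    W r (y / m) ≤ wt r m * W r y := by
  have ha : 0 < m := by omega
  set z := y / m with hzdef
  have hy : z * m ≤ y := Nat.div_mul_le_self y m
  have hy2 : y < m * (z + 1) := by
    rw [hzdef]
    exact Nat.lt_mul_div_succ y ha
  have hzR : (1 : ℝ) ≤ (z : ℝ) := by exact_mod_cast hz
  have haR : (0 : ℝ) < (m : ℝ) := by exact_mod_cast ha
  have haR1 : (1 : ℝ) ≤ (m : ℝ) := by exact_mod_cast hm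
  have hyR : (z : ℝ) * m ≤ (y : ℝ) := by exact_mod_cast hy
  have hyR2 : (y : ℝ) ≤ (m : ℝ) * (z + 1) := by exact_mod_cast hy2.le
  have hy1 : (1 : ℝ) ≤ (y : ℝ) := by nlinarith
  have h1 : Real.sqrt z ≤ Real.sqrt y / Real.sqrt m := by
    rw [le_div_iff₀ (Real.sqrt_pos.2 haR), ← Real.sqrt_mul (by positivity)]
    exact Real.sqrt_le_sqrt hyR
  have hlz : 0 ≤ Real.log z := Real.log_nonneg hzR
  have hly : 0 ≤ Real.log y := Real.log_nonneg hy1
  have hlp : 0 ≤ Real.log (2 * (m : ℝ)) := Real.log_nonneg (by linarith)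
  have hlog : Real.log y ≤ Real.log (2 * (m : ℝ)) + Real.log z := by
    rw [← Real.log_mul (by positivity) (by positivity)]
    apply Real.log_le_log (by linarith)
    nlinarith
  have hmul : 1 + Real.log y ≤ (1 + Real.log z) * (1 + Real.log (2 * (m : ℝ))) := by
    nlinarith [mul_nonneg hlz hlp]
  have h2 : kr r z ≤ kr r y * (1 + Real.log (2 * (m : ℝ))) ^ r := by
    unfold kr
    rw [← div_eq_inv_mul, inv_eq_one_div, div_le_div_iff₀ (by positivity) (by positivity), one_mul]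
    calc (1 + Real.log y) ^ r ≤ ((1 + Real.log z) * (1 + Real.log (2 * (m : ℝ)))) ^ r :=
          pow_le_pow_left₀ (by linarith) hmul r
      _ = _ := by rw [mul_pow, mul_comm]
  have hk : 0 < kr r z := kr_pos r z
  unfold W wt
  calc Real.sqrt z * kr r z
      ≤ (Real.sqrt y / Real.sqrt m) * (kr r y * (1 + Real.log (2 * (m : ℝ))) ^ r) :=
        mul_le_mul h1 h2 hk.le (by positivity)
    _ = _ := by ring

/-- multiplication by `u` does not create a coefficient of index `0` -/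
private def Gd (u : DP) : Prop := ∀ v : DP, Sm 0 v = 0 → Sm 0 (u * v) = 0

private lemma Gd.add {u u' : DP} (h : Gd u) (h' : Gd u') : Gd (u + u') := by
  intro v hv
  rw [add_mul, map_add, h v hv, h' v hv, add_zero]

private lemma Gd.smul (c : ℝ) {u : DP} (h : Gd u) : Gd (c • u) := by
  intro v hv
  rw [smul_mul_assoc, map_smul, h v hv, smul_zero]

private lemma Gd.neg {u : DP} (h : Gd u) : Gd (-u) := by
  intro v hv
  rw [neg_mul, map_neg, h v hv, neg_zero]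

private lemma Gd.sub {u u' : DP} (h : Gd u) (h' : Gd u') : Gd (u - u') := by
  rw [sub_eq_add_neg]
  exact h.add h'.neg

private lemma Gd.mul {u u' : DP} (h : Gd u) (h' : Gd u') : Gd (u * u') := by
  intro v hv
  rw [mul_assoc]
  exact h _ (h' v hv)

private lemma Gd.one : Gd 1 := by
  intro v hv
  rwa [one_mul]

private lemma Gd.mo {m : ℕ} (hm : 1 ≤ m) : Gd (mo m) := by
  intro v hv
  rw [Sm_mo_mul hm, Nat.zero_div]
  exact hv

private lemma Gd.prod {ι : Type*} (s : Finset ι) (f : ι → DP) (h : ∀ i ∈ s, Gd (f i)) :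
    Gd (∏ i ∈ s, f i) := by
  classical
  induction s using Finset.induction_on with
  | empty => rw [prod_empty]; exact Gd.one
  | insert a s ha ih =>
    rw [prod_insert ha]
    exact (h a (mem_insert_self a s)).mul (ih fun i hi => h i (mem_insert_of_mem hi))

private lemma Gd.sum {ι : Type*} (s : Finset ι) (f : ι → DP) (h : ∀ i ∈ s, Gd (f i)) :
    Gd (∑ i ∈ s, f i) := by
  classical
  induction s using Finset.induction_on with
  | empty =>
    rw [sum_empty]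
    intro v _
    rw [zero_mul, map_zero]
  | insert a s ha ih =>
    rw [sum_insert ha]
    exact (h a (mem_insert_self a s)).add (ih fun i hi => h i (mem_insert_of_mem hi))

/-- `u` is an operator of norm at most `θ`. -/
private def Op (r : ℕ) (θ : ℝ) (u : DP) : Prop := 0 ≤ θ ∧ Gd u ∧
  ∀ (X : ℕ) (M : ℝ) (v : DP), 0 ≤ M → Sm 0 v = 0 →
    (∀ y : ℕ, 1 ≤ y → 2 * y ≤ X → |Sm y v| ≤ M * W r y) →
    ∀ y : ℕ, 1 ≤ y → y ≤ X → |Sm y (u * v)| ≤ θ * M * W r y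

private lemma Op.mono {r : ℕ} {θ θ' : ℝ} {u : DP} (h : Op r θ u) (hθ : θ ≤ θ') : Op r θ' u := by
  refine ⟨h.1.trans hθ, h.2.1, fun X M v hM hv hb y hy hyX => (h.2.2 X M v hM hv hb y hy hyX).trans ?_⟩
  have := W_nonneg r y
  gcongr

private lemma Op.add {r : ℕ} {θ θ' : ℝ} {u u' : DP} (h : Op r θ u) (h' : Op r θ' u') :
    Op r (θ + θ') (u + u') := by
  refine ⟨add_nonneg h.1 h'.1, h.2.1.add h'.2.1, fun X M v hM hv hb y hy hyX => ?_⟩
  rw [add_mul, map_add]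
  have h1 := h.2.2 X M v hM hv hb y hy hyX
  have h2 := h'.2.2 X M v hM hv hb y hy hyX
  calc |Sm y (u * v) + Sm y (u' * v)| ≤ |Sm y (u * v)| + |Sm y (u' * v)| := abs_add_le _ _
    _ ≤ θ * M * W r y + θ' * M * W r y := add_le_add h1 h2
    _ = _ := by ring

private lemma Op.smul {r : ℕ} {θ : ℝ} {u : DP} (h : Op r θ u) (c : ℝ) (hc : |c| ≤ 1) :
    Op r θ (c • u) := by
  refine ⟨h.1, h.2.1.smul c, fun X M v hM hv hb y hy hyX => ?_⟩
  rw [smul_mul_assoc, map_smul, smul_eq_mul, abs_mul]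
  have h1 := h.2.2 X M v hM hv hb y hy hyX
  calc |c| * |Sm y (u * v)| ≤ 1 * |Sm y (u * v)| := by gcongr
    _ ≤ _ := by rw [one_mul]; exact h1

private lemma Op.neg {r : ℕ} {θ : ℝ} {u : DP} (h : Op r θ u) : Op r θ (-u) := by
  have := h.smul (-1) (by norm_num)
  rwa [neg_one_smul] at this

private lemma Op.sub {r : ℕ} {θ θ' : ℝ} {u u' : DP} (h : Op r θ u) (h' : Op r θ' u') :
    Op r (θ + θ') (u - u') := by
  rw [sub_eq_add_neg]
  exact h.add h'.neg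

private lemma Op.mo (r : ℕ) {m : ℕ} (hm : 2 ≤ m) : Op r (wt r m) (mo m) := by
  have hm0 : (0 : ℝ) ≤ Real.log (2 * (m : ℝ)) := by
    apply Real.log_nonneg
    have : (2 : ℝ) ≤ m := by exact_mod_cast hm
    linarith
  have hw : 0 ≤ wt r m := by
    unfold wt
    positivity
  refine ⟨hw, Gd.mo (by omega), fun X M v hM hv hb y hy hyX => ?_⟩
  rw [Sm_mo_mul (by omega)]
  rcases Nat.eq_zero_or_pos (y / m) with h0 | hpos
  · rw [h0, hv, abs_zero]
    exact mul_nonneg (mul_nonneg hw hM) (W_nonneg r y)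
  · have h2 : 2 * (y / m) ≤ X := by
      have h3 : y / m ≤ y / 2 := Nat.div_le_div_left hm (by norm_num)
      have h4 : 2 * (y / 2) ≤ y := Nat.mul_div_le y 2
      omega
    calc |Sm (y / m) v| ≤ M * W r (y / m) := hb _ hpos h2
      _ ≤ M * (wt r m * W r y) := mul_le_mul_of_nonneg_left (shift r m y (by omega) hpos) hM
      _ = _ := by ring

private lemma inversion {r : ℕ} {θ : ℝ} {u : DP} (h : Op r θ u) (hθ : θ ≤ 1 / 2) {X : ℕ} {M : ℝ}
    {v : DP} (hM : 0 ≤ M) (hv : Sm 0 v = 0)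
    (hb : ∀ y : ℕ, 1 ≤ y → y ≤ X → |Sm y ((1 + u) * v)| ≤ M * W r y) :
    ∀ y : ℕ, 1 ≤ y → y ≤ X → |Sm y v| ≤ (1 + 2 * θ) * M * W r y := by
  have hθ0 := h.1
  intro y
  induction y using Nat.strong_induction_on with
  | _ y ih =>
    intro hy hyX
    have h1 := h.2.2 y ((1 + 2 * θ) * M) v (by positivity) hv
      (fun z hz hzy => ih z (by omega) hz (by omega)) y hy le_rfl
    have h2 := hb y hy hyX
    have h3 : Sm y v = Sm y ((1 + u) * v) - Sm y (u * v) := by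
      rw [add_mul, one_mul, map_add]
      ring
    have hW := W_nonneg r y
    rw [h3]
    calc |Sm y ((1 + u) * v) - Sm y (u * v)| ≤ |Sm y ((1 + u) * v)| + |Sm y (u * v)| := abs_sub _ _
      _ ≤ M * W r y + θ * ((1 + 2 * θ) * M) * W r y := add_le_add h2 h1
      _ = (1 + θ + 2 * θ ^ 2) * (M * W r y) := by ring
      _ ≤ (1 + 2 * θ) * (M * W r y) := by
          apply mul_le_mul_of_nonneg_right _ (by positivity)
          nlinarith
      _ = _ := by ring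

private lemma geo_mul (K m : ℕ) : (1 - mo m) * geo K m = 1 - mo (m ^ K) := by
  unfold geo
  induction K with
  | zero => simp [mo_one]
  | succ K ih =>
    rw [sum_range_succ, mul_add, ih, sub_mul, one_mul, mo_mul, ← pow_succ']
    ring

private lemma Gd_geo (K m : ℕ) (hm : 1 ≤ m) : Gd (geo K m) := by
  unfold geo
  exact Gd.sum _ _ fun j _ => Gd.mo (Nat.one_le_pow _ _ hm)

private lemma Gd_Sf (ω : ℕ → ℤˣ) (i : ℕ) : Gd (Sf ω i) := by
  unfold Sf dl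
  exact Gd.one.add (((Gd.mo (pa_prime i).pos).sub (Gd.mo (pb_prime i).pos)).smul _)

private lemma Gd_Cf (i : ℕ) : Gd (Cf i) := Gd.mo (Nat.mul_pos (pa_prime i).pos (pb_prime i).pos)

private lemma Gd_Bf (i : ℕ) : Gd (Bf i) := Gd.mo (pow_pos (pb_prime i).pos 2)

private lemma Gd_G (ω : ℕ → ℤˣ) (K i : ℕ) : Gd (geo K (pb i ^ 2) * (Sf ω i - Cf i)) :=
  (Gd_geo K _ (pow_pos (pb_prime i).pos 2)).mul ((Gd_Sf ω i).sub (Gd_Cf i))

private lemma Gd_F (ω : ℕ → ℤˣ) (i : ℕ) : Gd ((1 + (Bf i - Cf i)) * Sf ω i) :=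
  (Gd.one.add ((Gd_Bf i).sub (Gd_Cf i))).mul (Gd_Sf ω i)

theorem Sm_zero_bra (ω : ℕ → ℤˣ) (K : ℕ) (I : Finset ℕ) : Sm 0 (bra ω K I) = 0 := by
  have h : Gd (bra ω K I) := Gd.prod _ _ fun i _ => Gd_G ω K i
  have := h 1 Sm_zero_one
  rwa [mul_one] at this

/-- numerator of the losses -/
private noncomputable def TT (r i : ℕ) : ℝ := (1 + Real.log (64 * (pa i : ℝ) ^ 5)) ^ r

private lemma log_nonneg' (i : ℕ) : 0 ≤ Real.log (64 * (pa i : ℝ) ^ 5) := by
  apply Real.log_nonneg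
  have : (1 : ℝ) ≤ pa i := by exact_mod_cast (pa_prime i).one_lt.le
  have h5 : (1 : ℝ) ≤ (pa i : ℝ) ^ 5 := one_le_pow₀ this
  linarith

private lemma TT_nonneg (r i : ℕ) : 0 ≤ TT r i := by
  unfold TT
  have := log_nonneg' i
  positivity

private lemma Op_mo (r i m j : ℕ) (h1 : pa i ^ j ≤ m) (hj : 1 ≤ j) (h2 : m ≤ 32 * pa i ^ 5) :
    Op r (TT r i / Real.sqrt ((pa i : ℝ) ^ j)) (mo m) := by
  have hp := two_le_pa i
  have hp' : 2 ≤ pa i ^ j := hp.trans (Nat.le_self_pow (by omega) _)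
  have hm : 2 ≤ m := hp'.trans h1
  refine (Op.mo r hm).mono ?_
  unfold wt TT
  have hmR : (2 : ℝ) ≤ m := by exact_mod_cast hm
  have h1R : (pa i : ℝ) ^ j ≤ m := by exact_mod_cast h1
  have h2R : (m : ℝ) ≤ 32 * (pa i : ℝ) ^ 5 := by exact_mod_cast h2
  have hpR : (0 : ℝ) < (pa i : ℝ) ^ j := by positivity
  have hl : Real.log (2 * (m : ℝ)) ≤ Real.log (64 * (pa i : ℝ) ^ 5) := by
    apply Real.log_le_log (by linarith)
    linarith
  have hl0 : 0 ≤ Real.log (2 * (m : ℝ)) := Real.log_nonneg (by linarith)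
  have hs : Real.sqrt ((pa i : ℝ) ^ j) ≤ Real.sqrt m := Real.sqrt_le_sqrt h1R
  have hs0 : 0 < Real.sqrt ((pa i : ℝ) ^ j) := Real.sqrt_pos.2 hpR
  have h0 := log_nonneg' i
  have h0' : 0 ≤ (1 + Real.log (64 * (pa i : ℝ) ^ 5)) ^ r := by positivity
  gcongr

private lemma omega_abs (ω : ℕ → ℤˣ) (i : ℕ) : |((ω i : ℤ) : ℝ)| ≤ 1 := by
  rcases Int.units_eq_one_or (ω i) with h | h <;> simp [h]

/-- the first order operator -/
private lemma Op_u (r : ℕ) (ω : ℕ → ℤˣ) (i : ℕ) :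
    Op r (8 * (TT r i / Real.sqrt ((pa i : ℝ) ^ 1))) ((1 + (Bf i - Cf i)) * Sf ω i - 1) := by
  have hp := two_le_pa i
  have hpb := pb_lt_two_mul i
  have hab := pa_lt_pb i
  set s : ℝ := ((ω i : ℤ) : ℝ) with hs
  have hsa : |s| ≤ 1 := omega_abs ω i
  have hnsa : |(-s)| ≤ 1 := by rwa [abs_neg]
  have e : (1 + (Bf i - Cf i)) * Sf ω i - 1 =
      (((s • mo (pa i) + (-s) • mo (pb i)) + (mo (pb i ^ 2) - mo (pa i * pb i))) +
      ((s • mo (pb i ^ 2 * pa i) + (-s) • mo (pb i ^ 2 * pb i)) +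
        ((-s) • mo (pa i * pb i * pa i) + s • mo (pa i * pb i * pb i)))) := by
    unfold Bf Cf Sf dl
    rw [← hs, ← mo_mul (pb i ^ 2) (pa i), ← mo_mul (pb i ^ 2) (pb i), ← mo_mul (pa i * pb i) (pa i),
      ← mo_mul (pa i * pb i) (pb i)]
    simp only [neg_smul, smul_sub]
    simp only [Algebra.smul_def]
    ring
  have hc : ∀ m : ℕ, pa i ≤ m → m ≤ 32 * pa i ^ 5 → Op r (TT r i / Real.sqrt ((pa i : ℝ) ^ 1)) (mo m) :=
    fun m h1 h2 => Op_mo r i m 1 (by simpa using h1) le_rfl h2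
  have hpos := (pa_prime i).pos
  have e5 : pa i ^ 5 = pa i * pa i * pa i * pa i * pa i := by ring
  set p := pa i with hpdef
  set q := pb i with hqdef
  have hq2 : q ≤ 2 * p := hpb.le
  have b1 : p ≤ 32 * p ^ 5 := by
    calc p ≤ p ^ 5 := Nat.le_self_pow (by norm_num) p
      _ ≤ 32 * p ^ 5 := Nat.le_mul_of_pos_left _ (by norm_num)
  have hp5 : ∀ k : ℕ, k ≤ 5 → (2 * p) ^ k ≤ 32 * p ^ 5 := by
    intro k hk
    calc (2 * p) ^ k ≤ (2 * p) ^ 5 := Nat.pow_le_pow_right (by omega) hk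
      _ = 32 * p ^ 5 := by ring
  have b2 : q ≤ 32 * p ^ 5 := by
    have := hp5 1 (by norm_num)
    rw [pow_one] at this
    omega
  have b3 : q ^ 2 ≤ 32 * p ^ 5 := (Nat.pow_le_pow_left hq2 2).trans (hp5 2 (by norm_num))
  have b4 : p * q ≤ 32 * p ^ 5 := by
    calc p * q ≤ (2 * p) * (2 * p) := Nat.mul_le_mul (by omega) hq2
      _ = (2 * p) ^ 2 := by ring
      _ ≤ _ := hp5 2 (by norm_num)
  have b5 : q ^ 2 * p ≤ 32 * p ^ 5 := by
    calc q ^ 2 * p ≤ (2 * p) ^ 2 * (2 * p) := Nat.mul_le_mul (Nat.pow_le_pow_left hq2 2) (by omega)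
      _ = (2 * p) ^ 3 := by ring
      _ ≤ _ := hp5 3 (by norm_num)
  have b6 : q ^ 2 * q ≤ 32 * p ^ 5 := by
    calc q ^ 2 * q ≤ (2 * p) ^ 2 * (2 * p) := Nat.mul_le_mul (Nat.pow_le_pow_left hq2 2) hq2
      _ = (2 * p) ^ 3 := by ring
      _ ≤ _ := hp5 3 (by norm_num)
  have b7 : p * q * p ≤ 32 * p ^ 5 := by
    calc p * q * p ≤ (2 * p) * (2 * p) * (2 * p) :=
          Nat.mul_le_mul (Nat.mul_le_mul (by omega) hq2) (by omega)
      _ = (2 * p) ^ 3 := by ring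
      _ ≤ _ := hp5 3 (by norm_num)
  have b8 : p * q * q ≤ 32 * p ^ 5 := by
    calc p * q * q ≤ (2 * p) * (2 * p) * (2 * p) :=
          Nat.mul_le_mul (Nat.mul_le_mul (by omega) hq2) hq2
      _ = (2 * p) ^ 3 := by ring
      _ ≤ _ := hp5 3 (by norm_num)
  have a3 : p ≤ q ^ 2 := hab.le.trans (Nat.le_self_pow (by norm_num) q)
  have a4 : p ≤ p * q := Nat.le_mul_of_pos_right _ (by omega)
  have a5 : p ≤ q ^ 2 * p := Nat.le_mul_of_pos_left _ (pow_pos (by omega) 2)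
  have a6 : p ≤ q ^ 2 * q := a3.trans (Nat.le_mul_of_pos_right _ (by omega))
  have a7 : p ≤ p * q * p := a4.trans (Nat.le_mul_of_pos_right _ (by omega))
  have a8 : p ≤ p * q * q := a4.trans (Nat.le_mul_of_pos_right _ (by omega))
  rw [e]
  refine ((((hc _ le_rfl b1).smul s hsa).add ((hc _ hab.le b2).smul (-s) hnsa)).add
    ((hc _ a3 b3).sub (hc _ a4 b4)) |>.add
    ((((hc _ a5 b5).smul s hsa).add ((hc _ a6 b6).smul (-s) hnsa)).add
      (((hc _ a7 b7).smul (-s) hnsa).add ((hc _ a8 b8).smul s hsa)))).mono ?_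
  apply le_of_eq
  ring

/-- the error operator -/
private lemma Op_E (r : ℕ) (ω : ℕ → ℤˣ) (i : ℕ) :
    Op r (8 * (TT r i / Real.sqrt ((pa i : ℝ) ^ 3)))
      (Cf i * (Sf ω i - 1) + Bf i * (Bf i - Cf i) * Sf ω i) := by
  have hp := two_le_pa i
  have hpb := pb_lt_two_mul i
  have hab := pa_lt_pb i
  set s : ℝ := ((ω i : ℤ) : ℝ) with hs
  have hsa : |s| ≤ 1 := omega_abs ω i
  have hnsa : |(-s)| ≤ 1 := by rwa [abs_neg]
  have e : Cf i * (Sf ω i - 1) + Bf i * (Bf i - Cf i) * Sf ω i =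
      (((s • mo (pa i * pb i * pa i) + (-s) • mo (pa i * pb i * pb i)) +
        (mo (pb i ^ 2 * pb i ^ 2) - mo (pb i ^ 2 * (pa i * pb i)))) +
      ((s • mo (pb i ^ 2 * pb i ^ 2 * pa i) + (-s) • mo (pb i ^ 2 * pb i ^ 2 * pb i)) +
        ((-s) • mo (pb i ^ 2 * (pa i * pb i) * pa i) + s • mo (pb i ^ 2 * (pa i * pb i) * pb i)))) := by
    unfold Bf Cf Sf dl
    rw [← hs, ← mo_mul (pb i ^ 2 * pb i ^ 2) (pa i), ← mo_mul (pb i ^ 2 * pb i ^ 2) (pb i),
      ← mo_mul (pb i ^ 2 * (pa i * pb i)) (pa i), ← mo_mul (pb i ^ 2 * (pa i * pb i)) (pb i),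
      ← mo_mul (pa i * pb i) (pa i), ← mo_mul (pa i * pb i) (pb i),
      ← mo_mul (pb i ^ 2) (pb i ^ 2), ← mo_mul (pb i ^ 2) (pa i * pb i)]
    simp only [neg_smul, smul_sub]
    simp only [Algebra.smul_def]
    ring
  have hc : ∀ m : ℕ, pa i ^ 3 ≤ m → m ≤ 32 * pa i ^ 5 → Op r (TT r i / Real.sqrt ((pa i : ℝ) ^ 3)) (mo m) :=
    fun m h1 h2 => Op_mo r i m 3 h1 (by norm_num) h2
  have hpos := (pa_prime i).pos
  set p := pa i with hpdef
  set q := pb i with hqdef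
  have hq2 : q ≤ 2 * p := hpb.le
  have hpq : p ≤ q := hab.le
  have hp2 : p ≤ 2 * p := by omega
  have hp5 : ∀ k : ℕ, k ≤ 5 → (2 * p) ^ k ≤ 32 * p ^ 5 := by
    intro k hk
    calc (2 * p) ^ k ≤ (2 * p) ^ 5 := Nat.pow_le_pow_right (by omega) hk
      _ = 32 * p ^ 5 := by ring
  have c3 : ∀ a b c : ℕ, p ≤ a → a ≤ 2 * p → p ≤ b → b ≤ 2 * p → p ≤ c → c ≤ 2 * p →
      p ^ 3 ≤ a * b * c ∧ a * b * c ≤ 32 * p ^ 5 := by
    intro a b c ha ha' hb hb' hc hc'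
    constructor
    · calc p ^ 3 = p * p * p := by ring
        _ ≤ a * b * c := Nat.mul_le_mul (Nat.mul_le_mul ha hb) hc
    · calc a * b * c ≤ (2 * p) * (2 * p) * (2 * p) := Nat.mul_le_mul (Nat.mul_le_mul ha' hb') hc'
        _ = (2 * p) ^ 3 := by ring
        _ ≤ _ := hp5 3 (by norm_num)
  have c4 : ∀ a b c d : ℕ, p ≤ a → a ≤ 2 * p → p ≤ b → b ≤ 2 * p → p ≤ c → c ≤ 2 * p →
      p ≤ d → d ≤ 2 * p → p ^ 3 ≤ a * b * c * d ∧ a * b * c * d ≤ 32 * p ^ 5 := by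
    intro a b c d ha ha' hb hb' hc hc' hd hd'
    constructor
    · exact (c3 a b c ha ha' hb hb' hc hc').1.trans (Nat.le_mul_of_pos_right _ (by omega))
    · calc a * b * c * d ≤ (2 * p) * (2 * p) * (2 * p) * (2 * p) :=
            Nat.mul_le_mul (Nat.mul_le_mul (Nat.mul_le_mul ha' hb') hc') hd'
        _ = (2 * p) ^ 4 := by ring
        _ ≤ _ := hp5 4 (by norm_num)
  have c5 : ∀ a b c d e : ℕ, p ≤ a → a ≤ 2 * p → p ≤ b → b ≤ 2 * p → p ≤ c → c ≤ 2 * p →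
      p ≤ d → d ≤ 2 * p → p ≤ e → e ≤ 2 * p →
      p ^ 3 ≤ a * b * c * d * e ∧ a * b * c * d * e ≤ 32 * p ^ 5 := by
    intro a b c d e ha ha' hb hb' hc hc' hd hd' he he'
    constructor
    · exact (c4 a b c d ha ha' hb hb' hc hc' hd hd').1.trans (Nat.le_mul_of_pos_right _ (by omega))
    · calc a * b * c * d * e ≤ (2 * p) * (2 * p) * (2 * p) * (2 * p) * (2 * p) :=
            Nat.mul_le_mul (Nat.mul_le_mul (Nat.mul_le_mul (Nat.mul_le_mul ha' hb') hc') hd') he'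
        _ = (2 * p) ^ 5 := by ring
        _ ≤ _ := hp5 5 (by norm_num)
  have m1 := c3 p q p le_rfl hp2 hpq hq2 le_rfl hp2
  have m2 := c3 p q q le_rfl hp2 hpq hq2 hpq hq2
  have m3 := c4 q q q q hpq hq2 hpq hq2 hpq hq2 hpq hq2
  have m4 := c4 q q p q hpq hq2 hpq hq2 le_rfl hp2 hpq hq2
  have m5 := c5 q q q q p hpq hq2 hpq hq2 hpq hq2 hpq hq2 le_rfl hp2
  have m6 := c5 q q q q q hpq hq2 hpq hq2 hpq hq2 hpq hq2 hpq hq2
  have m7 := c5 q q p q p hpq hq2 hpq hq2 le_rfl hp2 hpq hq2 le_rfl hp2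
  have m8 := c5 q q p q q hpq hq2 hpq hq2 le_rfl hp2 hpq hq2 hpq hq2
  rw [show q * q * q * q = q ^ 2 * q ^ 2 by ring] at m3 m5 m6
  rw [show q * q * p * q = q ^ 2 * (p * q) by ring] at m4 m7 m8
  rw [e]
  refine ((((hc _ m1.1 m1.2).smul s hsa).add ((hc _ m2.1 m2.2).smul (-s) hnsa)).add
    ((hc _ m3.1 m3.2).sub (hc _ m4.1 m4.2)) |>.add
    ((((hc _ m5.1 m5.2).smul s hsa).add ((hc _ m6.1 m6.2).smul (-s) hnsa)).add
      (((hc _ m7.1 m7.2).smul (-s) hnsa).add ((hc _ m8.1 m8.2).smul s hsa)))).mono ?_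
  apply le_of_eq
  ring

/-- One step. -/
private lemma step (r : ℕ) (ω : ℕ → ℤˣ) (i K X : ℕ) (hX : X < 2 ^ K)
    (hθ : 8 * (TT r i / Real.sqrt ((pa i : ℝ) ^ 1)) ≤ 1 / 2) {M : ℝ} (hM : 0 ≤ M) {v : DP}
    (hv : Sm 0 v = 0)
    (hb : ∀ y : ℕ, 1 ≤ y → y ≤ X → |Sm y ((1 + (Bf i - Cf i)) * Sf ω i * v)| ≤ M * W r y) :
    ∀ y : ℕ, 1 ≤ y → y ≤ X → |Sm y (geo K (pb i ^ 2) * (Sf ω i - Cf i) * v)| ≤
      (1 + 4 * (8 * (TT r i / Real.sqrt ((pa i : ℝ) ^ 3)))) * M * W r y := by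
  set c : ℝ := 8 * (TT r i / Real.sqrt ((pa i : ℝ) ^ 3)) with hc
  set θ : ℝ := 8 * (TT r i / Real.sqrt ((pa i : ℝ) ^ 1)) with hθd
  have hu := Op_u r ω i
  rw [← hθd] at hu
  have hE := Op_E r ω i
  rw [← hc] at hE
  have hc0 := hE.1
  have hθ0 := hu.1
  -- bound for v
  have hv2 : ∀ y : ℕ, 1 ≤ y → y ≤ X → |Sm y v| ≤ 2 * M * W r y := by
    intro y hy hyX
    have h1 := inversion hu hθ hM hv (X := X) (fun y hy hyX => by
      rw [add_sub_cancel]
      exact hb y hy hyX) y hy hyX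
    refine h1.trans ?_
    have := W_nonneg r y
    have h3 : (1 + 2 * θ) * M ≤ 2 * M := mul_le_mul_of_nonneg_right (by linarith) hM
    exact mul_le_mul_of_nonneg_right h3 this
  set E := Cf i * (Sf ω i - 1) + Bf i * (Bf i - Cf i) * Sf ω i with hEd
  set t := (geo K (pb i ^ 2) * (Sf ω i - Cf i) - (1 + (Bf i - Cf i)) * Sf ω i) * v with ht
  have hGt : Gd (geo K (pb i ^ 2) * (Sf ω i - Cf i) - (1 + (Bf i - Cf i)) * Sf ω i) :=
    (Gd_G ω K i).sub (Gd_F ω i)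
  have ht0 : Sm 0 t = 0 := hGt v hv
  have hid : (1 + (-Bf i)) * t = E * v - mo ((pb i ^ 2) ^ K) * ((Sf ω i - Cf i) * v) := by
    have hg := geo_mul K (pb i ^ 2)
    have hBf : mo (pb i ^ 2) = Bf i := rfl
    rw [hBf] at hg
    have h1 : (1 + (-Bf i)) * t = ((1 - Bf i) * geo K (pb i ^ 2)) * ((Sf ω i - Cf i) * v) -
        (1 - Bf i) * ((1 + (Bf i - Cf i)) * Sf ω i) * v := by
      rw [ht]
      ring
    rw [h1, hg, hEd]
    ring
  have hlast : ∀ y : ℕ, y ≤ X → Sm y (mo ((pb i ^ 2) ^ K) * ((Sf ω i - Cf i) * v)) = 0 := by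
    intro y hyX
    have h2 : 2 ^ K ≤ (pb i ^ 2) ^ K := by
      apply Nat.pow_le_pow_left
      exact (pb_prime i).two_le.trans (Nat.le_self_pow (by norm_num) _)
    rw [Sm_mo_mul (pow_pos (pow_pos (pb_prime i).pos 2) K), Nat.div_eq_of_lt (by omega)]
    exact ((Gd_Sf ω i).sub (Gd_Cf i)) v hv
  have h1 : ∀ y : ℕ, 1 ≤ y → y ≤ X → |Sm y ((1 + (-Bf i)) * t)| ≤ (c * (2 * M)) * W r y := by
    intro y hy hyX
    rw [hid, map_sub, hlast y hyX, sub_zero]
    exact hE.2.2 X (2 * M) v (by linarith) hv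
      (fun z hz hzX => hv2 z hz (by omega)) y hy hyX
  have hB : Op r (TT r i / Real.sqrt ((pa i : ℝ) ^ 1)) (-Bf i) := by
    apply Op.neg
    have hpb := pb_lt_two_mul i
    have hab := pa_lt_pb i
    have hp := two_le_pa i
    apply Op_mo r i (pb i ^ 2) 1 _ le_rfl
    · calc pb i ^ 2 ≤ (2 * pa i) ^ 2 := Nat.pow_le_pow_left hpb.le 2
        _ ≤ (2 * pa i) ^ 5 := Nat.pow_le_pow_right (by omega) (by norm_num)
        _ = 32 * pa i ^ 5 := by ring
    · rw [pow_one]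
      exact hab.le.trans (Nat.le_self_pow (by norm_num) _)
  have hB2 : TT r i / Real.sqrt ((pa i : ℝ) ^ 1) ≤ 1 / 2 := by
    have h0 := hB.1
    linarith
  have h2 := inversion hB hB2 (by positivity) ht0 (X := X) h1
  intro y hy hyX
  have h3 := h2 y hy hyX
  have h4 := hb y hy hyX
  have hW := W_nonneg r y
  have h5 : Sm y (geo K (pb i ^ 2) * (Sf ω i - Cf i) * v) =
      Sm y ((1 + (Bf i - Cf i)) * Sf ω i * v) + Sm y t := by
    rw [← map_add, ht]
    congr 1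
    ring
  rw [h5]
  have h6 : (1 + 2 * (TT r i / Real.sqrt ((pa i : ℝ) ^ 1))) * (c * (2 * M)) * W r y ≤
      2 * (c * (2 * M)) * W r y := by
    apply mul_le_mul_of_nonneg_right _ hW
    apply mul_le_mul_of_nonneg_right _ (by positivity)
    linarith
  calc |Sm y ((1 + (Bf i - Cf i)) * Sf ω i * v) + Sm y t| ≤
      |Sm y ((1 + (Bf i - Cf i)) * Sf ω i * v)| + |Sm y t| := abs_add_le _ _
    _ ≤ M * W r y + 2 * (c * (2 * M)) * W r y := add_le_add h4 (h3.trans h6)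
    _ = _ := by ring

private lemma TT_le (r : ℕ) : ∃ C : ℝ, 0 < C ∧ ∀ i : ℕ, TT r i ≤ C * (pa i : ℝ) ^ ((1 : ℝ) / 4) := by
  set ε : ℝ := 1 / (4 * ((r : ℝ) + 1)) with hε
  have hr0 : (0 : ℝ) ≤ r := by positivity
  have hε0 : 0 < ε := by positivity
  have hl64 : 0 ≤ Real.log 64 := Real.log_nonneg (by norm_num)
  set A : ℝ := 1 + Real.log 64 + 5 / ε with hA
  have hA0 : 0 < A := by positivity
  refine ⟨A ^ r, by positivity, fun i => ?_⟩
  have hp1 : (1 : ℝ) ≤ pa i := by exact_mod_cast (pa_prime i).one_lt.le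
  have hp0 : (0 : ℝ) < pa i := by linarith
  have h1 : Real.log (64 * (pa i : ℝ) ^ 5) = Real.log 64 + 5 * Real.log (pa i) := by
    rw [Real.log_mul (by norm_num) (by positivity), Real.log_pow]
    push_cast
    ring
  have h2 : Real.log (pa i) ≤ (pa i : ℝ) ^ ε / ε := Real.log_le_rpow_div hp0.le hε0
  have hpε : 1 ≤ (pa i : ℝ) ^ ε := Real.one_le_rpow hp1 hε0.le
  have h3 : 1 + Real.log (64 * (pa i : ℝ) ^ 5) ≤ A * (pa i : ℝ) ^ ε := by
    rw [h1, hA]
    have h4 : 5 * Real.log (pa i) ≤ 5 / ε * (pa i : ℝ) ^ ε := by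
      calc 5 * Real.log (pa i) ≤ 5 * ((pa i : ℝ) ^ ε / ε) := by linarith
        _ = _ := by ring
    have h5 : 1 + Real.log 64 ≤ (1 + Real.log 64) * (pa i : ℝ) ^ ε :=
      le_mul_of_one_le_right (by linarith) hpε
    linarith
  have h0 := log_nonneg' i
  unfold TT
  calc (1 + Real.log (64 * (pa i : ℝ) ^ 5)) ^ r ≤ (A * (pa i : ℝ) ^ ε) ^ r :=
        pow_le_pow_left₀ (by linarith) h3 r
    _ = A ^ r * (pa i : ℝ) ^ (ε * r) := by
        rw [mul_pow, ← Real.rpow_natCast ((pa i : ℝ) ^ ε) r, ← Real.rpow_mul hp0.le]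
    _ ≤ A ^ r * (pa i : ℝ) ^ ((1 : ℝ) / 4) := by
        apply mul_le_mul_of_nonneg_left _ (by positivity)
        apply Real.rpow_le_rpow_of_exponent_le hp1
        rw [hε, div_mul_eq_mul_div, one_mul, div_le_div_iff₀ (by positivity) (by norm_num)]
        linarith

theorem bracket (r : ℕ) : ∃ (C : ℝ) (n₁ : ℕ), 0 < C ∧ ∀ (n₀ J K X : ℕ) (ω : ℕ → ℤˣ) (M : ℝ),
    n₁ ≤ n₀ → X < 2 ^ K → 0 ≤ M →
    (∀ y : ℕ, 1 ≤ y → y ≤ X → |Sm y (psi ω (Ico n₀ J))| ≤ M * Real.sqrt y * kr r y) →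
    ∀ y : ℕ, 1 ≤ y → y ≤ X → |Sm y (bra ω K (Ico n₀ J))| ≤ C * M * Real.sqrt y * kr r y := by
  obtain ⟨C₀, hC₀, hT⟩ := TT_le r
  -- first order losses
  have hθ : ∀ i : ℕ, (16 * C₀) ^ 4 ≤ (i : ℝ) → 8 * (TT r i / Real.sqrt ((pa i : ℝ) ^ 1)) ≤ 1 / 2 := by
    intro i hi
    have hp := lt_pa i
    have hpi : (i : ℝ) ≤ pa i := by
      have : i ≤ pa i := by omega
      exact_mod_cast this
    have hp0 : (0 : ℝ) < pa i := by exact_mod_cast (pa_prime i).pos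
    have h1 : (16 * C₀) ≤ (pa i : ℝ) ^ ((1 : ℝ) / 4) := by
      have h2 : (16 * C₀) = ((16 * C₀) ^ 4) ^ ((1 : ℝ) / 4) := by
        rw [← Real.rpow_natCast, ← Real.rpow_mul (by positivity)]
        norm_num
      rw [h2]
      apply Real.rpow_le_rpow (by positivity) (hi.trans hpi) (by norm_num)
    have h3 : Real.sqrt ((pa i : ℝ) ^ 1) = (pa i : ℝ) ^ ((1 : ℝ) / 4) * (pa i : ℝ) ^ ((1 : ℝ) / 4) := by
      rw [pow_one, Real.sqrt_eq_rpow, ← Real.rpow_add hp0]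
      norm_num
    rw [h3]
    have h4 : (0 : ℝ) < (pa i : ℝ) ^ ((1 : ℝ) / 4) := by positivity
    rw [mul_div_assoc', div_le_iff₀ (by positivity)]
    have h5 := hT i
    nlinarith
  -- second order losses
  have hc : ∀ i : ℕ, 4 * (8 * (TT r i / Real.sqrt ((pa i : ℝ) ^ 3))) ≤
      32 * C₀ * (1 / ((i + 1 : ℕ) : ℝ) ^ ((5 : ℝ) / 4)) := by
    intro i
    have hp := lt_pa i
    have hpi : ((i + 1 : ℕ) : ℝ) ≤ pa i := by
      have : i + 1 ≤ pa i := by omega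
      exact_mod_cast this
    have hi0 : (0 : ℝ) < ((i + 1 : ℕ) : ℝ) := by positivity
    have hp0 : (0 : ℝ) < pa i := by exact_mod_cast (pa_prime i).pos
    have h3 : Real.sqrt ((pa i : ℝ) ^ 3) = (pa i : ℝ) ^ ((1 : ℝ) / 4) * (pa i : ℝ) ^ ((5 : ℝ) / 4) := by
      rw [Real.sqrt_eq_rpow, ← Real.rpow_natCast, ← Real.rpow_mul hp0.le, ← Real.rpow_add hp0]
      norm_num
    have h4 : (0 : ℝ) < (pa i : ℝ) ^ ((1 : ℝ) / 4) := by positivity
    have h5 : ((i + 1 : ℕ) : ℝ) ^ ((5 : ℝ) / 4) ≤ (pa i : ℝ) ^ ((5 : ℝ) / 4) :=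
      Real.rpow_le_rpow hi0.le hpi (by norm_num)
    have h6 : (0 : ℝ) < ((i + 1 : ℕ) : ℝ) ^ ((5 : ℝ) / 4) := by positivity
    have h7 : TT r i / Real.sqrt ((pa i : ℝ) ^ 3) ≤ C₀ * (1 / ((i + 1 : ℕ) : ℝ) ^ ((5 : ℝ) / 4)) := by
      rw [h3]
      calc TT r i / ((pa i : ℝ) ^ ((1 : ℝ) / 4) * (pa i : ℝ) ^ ((5 : ℝ) / 4))
          ≤ (C₀ * (pa i : ℝ) ^ ((1 : ℝ) / 4)) / ((pa i : ℝ) ^ ((1 : ℝ) / 4) * (pa i : ℝ) ^ ((5 : ℝ) / 4)) := by
            apply div_le_div_of_nonneg_right (hT i) (by positivity)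
        _ = C₀ * (1 / (pa i : ℝ) ^ ((5 : ℝ) / 4)) := by
            field_simp
        _ ≤ _ := by
            apply mul_le_mul_of_nonneg_left _ hC₀.le
            exact one_div_le_one_div_of_le h6 h5
    linarith
  have hsum : Summable (fun i : ℕ => 32 * C₀ * (1 / ((i + 1 : ℕ) : ℝ) ^ ((5 : ℝ) / 4))) := by
    apply Summable.mul_left
    exact (summable_nat_add_iff 1).2 (Real.summable_one_div_nat_rpow.2 (by norm_num))
  set S₀ : ℝ := ∑' i : ℕ, 32 * C₀ * (1 / ((i + 1 : ℕ) : ℝ) ^ ((5 : ℝ) / 4)) with hS₀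
  refine ⟨Real.exp S₀, ⌈(16 * C₀) ^ 4⌉₊, Real.exp_pos _, ?_⟩
  intro n₀ J K X ω M hn hX hM hb
  set cc : ℕ → ℝ := fun i => 4 * (8 * (TT r i / Real.sqrt ((pa i : ℝ) ^ 3))) with hcc
  have hcc0 : ∀ i, 0 ≤ cc i := by
    intro i
    have := TT_nonneg r i
    simp only [hcc]
    positivity
  have hpsi : psi ω (Ico n₀ J) = ∏ i ∈ Ico n₀ J, ((1 + (Bf i - Cf i)) * Sf ω i) := by
    rw [prod_mul_distrib]
    rfl
  rcases le_or_gt J n₀ with hJ | hJ
  · have he : Ico n₀ J = ∅ := Ico_eq_empty (by omega)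
    intro y hy hyX
    have h1 := hb y hy hyX
    rw [he] at h1 ⊢
    have h2 : psi ω ∅ = bra ω K ∅ := by simp [psi, bra, MB.star]
    rw [← h2]
    refine h1.trans ?_
    have h3 : M * 1 ≤ Real.exp S₀ * M := by
      rw [mul_comm]
      apply mul_le_mul_of_nonneg_right _ hM
      apply Real.one_le_exp
      exact tsum_nonneg fun i => by positivity
    rw [mul_one] at h3
    have := W_nonneg r y
    unfold W at this
    calc M * Real.sqrt y * kr r y = M * (Real.sqrt y * kr r y) := by ring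
      _ ≤ (Real.exp S₀ * M) * (Real.sqrt y * kr r y) := mul_le_mul_of_nonneg_right h3 this
      _ = _ := by ring
  · have main : ∀ k : ℕ, n₀ ≤ k → k ≤ J → ∀ y : ℕ, 1 ≤ y → y ≤ X →
        |Sm y ((∏ i ∈ Ico n₀ k, (geo K (pb i ^ 2) * (Sf ω i - Cf i))) *
          ∏ i ∈ Ico k J, ((1 + (Bf i - Cf i)) * Sf ω i))| ≤
        ((∏ i ∈ Ico n₀ k, (1 + cc i)) * M) * W r y := by
      intro k hk
      induction k, hk using Nat.le_induction with
      | base =>
        intro _ y hy hyX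
        rw [Ico_self, prod_empty, prod_empty, one_mul, one_mul, ← hpsi]
        have := hb y hy hyX
        unfold W
        linarith
      | succ k hk ih =>
        intro hkJ y hy hyX
        have ih' := ih (by omega)
        set v := (∏ i ∈ Ico n₀ k, (geo K (pb i ^ 2) * (Sf ω i - Cf i))) *
          ∏ i ∈ Ico (k + 1) J, ((1 + (Bf i - Cf i)) * Sf ω i) with hvd
        have hGv : Gd v := (Gd.prod _ _ fun i _ => Gd_G ω K i).mul (Gd.prod _ _ fun i _ => Gd_F ω i)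
        have hv0 : Sm 0 v = 0 := by
          have := hGv 1 Sm_zero_one
          rwa [mul_one] at this
        have hprod0 : 0 ≤ ∏ i ∈ Ico n₀ k, (1 + cc i) :=
          prod_nonneg fun i _ => by have := hcc0 i; linarith
        have e1 : (∏ i ∈ Ico n₀ k, (geo K (pb i ^ 2) * (Sf ω i - Cf i))) *
            ∏ i ∈ Ico k J, ((1 + (Bf i - Cf i)) * Sf ω i) =
            (1 + (Bf k - Cf k)) * Sf ω k * v := by
          rw [Finset.prod_eq_prod_Ico_succ_bot (by omega : k < J), hvd]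
          ring
        rw [e1] at ih'
        have hθk : 8 * (TT r k / Real.sqrt ((pa k : ℝ) ^ 1)) ≤ 1 / 2 := by
          apply hθ k
          calc (16 * C₀) ^ 4 ≤ (⌈(16 * C₀) ^ 4⌉₊ : ℝ) := Nat.le_ceil _
            _ ≤ k := by
              have : ⌈(16 * C₀) ^ 4⌉₊ ≤ k := hn.trans hk
              exact_mod_cast this
        have h1 := step r ω k K X hX hθk (mul_nonneg hprod0 hM) hv0 ih' y hy hyX
        have e2 : (∏ i ∈ Ico n₀ (k + 1), (geo K (pb i ^ 2) * (Sf ω i - Cf i))) *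
            ∏ i ∈ Ico (k + 1) J, ((1 + (Bf i - Cf i)) * Sf ω i) =
            geo K (pb k ^ 2) * (Sf ω k - Cf k) * v := by
          rw [prod_Ico_succ_top hk, hvd]
          ring
        rw [e2, prod_Ico_succ_top hk]
        refine h1.trans (le_of_eq ?_)
        simp only [hcc]
        ring
    intro y hy hyX
    have h1 := main J hJ.le le_rfl y hy hyX
    rw [Ico_self, prod_empty, mul_one] at h1
    have h2 : ∏ i ∈ Ico n₀ J, (1 + cc i) ≤ Real.exp S₀ := by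
      calc ∏ i ∈ Ico n₀ J, (1 + cc i) ≤ ∏ i ∈ Ico n₀ J, Real.exp (cc i) := by
            apply prod_le_prod
            · intro i _
              have := hcc0 i
              linarith
            · intro i _
              have := Real.add_one_le_exp (cc i)
              linarith
        _ = Real.exp (∑ i ∈ Ico n₀ J, cc i) := (Real.exp_sum _ _).symm
        _ ≤ Real.exp S₀ := by
            apply Real.exp_le_exp.2
            calc ∑ i ∈ Ico n₀ J, cc i ≤ ∑ i ∈ Ico n₀ J, 32 * C₀ * (1 / ((i + 1 : ℕ) : ℝ) ^ ((5 : ℝ) / 4)) :=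
                  sum_le_sum fun i _ => hc i
              _ ≤ S₀ := hsum.sum_le_tsum _ (fun i _ => by positivity)
    have hW := W_nonneg r y
    have h3 : ((∏ i ∈ Ico n₀ J, (1 + cc i)) * M) * W r y ≤ (Real.exp S₀ * M) * W r y := by
      gcongr
    calc |Sm y (bra ω K (Ico n₀ J))| ≤ (Real.exp S₀ * M) * W r y := h1.trans h3
      _ = _ := by unfold W; ring

end Pool.Agent.Helper66.GL
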