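import Pool.Agent.Helper66.GL.CmB

/-!
# Block GL-F1 (MP_a499ba_nt, Q2)

The Euler product of the completely multiplicative function. (`CmB` is proved.)

Proof. Let `e = ω i` (a sign). (a) `Sf ω i - Cf i = (1 + e • mo (pa i)) * (1 - e • mo (pb i))` (`mo_mul`, `e * e = 1`). (b) For a sign `c` and
`p ≥ 1`: `geo K (p^2) * (1 + c • mo p) = ∑ j ∈ range (2 * K), c^j • mo (p^j)` (induction on `K`; `c^2 = 1`). (c) Let `Q` be a finite set of primes,
`f` a sign function, `x < 2^N`: `Sm x (∏ p ∈ Q, ∑ j ∈ range N, (f p)^j • mo (p^j)) = Tf f (· ∈ Q) x`. Induction on `Q` for all such `x`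
(`Tf_add`: `Tf f (Q ∪ {p}) x = Tf f Q x + f p * Tf f (Q ∪ {p}) (x / p)`, iterated: `= ∑ j ∈ range N, (f p)^j * Tf f Q (x / p^j)` as `x < 2^N ≤ p^N`,
`Tf_zero`; and `Sm_mo_mul` on the other side). Use (c) with `Q = {pa i, pb i : n₀ ≤ i < J}`, `N = 2 * K`, `f = sgn ω` (`sgn_pa`, `sgn_pb`), and
`Tf_congr_le`: for a prime `p ≤ x ≤ J`: `p ∈ Q ↔ n₀ ≤ ix p` (`prime_cases`, `ix_pa`, `ix_pb`, `lt_pa` : `i < pa i ≤ x ≤ J`).
-/

set_option autoImplicit false

namespace Pool.Agent.Helper66.GL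

open Finset Pool.Agent.Helper92.GB Pool.Agent.Helper66.MB

/-- Partial geometric series of `c • p^{-s}`. -/
noncomputable def eu_geo (c : ℝ) (N p : ℕ) : DP := ∑ j ∈ range N, (c ^ j) • mo (p ^ j)

lemma eu_geo_mul (c : ℝ) (hc : c * c = 1) (K p : ℕ) :
    geo K (p ^ 2) * (1 + c • mo p) = eu_geo c (2 * K) p := by
  induction K with
  | zero => simp [geo, eu_geo]
  | succ K ih =>
    have h1 : geo (K + 1) (p ^ 2) = geo K (p ^ 2) + mo ((p ^ 2) ^ K) := by
      unfold geo; rw [sum_range_succ]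
    have h2 : eu_geo c (2 * (K + 1)) p =
        eu_geo c (2 * K) p + (c ^ (2 * K)) • mo (p ^ (2 * K)) +
          (c ^ (2 * K + 1)) • mo (p ^ (2 * K + 1)) := by
      unfold eu_geo
      rw [show 2 * (K + 1) = 2 * K + 1 + 1 by ring, sum_range_succ, sum_range_succ]
    have h3 : c ^ (2 * K) = 1 := by rw [pow_mul, sq, hc, one_pow]
    have h4 : c ^ (2 * K + 1) = c := by rw [pow_succ, h3, one_mul]
    have h5 : (p ^ 2) ^ K = p ^ (2 * K) := by rw [← pow_mul]
    rw [h1, add_mul, ih, h2, h3, h4, h5, one_smul, mul_add, mul_one, mul_smul_comm, mo_mul,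
      ← pow_succ, add_assoc]

lemma eu_factor (ω : ℕ → ℤˣ) (i : ℕ) :
    Sf ω i - Cf i = (1 + ((ω i : ℤ) : ℝ) • mo (pa i)) * (1 + (-((ω i : ℤ) : ℝ)) • mo (pb i)) := by
  have he : ((ω i : ℤ) : ℝ) * ((ω i : ℤ) : ℝ) = 1 := by
    rcases Int.units_eq_one_or (ω i) with h | h <;> simp [h]
  unfold Sf Cf dl
  rw [mul_add, mul_one, add_mul, one_mul, smul_mul_smul_comm, mul_neg, he, mo_mul, neg_smul,
    neg_smul, one_smul, smul_sub]
  abel

lemma eu_Tf_iter (f : ℕ → ℤ) (P : ℕ → Prop) {p : ℕ} (hp : p.Prime) (hP : ¬ P p) (N x : ℕ)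
    (hx : x < p ^ N) :
    Tf f (fun q => P q ∨ q = p) x = ∑ j ∈ range N, ((f p : ℤ) : ℝ) ^ j * Tf f P (x / p ^ j) := by
  induction N generalizing x with
  | zero =>
    have : x = 0 := by simpa using hx
    rw [this, Tf_zero, range_zero, sum_empty]
  | succ N ih =>
    have h1 : x / p < p ^ N := by
      rw [Nat.div_lt_iff_lt_mul hp.pos, ← pow_succ]; exact hx
    rw [Tf_add f P hp hP x, ih _ h1, sum_range_succ', mul_sum]
    rw [pow_zero, pow_zero, Nat.div_one, one_mul, add_comm]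
    congr 1
    refine sum_congr rfl fun j _ => ?_
    rw [Nat.div_div_eq_div_mul, ← pow_succ', pow_succ' ((f p : ℤ) : ℝ), mul_assoc]

lemma eu_Sm_geo (c : ℝ) (N p x : ℕ) (hp : 1 ≤ p) (F : DP) :
    Sm x (eu_geo c N p * F) = ∑ j ∈ range N, c ^ j * Sm (x / p ^ j) F := by
  unfold eu_geo
  rw [sum_mul, map_sum]
  refine sum_congr rfl fun j _ => ?_
  rw [smul_mul_assoc, map_smul, Sm_mo_mul (Nat.one_le_pow _ _ hp), smul_eq_mul]

lemma eu_main (f : ℕ → ℤ) (N : ℕ) (I : Finset ℕ) :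
    ∀ x : ℕ, x < 2 ^ N →
      Sm x (∏ i ∈ I, (eu_geo ((f (pa i) : ℤ) : ℝ) N (pa i) * eu_geo ((f (pb i) : ℤ) : ℝ) N (pb i))) =
        Tf f (fun p => ix p ∈ I) x := by
  classical
  induction I using Finset.induction_on with
  | empty =>
    intro x hx
    rw [prod_empty]
    rcases Nat.eq_zero_or_pos x with rfl | hx0
    · rw [Sm_zero_one, Tf_zero]
    · rw [Sm_one hx0]
      unfold Tf
      rw [sum_eq_single 1]
      · rw [cm_one]; simp
      · intro b hb hb1
        exfalso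
        simp only [mem_filter, mem_Icc] at hb
        have h1 : b ≠ 1 := hb1
        obtain ⟨p, hp, hpb⟩ := Nat.exists_prime_and_dvd h1
        have := hb.2 p (Nat.mem_primeFactors.2 ⟨hp, hpb, by omega⟩)
        simp at this
      · intro h
        exfalso
        apply h
        simp only [mem_filter, mem_Icc]
        refine ⟨⟨le_refl _, hx0⟩, ?_⟩
        intro p hp
        simp at hp
  | insert i s hi ih =>
    intro x hx
    have ha : 2 ≤ pa i := (pa_prime i).two_le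
    have hb : 2 ≤ pb i := (pb_prime i).two_le
    rw [prod_insert hi]
    have h1 : Tf f (fun p => ix p ∈ insert i s) x =
        Tf f (fun q => (ix q ∈ s ∨ q = pa i) ∨ q = pb i) x := by
      refine Tf_congr f (fun q hq => ?_) x
      rw [mem_insert]
      constructor
      · rintro (h | h)
        · obtain ⟨k, hk | hk⟩ := prime_cases hq
          · rw [hk, ix_pa] at h
            subst h
            exact Or.inl (Or.inr hk)
          · rw [hk, ix_pb] at h
            subst h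
            exact Or.inr hk
        · exact Or.inl (Or.inl h)
      · rintro ((h | h) | h)
        · exact Or.inr h
        · rw [h, ix_pa]; exact Or.inl rfl
        · rw [h, ix_pb]; exact Or.inl rfl
    have hPb : ¬ (ix (pb i) ∈ s ∨ pb i = pa i) := by
      rw [ix_pb]
      rintro (h | h)
      · exact hi h
      · exact pa_ne_pb i i h.symm
    have hPa : ¬ (ix (pa i) ∈ s) := by rw [ix_pa]; exact hi
    rw [h1, eu_Tf_iter f (fun q => ix q ∈ s ∨ q = pa i) (pb_prime i) hPb N x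
      (lt_of_lt_of_le hx (Nat.pow_le_pow_left hb N))]
    rw [mul_comm (eu_geo _ N (pa i)), mul_assoc, eu_Sm_geo _ _ _ _ (by omega)]
    refine sum_congr rfl fun j _ => ?_
    congr 1
    have hxj : x / pb i ^ j < 2 ^ N := lt_of_le_of_lt (Nat.div_le_self _ _) hx
    rw [eu_Tf_iter f (fun q => ix q ∈ s) (pa_prime i) hPa N _
      (lt_of_lt_of_le hxj (Nat.pow_le_pow_left ha N)), eu_Sm_geo _ _ _ _ (by omega)]
    refine sum_congr rfl fun l _ => ?_
    congr 1
    exact ih _ (lt_of_le_of_lt (Nat.div_le_self _ _) hxj)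

theorem euler (ω : ℕ → ℤˣ) (n₀ J K x : ℕ) (h : x ≤ J) (hK : x < 2 ^ K) :
    Tf (sgn ω) (fun p => n₀ ≤ ix p) x =
      Sm x ((∏ i ∈ Ico n₀ J, geo K (pa i ^ 2)) * bra ω K (Ico n₀ J)) := by
  have h1 : (∏ i ∈ Ico n₀ J, geo K (pa i ^ 2)) * bra ω K (Ico n₀ J) =
      ∏ i ∈ Ico n₀ J, (eu_geo ((sgn ω (pa i) : ℤ) : ℝ) (2 * K) (pa i) *
        eu_geo ((sgn ω (pb i) : ℤ) : ℝ) (2 * K) (pb i)) := by
    unfold bra
    rw [← prod_mul_distrib]
    refine prod_congr rfl fun i _ => ?_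
    have he : ((ω i : ℤ) : ℝ) * ((ω i : ℤ) : ℝ) = 1 := by
      rcases Int.units_eq_one_or (ω i) with h | h <;> simp [h]
    rw [sgn_pa, sgn_pb, Int.cast_neg, ← eu_geo_mul _ he, ← eu_geo_mul (-((ω i : ℤ) : ℝ))
      (by rw [neg_mul_neg]; exact he), eu_factor]
    ring
  rw [h1, eu_main (sgn ω) (2 * K) (Ico n₀ J) x
    (lt_of_lt_of_le hK (Nat.pow_le_pow_right (by norm_num) (by omega)))]
  refine Tf_congr_le (sgn ω) fun p hp hpx => ?_
  rw [mem_Ico]
  constructor
  · intro h2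
    refine ⟨h2, ?_⟩
    obtain ⟨k, hk | hk⟩ := prime_cases hp
    · rw [hk, ix_pa]
      have := lt_pa k
      omega
    · rw [hk, ix_pb]
      have := lt_pa k
      have := pa_lt_pb k
      omega
  · intro h2
    exact h2.1

end Pool.Agent.Helper66.GL
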