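import Pool.Agent.Helper66.GL.StarR
import Pool.Agent.Helper66.MB.Wx

/-!
# Block GL-N (MP_a499ba_nt, Q2)

A sum over the products of the numbers `(pb i)^2` and `pa i * pb i`.

Proof. Write `m = nn V V₁` (a positive integer), `L = log y`, `D = √L`. General identity: for `x, w : ℕ → ℝ`,
`∑_{V ⊆ I} ∑_{V₁ ⊆ V} (∏_{i ∈ V₁} x i) (∏_{i ∈ V ∖ V₁} w i) = ∏_{i ∈ I} (1 + (x i + w i))` (`Finset.prod_one_add`,
`Finset.prod_add`). In all terms of the sum `pb i ≤ y` for `i ∈ V` (as `m * (pb i)^2 ≤ y`), and `kr r _ ≤ 1`.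
(0) `∑ 1/√m` over the pairs `(V, V₁)` with `pb i ≤ y` for all `i ∈ V` is at most
`∏_{i : pb i ≤ y} (1 + 1/pb i + 1/√(pa i * pb i)) ≤ ∏_{p ≤ y} (1 + 2/p) ≤ C₁ (1+L)^B` (`1/pb i, 1/√(pa i * pb i) ≤ 1/pa i`,
the `pa i` are distinct primes `≤ y`; `MB.prod_prime 2`). For `L < 4` this suffices (`(1+L)^(B+r') ≤ 5^(B+r')`). Let `L ≥ 4`.
(1) Terms with `m ≤ y / e^D` (real numbers): the natural number `⌊y/m⌋` is at least `e^D / 2`, so
`1 + log ⌊y/m⌋ ≥ 1 + D - log 2 ≥ (1 + D) / 4` and, with `(1+D)^2 ≥ 1 + L` and `r = 2 (r' + B)`,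
`kr r (y/m) ≤ 4^r (1+L)^{-(r'+B)}`; with (0) these terms contribute at most `4^r C₁ √y (1+L)^{-r'}`.
(2) Terms with `m > y / e^D`: for `i ∈ V`, `(pb i)^2 ≤ y / m < e^D`, so `pb i < e^{D/2}`. With `η = 1/D`,
`1 ≤ (m e^D / y)^{η/2}`, `(e^D / y)^{η/2} = e^{1/2 - D/2}`, so `∑ 1/√m ≤ e^{1/2 - D/2} ∑ m^{-1/2 + η/2}` over the pairs with
`pb i < e^{D/2}`, `pb i ≤ y` for `i ∈ V`, which is at most `e^{1/2 - D/2} ∏ (1 + 2 e^{1/2} / pa i)
≤ e^{1/2 - D/2} ∏_{p ≤ y} (1 + 4/p) ≤ e^{1/2 - D/2} C₂ (1+L)^{B'}` (here `(pb i^2)^{-1/2+η/2} = (pb i)^{-1+η} ≤ e^{1/2}/pa i`, same for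
`pa i * pb i`; `prod_prime 4`), and `e^{-D/2} (1+L)^{B'+r'}` is bounded by `MB.Wx_exp`. See the proof of `MB.Wx_bound` for the same technique.
-/

set_option autoImplicit false

namespace Pool.Agent.Helper66.GL

open Finset Pool.Agent.Helper92.GB Pool.Agent.Helper66.MB

theorem rk_pair_sum (I : Finset ℕ) (x w : ℕ → ℝ) :
    ∑ V ∈ I.powerset, ∑ V₁ ∈ V.powerset, (∏ i ∈ V₁, x i) * ∏ i ∈ V \ V₁, w i =
      ∏ i ∈ I, (1 + (x i + w i)) := by
  rw [Finset.prod_one_add]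
  refine sum_congr rfl fun V _ => ?_
  rw [prod_add]

theorem rk_prod_pa (J y K : ℕ) (c : ℕ → ℝ) (h0 : ∀ i, 0 ≤ c i)
    (h1 : ∀ i, pb i ≤ y → c i ≤ K / pa i) (h2 : ∀ i, y < pb i → c i = 0) :
    ∏ i ∈ range J, (1 + c i) ≤ ∏ p ∈ (Icc 1 y).filter Nat.Prime, (1 + (K : ℝ) / p) := by
  classical
  have e1 : ∏ i ∈ range J, (1 + c i) = ∏ i ∈ (range J).filter (fun i => pb i ≤ y), (1 + c i) := by
    symm
    apply prod_filter_of_ne
    intro i _ hi
    by_contra h
    push Not at h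
    exact hi (by rw [h2 i h, add_zero])
  rw [e1]
  have e2 : ∏ i ∈ (range J).filter (fun i => pb i ≤ y), (1 + c i) ≤
      ∏ i ∈ (range J).filter (fun i => pb i ≤ y), (1 + (K : ℝ) / pa i) := by
    refine prod_le_prod (fun i _ => by have := h0 i; linarith) fun i hi => ?_
    have := h1 i (mem_filter.1 hi).2
    linarith
  refine e2.trans ?_
  rw [← prod_image (f := fun p : ℕ => 1 + (K : ℝ) / p) (g := pa)
    (fun a _ b _ h => pa_strictMono.injective h)]
  have hsub : ((range J).filter (fun i => pb i ≤ y)).image pa ⊆ (Icc 1 y).filter Nat.Prime := by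
    intro p hp
    obtain ⟨i, hi, rfl⟩ := mem_image.1 hp
    rw [mem_filter, mem_Icc]
    have h3 := pa_lt_pb i
    have h4 := (mem_filter.1 hi).2
    exact ⟨⟨(pa_prime i).pos, by omega⟩, pa_prime i⟩
  rw [← prod_sdiff hsub]
  have h3 : 1 ≤ ∏ p ∈ ((Icc 1 y).filter Nat.Prime) \
      ((range J).filter (fun i => pb i ≤ y)).image pa, (1 + (K : ℝ) / p) := by
    calc (1 : ℝ) = ∏ p ∈ ((Icc 1 y).filter Nat.Prime) \
          ((range J).filter (fun i => pb i ≤ y)).image pa, (1 : ℝ) := prod_const_one.symm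
      _ ≤ _ := prod_le_prod (fun _ _ => zero_le_one) fun p _ => by
          have : (0 : ℝ) ≤ (K : ℝ) / p := by positivity
          linarith
  refine le_mul_of_one_le_left (prod_nonneg fun p _ => ?_) h3
  positivity

theorem rk_nn_pos (V V₁ : Finset ℕ) : 0 < nn V V₁ := by
  unfold nn
  exact Nat.mul_pos (prod_pos fun i _ => pow_pos (pb_prime i).pos 2)
    (prod_pos fun i _ => Nat.mul_pos (pa_prime i).pos (pb_prime i).pos)

/-- powers of `nn` -/
theorem rk_nn_rpow (V V₁ : Finset ℕ) (s : ℝ) :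
    (nn V V₁ : ℝ) ^ s = (∏ i ∈ V₁, ((pb i : ℝ) ^ 2) ^ s) * ∏ i ∈ V \ V₁, ((pa i : ℝ) * pb i) ^ s := by
  unfold nn
  push_cast
  rw [Real.mul_rpow (prod_nonneg fun i _ => by positivity) (prod_nonneg fun i _ => by positivity),
    Real.finsetProd_rpow _ _ (fun i _ => by positivity),
    Real.finsetProd_rpow _ _ (fun i _ => by positivity)]

theorem rk_bnd (i : ℕ) (s E : ℝ) (hs : -1 / 2 ≤ s) (hE : (pb i : ℝ) ^ (2 * s + 1) ≤ E) :
    ((pb i : ℝ) ^ 2) ^ s ≤ E / pa i ∧ ((pa i : ℝ) * pb i) ^ s ≤ E / pa i := by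
  have ha : (0 : ℝ) < pa i := by exact_mod_cast (pa_prime i).pos
  have hb : (0 : ℝ) < pb i := by exact_mod_cast (pb_prime i).pos
  have hab : (pa i : ℝ) ≤ pb i := by exact_mod_cast (pa_lt_pb i).le
  have hE0 : 0 ≤ E := le_trans (by positivity) hE
  constructor
  · have e1 : ((pb i : ℝ) ^ 2) ^ s = (pb i : ℝ) ^ (2 * s + 1) / pb i := by
      rw [← Real.rpow_natCast, ← Real.rpow_mul hb.le, Real.rpow_add_one hb.ne']
      push_cast
      field_simp
    rw [e1]
    exact div_le_div₀ hE0 hE ha hab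
  · have e1 : ((pa i : ℝ) * pb i) ^ s =
        ((pa i : ℝ) * pb i) ^ (s + 1 / 2) * ((pa i : ℝ) * pb i) ^ (-(1 / 2) : ℝ) := by
      rw [← Real.rpow_add (by positivity)]
      congr 1
      ring
    have e2 : ((pa i : ℝ) * pb i) ^ (s + 1 / 2) ≤ E := by
      refine le_trans ?_ hE
      have : (pb i : ℝ) ^ (2 * s + 1) = ((pb i : ℝ) * pb i) ^ (s + 1 / 2) := by
        rw [← pow_two, ← Real.rpow_natCast, ← Real.rpow_mul hb.le]
        congr 1
        push_cast
        ring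
      rw [this]
      exact Real.rpow_le_rpow (by positivity) (by nlinarith) (by linarith)
    have e3 : ((pa i : ℝ) * pb i) ^ (-(1 / 2) : ℝ) ≤ 1 / pa i := by
      have : (1 : ℝ) / pa i = ((pa i : ℝ) * pa i) ^ (-(1 / 2) : ℝ) := by
        rw [← pow_two, ← Real.rpow_natCast, ← Real.rpow_mul ha.le]
        norm_num
        rw [Real.rpow_neg_one]
      rw [this]
      exact Real.rpow_le_rpow_of_nonpos (by positivity) (by nlinarith) (by norm_num)
    rw [e1]
    calc _ ≤ E * (1 / pa i) := mul_le_mul e2 e3 (by positivity) hE0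
      _ = E / pa i := by ring

open Classical in
/-- The power of exponent `s` of `nn V V₁`, if all indices satisfy `P`. -/
noncomputable def rkT (P : ℕ → Prop) (s : ℝ) (V V₁ : Finset ℕ) : ℝ :=
  (∏ i ∈ V₁, (if P i then ((pb i : ℝ) ^ 2) ^ s else 0)) *
    ∏ i ∈ V \ V₁, (if P i then ((pa i : ℝ) * pb i) ^ s else 0)

/-- the Euler product with exponent `s` -/
theorem rk_euler (J y E : ℕ) (s : ℝ) (hs : -1 / 2 ≤ s) (P : ℕ → Prop)
    (hP : ∀ i, P i → pb i ≤ y ∧ (pb i : ℝ) ^ (2 * s + 1) ≤ E) :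
    ∑ V ∈ (range J).powerset, ∑ V₁ ∈ V.powerset, rkT P s V V₁ ≤
      ∏ p ∈ (Icc 1 y).filter Nat.Prime, (1 + ((2 * E : ℕ) : ℝ) / p) := by
  unfold rkT
  rw [rk_pair_sum]
  refine rk_prod_pa J y (2 * E) _ (fun i => ?_) (fun i hi => ?_) (fun i hi => ?_)
  · by_cases h : P i
    · simp only [h, if_true]
      positivity
    · simp [h]
  · by_cases h : P i
    · simp only [h, if_true]
      obtain ⟨h1, h2⟩ := rk_bnd i s E hs (hP i h).2
      have : ((2 * E : ℕ) : ℝ) / pa i = E / pa i + E / pa i := by push_cast; ring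
      linarith
    · simp only [h, if_false, add_zero]
      positivity
  · have h : ¬ P i := fun h => absurd (hP i h).1 (by omega)
    simp [h]

/-- a term of the Euler product -/
theorem rk_term (V V₁ : Finset ℕ) (hV : V₁ ⊆ V) (s : ℝ) (P : ℕ → Prop) (hP : ∀ i ∈ V, P i) :
    rkT P s V V₁ = (nn V V₁ : ℝ) ^ s := by
  rw [rk_nn_rpow, rkT]
  congr 1
  · exact prod_congr rfl fun i hi => if_pos (hP i (hV hi))
  · exact prod_congr rfl fun i hi => if_pos (hP i (mem_sdiff.1 hi).1)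

theorem rk_term_nonneg (V V₁ : Finset ℕ) (s : ℝ) (P : ℕ → Prop) : 0 ≤ rkT P s V V₁ := by
  unfold rkT
  refine mul_nonneg (prod_nonneg fun i _ => ?_) (prod_nonneg fun i _ => ?_) <;>
  · split_ifs
    · positivity
    · exact le_rfl

/-- the gain for `m ≤ y / exp D` -/
theorem rk_kr (n y m : ℕ) (D : ℝ) (hm : 0 < m) (hD : 2 ≤ D)
    (h : (m : ℝ) * Real.exp D ≤ y) :
    kr (2 * n) (y / m) ≤ 4 ^ (2 * n) * ((1 + D ^ 2) ^ n)⁻¹ := by
  have hm' : (0 : ℝ) < m := by exact_mod_cast hm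
  have hle : m ≤ y := by
    have h1 : (1 : ℝ) ≤ Real.exp D := Real.one_le_exp (by linarith)
    have h2 : (m : ℝ) ≤ y := le_trans (by nlinarith) h
    exact_mod_cast h2
  have hq : 1 ≤ y / m := (Nat.one_le_div_iff hm).2 hle
  have hq' : (1 : ℝ) ≤ ((y / m : ℕ) : ℝ) := by exact_mod_cast hq
  have h3 : (y : ℝ) < m * (((y / m : ℕ) : ℝ) + 1) := by
    have := Nat.lt_mul_div_succ y hm
    exact_mod_cast this
  have h4 : Real.exp D ≤ 2 * ((y / m : ℕ) : ℝ) := by
    have h5 : (m : ℝ) * Real.exp D < m * (((y / m : ℕ) : ℝ) + 1) := lt_of_le_of_lt h h3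
    have h6 := lt_of_mul_lt_mul_left h5 hm'.le
    linarith
  have h7 : D ≤ Real.log 2 + Real.log ((y / m : ℕ) : ℝ) := by
    rw [← Real.log_mul (by norm_num) (by linarith), ← Real.log_exp D]
    exact Real.log_le_log (Real.exp_pos _) h4
  have hl2 : Real.log 2 < 0.6931471808 := Real.log_two_lt_d9
  have h8 : (1 + D) / 4 ≤ 1 + Real.log ((y / m : ℕ) : ℝ) := by linarith
  have h9 : (1 + D ^ 2) ^ n ≤ 4 ^ (2 * n) * (1 + Real.log ((y / m : ℕ) : ℝ)) ^ (2 * n) := by
    rw [← mul_pow]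
    have h10 : 1 + D ≤ 4 * (1 + Real.log ((y / m : ℕ) : ℝ)) := by linarith
    calc (1 + D ^ 2) ^ n ≤ ((1 + D) ^ 2) ^ n := pow_le_pow_left₀ (by positivity) (by nlinarith) n
      _ = (1 + D) ^ (2 * n) := by rw [pow_mul]
      _ ≤ _ := pow_le_pow_left₀ (by linarith) h10 _
  unfold kr
  have hpos : 0 < 1 + Real.log ((y / m : ℕ) : ℝ) := by linarith
  rw [← div_eq_mul_inv, ← one_div, div_le_div_iff₀ (by positivity) (by positivity)]
  linarith

theorem rankin (r' : ℕ) : ∃ (C : ℝ) (r : ℕ), 0 < C ∧ ∀ J y : ℕ, 1 ≤ y →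
    ∑ V ∈ (range J).powerset, ∑ V₁ ∈ V.powerset,
      (if nn V V₁ ≤ y ∧ ∀ i ∈ V, nn V V₁ * pb i ^ 2 ≤ y then
        Real.sqrt y / Real.sqrt (nn V V₁) * kr r (y / nn V V₁) else 0)
      ≤ C * Real.sqrt y * kr r' y := by
  classical
  obtain ⟨C1, B1, hC1, h1⟩ := prod_prime 2
  obtain ⟨C2, B2, hC2, h2⟩ := prod_prime 4
  set r : ℕ := 2 * (r' + B1) with hr
  set D1 : ℝ := C1 * 5 ^ B1 * 5 ^ r' with hD1
  set D2 : ℝ := 4 ^ r * C1 with hD2
  set D3 : ℝ := 2 * C2 * (8 ^ (r' + B2) * ((2 * (r' + B2)).factorial : ℝ)) with hD3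
  have hD10 : 0 < D1 := by positivity
  have hD20 : 0 < D2 := by positivity
  have hD30 : 0 < D3 := by positivity
  refine ⟨D1 + D2 + D3, r, by positivity, fun J y hy => ?_⟩
  have hy0 : (0 : ℝ) < y := by exact_mod_cast hy
  have hy1 : (1 : ℝ) ≤ y := by exact_mod_cast hy
  set L := Real.log y with hL
  have hL0 : 0 ≤ L := Real.log_nonneg hy1
  have hLy : Real.exp L = y := Real.exp_log hy0
  have hkr : kr r' y = ((1 + L) ^ r')⁻¹ := rfl
  have hkr0 := kr_pos r' y
  -- the condition implies `pb i ≤ y`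
  have hcond : ∀ V V₁ : Finset ℕ, (nn V V₁ ≤ y ∧ ∀ i ∈ V, nn V V₁ * pb i ^ 2 ≤ y) →
      ∀ i ∈ V, pb i ≤ y := by
    intro V V₁ h i hi
    have e1 := h.2 i hi
    have e2 := rk_nn_pos V V₁
    have e3 := (pb_prime i).pos
    calc pb i ≤ pb i ^ 2 := Nat.le_self_pow (by norm_num) _
      _ ≤ nn V V₁ * pb i ^ 2 := Nat.le_mul_of_pos_left _ e2
      _ ≤ y := e1
  -- the first Euler product
  have hE1 := rk_euler J y 1 (-1 / 2) (le_refl _) (fun i => pb i ≤ y)
    (fun i hi => ⟨hi, by norm_num⟩)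
  have hE1' := hE1.trans (h1 y hy)
  have hsq : ∀ V V₁ : Finset ℕ, (1 : ℝ) / Real.sqrt (nn V V₁) = (nn V V₁ : ℝ) ^ (-1 / 2 : ℝ) := by
    intro V V₁
    have e2 : (0 : ℝ) < nn V V₁ := by exact_mod_cast rk_nn_pos V V₁
    rw [Real.sqrt_eq_rpow, one_div, ← Real.rpow_neg e2.le]
    congr 1
    norm_num
  set X : Finset ℕ → Finset ℕ → ℝ := rkT (fun i => pb i ≤ y) (-1 / 2) with hX
  have hX0 : ∀ V V₁, 0 ≤ X V V₁ := fun V V₁ => rk_term_nonneg V V₁ (-1 / 2) (fun i => pb i ≤ y)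
  have hXt : ∀ V V₁ : Finset ℕ, V₁ ⊆ V →
      (nn V V₁ ≤ y ∧ ∀ i ∈ V, nn V V₁ * pb i ^ 2 ≤ y) → X V V₁ = (nn V V₁ : ℝ) ^ (-1 / 2 : ℝ) :=
    fun V V₁ hV h => rk_term V V₁ hV (-1 / 2) (fun i => pb i ≤ y) (hcond V V₁ h)
  by_cases hL4 : L < 4
  · have e1 : ∑ V ∈ (range J).powerset, ∑ V₁ ∈ V.powerset,
      (if nn V V₁ ≤ y ∧ ∀ i ∈ V, nn V V₁ * pb i ^ 2 ≤ y then
        Real.sqrt y / Real.sqrt (nn V V₁) * kr r (y / nn V V₁) else 0) ≤
        Real.sqrt y * ∑ V ∈ (range J).powerset, ∑ V₁ ∈ V.powerset, X V V₁ := by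
      rw [mul_sum]
      refine sum_le_sum fun V _ => ?_
      rw [mul_sum]
      refine sum_le_sum fun V₁ hV₁ => ?_
      rw [mem_powerset] at hV₁
      split_ifs with hc
      · rw [hXt V V₁ hV₁ hc, ← hsq]
        calc _ ≤ Real.sqrt y / Real.sqrt (nn V V₁) * 1 :=
              mul_le_mul_of_nonneg_left (kr_le_one _ _) (by positivity)
          _ = _ := by ring
      · exact mul_nonneg (Real.sqrt_nonneg _) (hX0 V V₁)
    have e2 : (1 + L) ^ B1 ≤ 5 ^ B1 := pow_le_pow_left₀ (by linarith) (by linarith) _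
    have e3 : (1 + L) ^ r' ≤ 5 ^ r' := pow_le_pow_left₀ (by linarith) (by linarith) _
    have e4 : 1 ≤ 5 ^ r' * kr r' y := by
      rw [hkr, ← div_eq_mul_inv, one_le_div (by positivity)]
      exact e3
    calc _ ≤ Real.sqrt y * (C1 * (1 + L) ^ B1) :=
          e1.trans (mul_le_mul_of_nonneg_left hE1' (Real.sqrt_nonneg _))
      _ ≤ Real.sqrt y * (C1 * 5 ^ B1) * (5 ^ r' * kr r' y) := by
          refine le_trans ?_ (le_mul_of_one_le_right (by positivity) e4)
          exact mul_le_mul_of_nonneg_left (mul_le_mul_of_nonneg_left e2 hC1.le)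
            (Real.sqrt_nonneg _)
      _ = D1 * Real.sqrt y * kr r' y := by rw [hD1]; ring
      _ ≤ (D1 + D2 + D3) * Real.sqrt y * kr r' y :=
          mul_le_mul_of_nonneg_right
            (mul_le_mul_of_nonneg_right (by linarith) (Real.sqrt_nonneg _)) hkr0.le
  · push Not at hL4
    set D := Real.sqrt L with hD
    have hD0 : 0 < D := Real.sqrt_pos.2 (by linarith)
    have hDD : D ^ 2 = L := Real.sq_sqrt (by linarith)
    have hD2' : 2 ≤ D := by
      rw [hD]; exact Real.le_sqrt_of_sq_le (by linarith)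
    set η : ℝ := 1 / D with hη
    have hη0 : 0 < η := by positivity
    have hηD : η * D = 1 := by rw [hη]; field_simp
    have hηL : η * L = D := by rw [← hDD, hη]; field_simp
    set s : ℝ := -1 / 2 + η / 2 with hs
    have hexp : Real.exp (1 / 2) ≤ 2 := by
      have e1 : Real.exp (1 / 2) * Real.exp (1 / 2) = Real.exp 1 := by
        rw [← Real.exp_add]; norm_num
      have e2 := Real.exp_one_lt_three
      have e3 := Real.exp_pos (1 / 2)
      nlinarith
    set P : ℕ → Prop := fun i => pb i ≤ y ∧ (pb i : ℝ) ≤ Real.exp (D / 2) with hPdef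
    have hE2 := rk_euler J y 2 s (by rw [hs]; linarith) P (fun i hi => ⟨hi.1, by
      have e0 : (0 : ℝ) ≤ pb i := by positivity
      have e1 : 2 * s + 1 = η := by rw [hs]; ring
      rw [e1]
      calc (pb i : ℝ) ^ η ≤ Real.exp (D / 2) ^ η := Real.rpow_le_rpow e0 hi.2 hη0.le
        _ = Real.exp (1 / 2) := by
            rw [← Real.exp_mul]
            congr 1
            linarith
        _ ≤ 2 := hexp
        _ = ((2 : ℕ) : ℝ) := by norm_num⟩)
    have hE2' := hE2.trans (h2 y hy)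
    set Y : Finset ℕ → Finset ℕ → ℝ := rkT P s with hY
    have hY0 : ∀ V V₁, 0 ≤ Y V V₁ := fun V V₁ => rk_term_nonneg V V₁ s P
    set G1 : ℝ := 4 ^ r * ((1 + L) ^ (r' + B1))⁻¹ with hG1
    set G2 : ℝ := 2 * Real.exp (-(D / 2)) with hG2
    have hG10 : 0 < G1 := by positivity
    have hG20 : 0 < G2 := by positivity
    have key : ∀ V V₁ : Finset ℕ, V₁ ⊆ V →
        (if nn V V₁ ≤ y ∧ ∀ i ∈ V, nn V V₁ * pb i ^ 2 ≤ y then
          Real.sqrt y / Real.sqrt (nn V V₁) * kr r (y / nn V V₁) else 0) ≤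
        Real.sqrt y * (G1 * X V V₁ + G2 * Y V V₁) := by
      intro V V₁ hV
      have hX0' := hX0 V V₁
      have hY0' := hY0 V V₁
      split_ifs with hc
      · have hm0 : 0 < nn V V₁ := rk_nn_pos V V₁
        have hm : (0 : ℝ) < nn V V₁ := by exact_mod_cast hm0
        have e1 : Real.sqrt y / Real.sqrt (nn V V₁) * kr r (y / nn V V₁) =
            Real.sqrt y * (kr r (y / nn V V₁) * (nn V V₁ : ℝ) ^ (-1 / 2 : ℝ)) := by
          rw [← hsq]; ring
        rw [e1]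
        refine mul_le_mul_of_nonneg_left ?_ (Real.sqrt_nonneg _)
        by_cases hcase : (nn V V₁ : ℝ) * Real.exp D ≤ y
        · rw [hXt V V₁ hV hc]
          have e2 := rk_kr (r' + B1) y (nn V V₁) D hm0 hD2' hcase
          rw [hDD] at e2
          have e3 : 0 ≤ G2 * Y V V₁ := by positivity
          have e4 : kr r (y / nn V V₁) * (nn V V₁ : ℝ) ^ (-1 / 2 : ℝ) ≤
              G1 * (nn V V₁ : ℝ) ^ (-1 / 2 : ℝ) := mul_le_mul_of_nonneg_right e2 (by positivity)
          linarith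
        · push Not at hcase
          have hP : ∀ i ∈ V, P i := by
            intro i hi
            refine ⟨hcond V V₁ hc i hi, ?_⟩
            have f1 : ((nn V V₁ * pb i ^ 2 : ℕ) : ℝ) ≤ y := by exact_mod_cast hc.2 i hi
            push_cast at f1
            have f2 : (nn V V₁ : ℝ) * (pb i : ℝ) ^ 2 < nn V V₁ * Real.exp D := lt_of_le_of_lt f1 hcase
            have f3 := lt_of_mul_lt_mul_left f2 hm.le
            have f4 : Real.exp D = Real.exp (D / 2) ^ 2 := by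
              rw [pow_two, ← Real.exp_add]; congr 1; ring
            rw [f4] at f3
            exact (lt_of_pow_lt_pow_left₀ 2 (Real.exp_pos _).le f3).le
          have hYt : Y V V₁ = (nn V V₁ : ℝ) ^ s := rk_term V V₁ hV s P hP
          have e3 : 0 ≤ G1 * X V V₁ := by positivity
          have e4 : (nn V V₁ : ℝ) ^ (-1 / 2 : ℝ) ≤ G2 * (nn V V₁ : ℝ) ^ s := by
            have f1 : (nn V V₁ : ℝ) ^ s = (nn V V₁ : ℝ) ^ (-1 / 2 : ℝ) * (nn V V₁ : ℝ) ^ (η / 2) := by
              rw [← Real.rpow_add hm]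
            have f2 : Real.exp ((L - D) * (η / 2)) ≤ (nn V V₁ : ℝ) ^ (η / 2) := by
              rw [Real.exp_mul]
              refine Real.rpow_le_rpow (Real.exp_pos _).le ?_ (by positivity)
              rw [Real.exp_sub, hLy, div_le_iff₀ (Real.exp_pos _)]
              exact hcase.le
            have f3 : (L - D) * (η / 2) = D / 2 - 1 / 2 := by
              have : (L - D) * (η / 2) = (η * L - η * D) / 2 := by ring
              rw [this, hηL, hηD]; ring
            rw [f3] at f2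
            have f4 : 1 ≤ G2 * (nn V V₁ : ℝ) ^ (η / 2) := by
              have g1 : 1 ≤ 2 * Real.exp (-(1 / 2)) := by
                have g2 : Real.exp (1 / 2) * Real.exp (-(1 / 2)) = 1 := by
                  rw [← Real.exp_add]; norm_num
                have g3 := Real.exp_pos (-(1 / 2) : ℝ)
                nlinarith
              calc (1 : ℝ) ≤ 2 * Real.exp (-(1 / 2)) := g1
                _ = 2 * Real.exp (-(D / 2)) * Real.exp (D / 2 - 1 / 2) := by
                    rw [mul_assoc, ← Real.exp_add]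
                    congr 2
                    ring
                _ ≤ G2 * (nn V V₁ : ℝ) ^ (η / 2) := mul_le_mul_of_nonneg_left f2 (by positivity)
            rw [f1]
            have f5 : 0 ≤ (nn V V₁ : ℝ) ^ (-1 / 2 : ℝ) := by positivity
            calc (nn V V₁ : ℝ) ^ (-1 / 2 : ℝ) = (nn V V₁ : ℝ) ^ (-1 / 2 : ℝ) * 1 := by ring
              _ ≤ (nn V V₁ : ℝ) ^ (-1 / 2 : ℝ) * (G2 * (nn V V₁ : ℝ) ^ (η / 2)) :=
                  mul_le_mul_of_nonneg_left f4 f5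
              _ = _ := by ring
          rw [hYt]
          have e5 : kr r (y / nn V V₁) * (nn V V₁ : ℝ) ^ (-1 / 2 : ℝ) ≤
              1 * (nn V V₁ : ℝ) ^ (-1 / 2 : ℝ) :=
            mul_le_mul_of_nonneg_right (kr_le_one _ _) (by positivity)
          linarith
      · have : 0 ≤ G1 * X V V₁ + G2 * Y V V₁ := by positivity
        exact mul_nonneg (Real.sqrt_nonneg _) this
    have tot : ∑ V ∈ (range J).powerset, ∑ V₁ ∈ V.powerset,
        (if nn V V₁ ≤ y ∧ ∀ i ∈ V, nn V V₁ * pb i ^ 2 ≤ y then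
          Real.sqrt y / Real.sqrt (nn V V₁) * kr r (y / nn V V₁) else 0) ≤
        Real.sqrt y * (G1 * ∑ V ∈ (range J).powerset, ∑ V₁ ∈ V.powerset, X V V₁ +
          G2 * ∑ V ∈ (range J).powerset, ∑ V₁ ∈ V.powerset, Y V V₁) := by
      refine (sum_le_sum fun V _ => sum_le_sum fun V₁ hV₁ => key V V₁ (mem_powerset.1 hV₁)).trans
        (le_of_eq ?_)
      simp only [mul_sum, mul_add, sum_add_distrib]
    have e1 : G1 * ∑ V ∈ (range J).powerset, ∑ V₁ ∈ V.powerset, X V V₁ ≤ D2 * kr r' y := by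
      calc _ ≤ G1 * (C1 * (1 + L) ^ B1) := mul_le_mul_of_nonneg_left hE1' hG10.le
        _ = D2 * kr r' y := by
            rw [hG1, hD2, hkr, pow_add]
            field_simp
    have e2 : G2 * ∑ V ∈ (range J).powerset, ∑ V₁ ∈ V.powerset, Y V V₁ ≤ D3 * kr r' y := by
      have f1 := Wx_exp (r' + B2) hL4
      calc _ ≤ G2 * (C2 * (1 + L) ^ B2) := mul_le_mul_of_nonneg_left hE2' hG20.le
        _ = 2 * C2 * Real.exp (-(D / 2)) * (1 + L) ^ (r' + B2) * kr r' y := by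
            rw [hG2, hkr, pow_add]
            field_simp
        _ ≤ 2 * C2 * Real.exp (-(D / 2)) *
              (8 ^ (r' + B2) * ((2 * (r' + B2)).factorial : ℝ) * Real.exp (D / 2)) * kr r' y :=
            mul_le_mul_of_nonneg_right (mul_le_mul_of_nonneg_left f1 (by positivity)) hkr0.le
        _ = D3 * (Real.exp (-(D / 2)) * Real.exp (D / 2)) * kr r' y := by rw [hD3]; ring
        _ = D3 * kr r' y := by rw [← Real.exp_add]; simp
    calc _ ≤ Real.sqrt y * (D2 * kr r' y + D3 * kr r' y) :=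
          tot.trans (mul_le_mul_of_nonneg_left (add_le_add e1 e2) (Real.sqrt_nonneg _))
      _ = (0 + D2 + D3) * Real.sqrt y * kr r' y := by ring
      _ ≤ (D1 + D2 + D3) * Real.sqrt y * kr r' y :=
          mul_le_mul_of_nonneg_right
            (mul_le_mul_of_nonneg_right (by linarith) (Real.sqrt_nonneg _)) hkr0.le

end Pool.Agent.Helper66.GL
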