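import Pool.Agent.Helper66.GL.Cross
import Pool.Agent.Helper66.GL.Rankin
import Pool.Agent.Helper66.MB.Short

/-!
# Block GL-P (MP_a499ba_nt, Q2)

The bound for `psi`, from `cross` and `rankin`.

Proof. `H u = Sm u (star ω (Ico n₀ J))`. Telescoping (induction on `J`, or `Finset.prod_add_ordered`):
`∏_{i ∈ Ico n₀ J} (1 + D i) = 1 + ∑_{k ∈ Ico n₀ J} D k * ∏_{i ∈ Ico n₀ k} (1 + D i)`, `D i = Bf i - Cf i`, and (`prod_one_add`, `prod_add`)
`∏_{i ∈ Ico n₀ k} (1 + (Bf i - Cf i)) = ∑_{V ⊆ Ico n₀ k} ∑_{V₁ ⊆ V} (-1)^{|V ∖ V₁|} • mo (nn V V₁)`. By `Sm_mo_mul` (with `z = y / nn V V₁`)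
`Sm y (D k * (mo (nn V V₁) * star)) = H (z / pb k ^ 2) - H (z / (pa k * pb k))`. So
`|Sm y psi| ≤ |H y| + ∑_k ∑_{V ⊆ Ico n₀ k} ∑_{V₁ ⊆ V} |H (z / (pa k * pb k)) - H (z / pb k ^ 2)|`. Interchange the sums
(`V ⊆ range J`, `k` with `V ⊆ Ico n₀ k`). If `nn V V₁ > y` or `nn V V₁ * pb i ^ 2 > y` for some `i ∈ V`, then all terms with
`V ⊆ Ico n₀ k` vanish (`z = 0`, resp. `pa k * pb k > pb i ^ 2` as `k > i`, so both arguments are `0`; `H 0 = 0` by `coeff_zero_star`).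
Otherwise the sum over `k` is at most `C K √z kr r z` by `cross` (`z ≤ y ≤ J`; the Lipschitz hypothesis is `star_trivial`), `√z ≤ √y / √(nn V V₁)`,
and the sum over `V, V₁` is estimated by `rankin`. The exponent of the hypothesis is `r + 1` with `r` from `rankin r'` (take `r ≥ r'`
for the term `|H y|`: `kr (r + 1) y ≤ kr r' y` needs `r + 1 ≥ r'`; if `rankin` gives a smaller `r` use `r + 1 + r'` as the exponent of the
hypothesis, `kr` is decreasing in the exponent).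
-/

set_option autoImplicit false

namespace Pool.Agent.Helper66.GL

open Finset Pool.Agent.Helper92.GB Pool.Agent.Helper66.MB

lemma kr_anti {a b : ℕ} (h : a ≤ b) (y : ℕ) : kr b y ≤ kr a y := by
  unfold kr
  have : 0 ≤ Real.log y := Real.log_natCast_nonneg y
  exact inv_anti₀ (by positivity) (pow_le_pow_right₀ (by linarith) h)

lemma prod_tele (D : ℕ → DP) (n₀ J : ℕ) :
    ∏ i ∈ Ico n₀ J, (1 + D i) = 1 + ∑ k ∈ Ico n₀ J, D k * ∏ i ∈ Ico n₀ k, (1 + D i) := by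
  induction J with
  | zero => simp
  | succ J ih =>
    rcases le_or_gt n₀ J with h | h
    · rw [prod_Ico_succ_top h, sum_Ico_succ_top h, ← add_assoc, ← ih]; ring
    · rw [Ico_eq_empty (by omega)]; simp

lemma prod_expand (I : Finset ℕ) :
    ∏ i ∈ I, (1 + (Bf i - Cf i)) =
      ∑ V ∈ I.powerset, ∑ V₁ ∈ V.powerset, ((-1 : ℝ) ^ (V \ V₁).card) • mo (nn V V₁) := by
  rw [prod_one_add]
  refine sum_congr rfl fun V _ => ?_
  simp_rw [sub_eq_add_neg]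
  rw [prod_add]
  refine sum_congr rfl fun V₁ _ => ?_
  have h1 : ∀ i ∈ V \ V₁, -Cf i = (-1 : ℝ) • mo (pa i * pb i) := fun i _ => by simp [Cf]
  have h2 : ∀ i ∈ V₁, Bf i = mo (pb i ^ 2) := fun i _ => rfl
  rw [prod_congr rfl h1, prod_congr rfl h2, prod_smul, prod_const, prod_mo, prod_mo, mul_smul_comm,
    mo_mul, nn]

lemma nn_pos (V V₁ : Finset ℕ) : 1 ≤ nn V V₁ := by
  unfold nn
  have h1 : 0 < ∏ i ∈ V₁, pb i ^ 2 := prod_pos fun i _ => by have := (pb_prime i).pos; positivity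
  have h2 : 0 < ∏ i ∈ V \ V₁, (pa i * pb i) := prod_pos fun i _ => by
    have := (pb_prime i).pos
    have := (pa_prime i).pos
    positivity
  exact Nat.mul_pos h1 h2

lemma Sm_term (y k m : ℕ) (hm : 1 ≤ m) (c : ℝ) (S : DP) :
    Sm y ((Bf k - Cf k) * (c • mo m) * S) =
      c * (Sm (y / m / pb k ^ 2) S - Sm (y / m / (pa k * pb k)) S) := by
  have e : (Bf k - Cf k) * (c • mo m) * S = c • (mo m * ((Bf k - Cf k) * S)) := by
    rw [mul_smul_comm, smul_mul_assoc]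
    congr 1
    ring
  have hb := (pb_prime k).pos
  have ha := (pa_prime k).pos
  have h1 : 1 ≤ pb k ^ 2 := Nat.succ_le_of_lt (by positivity)
  have h2 : 1 ≤ pa k * pb k := Nat.succ_le_of_lt (by positivity)
  rw [e, map_smul, Sm_mo_mul hm, sub_mul, map_sub, Bf, Cf, Sm_mo_mul h1, Sm_mo_mul h2, smul_eq_mul]

lemma Sm_psi (ω : ℕ → ℤˣ) (n₀ J y : ℕ) :
    Sm y (psi ω (Ico n₀ J)) = Sm y (star ω (Ico n₀ J)) +
      ∑ k ∈ Ico n₀ J, ∑ V ∈ (Ico n₀ k).powerset, ∑ V₁ ∈ V.powerset, (-1 : ℝ) ^ (V \ V₁).card *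
        (Sm (y / nn V V₁ / pb k ^ 2) (star ω (Ico n₀ J)) -
          Sm (y / nn V V₁ / (pa k * pb k)) (star ω (Ico n₀ J))) := by
  unfold psi
  rw [prod_tele, add_mul, one_mul, map_add, sum_mul, map_sum]
  congr 1
  refine sum_congr rfl fun k _ => ?_
  rw [prod_expand, mul_sum, sum_mul, map_sum]
  refine sum_congr rfl fun V _ => ?_
  rw [mul_sum, sum_mul, map_sum]
  refine sum_congr rfl fun V₁ _ => ?_
  rw [Sm_term y k _ (nn_pos V V₁)]

lemma abs_Sm_psi (ω : ℕ → ℤˣ) (n₀ J y : ℕ) :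
    |Sm y (psi ω (Ico n₀ J))| ≤ |Sm y (star ω (Ico n₀ J))| +
      ∑ k ∈ Ico n₀ J, ∑ V ∈ (Ico n₀ k).powerset, ∑ V₁ ∈ V.powerset,
        |Sm (y / nn V V₁ / (pa k * pb k)) (star ω (Ico n₀ J)) -
          Sm (y / nn V V₁ / pb k ^ 2) (star ω (Ico n₀ J))| := by
  rw [Sm_psi]
  refine (abs_add_le _ _).trans (add_le_add le_rfl ?_)
  refine (abs_sum_le_sum_abs _ _).trans (sum_le_sum fun k _ => ?_)
  refine (abs_sum_le_sum_abs _ _).trans (sum_le_sum fun V _ => ?_)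
  refine (abs_sum_le_sum_abs _ _).trans (sum_le_sum fun V₁ _ => ?_)
  rw [abs_mul, abs_pow, abs_neg, abs_one, one_pow, one_mul, abs_sub_comm]

lemma swap_sum (n₀ J : ℕ) (g : ℕ → Finset ℕ → Finset ℕ → ℝ) :
    ∑ k ∈ Ico n₀ J, ∑ V ∈ (Ico n₀ k).powerset, ∑ V₁ ∈ V.powerset, g k V V₁ =
      ∑ V ∈ (range J).powerset, ∑ V₁ ∈ V.powerset,
        ∑ k ∈ (Ico n₀ J).filter (fun k => V ⊆ Ico n₀ k), g k V V₁ := by
  classical
  have h1 : ∀ k ∈ Ico n₀ J, ∑ V ∈ (Ico n₀ k).powerset, ∑ V₁ ∈ V.powerset, g k V V₁ =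
      ∑ V ∈ (range J).powerset, if V ⊆ Ico n₀ k then ∑ V₁ ∈ V.powerset, g k V V₁ else 0 := by
    intro k hk
    rw [← sum_filter]
    refine sum_congr ?_ fun _ _ => rfl
    ext V
    simp only [mem_powerset, mem_filter]
    constructor
    · intro h
      refine ⟨fun i hi => ?_, h⟩
      have h2 := mem_Ico.1 (h hi)
      have h3 := mem_Ico.1 hk
      exact mem_range.2 (by omega)
    · exact fun h => h.2
  rw [sum_congr rfl h1, sum_comm]
  refine sum_congr rfl fun V _ => ?_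
  rw [← sum_filter, sum_comm]

lemma term_zero (H : ℕ → ℝ) (y n₀ k : ℕ) (V V₁ : Finset ℕ)
    (hV : V ⊆ Ico n₀ k)
    (hc : ¬ (nn V V₁ ≤ y ∧ ∀ i ∈ V, nn V V₁ * pb i ^ 2 ≤ y)) :
    |H (y / nn V V₁ / (pa k * pb k)) - H (y / nn V V₁ / pb k ^ 2)| = 0 := by
  have hnn := nn_pos V V₁
  by_cases h1 : nn V V₁ ≤ y
  · have h2 : ¬ ∀ i ∈ V, nn V V₁ * pb i ^ 2 ≤ y := fun h => hc ⟨h1, h⟩
    push Not at h2
    obtain ⟨i, hi, hlt⟩ := h2
    have hik := (mem_Ico.1 (hV hi)).2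
    have h3 : pb i < pa k := pb_lt_pa hik
    have h4 := pa_lt_pb k
    have h5 : y / nn V V₁ < pb i ^ 2 := by
      rw [Nat.div_lt_iff_lt_mul hnn, mul_comm]
      exact hlt
    have h6 : y / nn V V₁ / (pa k * pb k) = 0 := by
      apply Nat.div_eq_of_lt
      have : pb i ^ 2 ≤ pa k * pb k := by rw [sq]; exact Nat.mul_le_mul h3.le (h3.trans h4).le
      omega
    have h7 : y / nn V V₁ / pb k ^ 2 = 0 := by
      apply Nat.div_eq_of_lt
      have : pb i ^ 2 ≤ pb k ^ 2 := Nat.pow_le_pow_left (h3.trans h4).le 2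
      omega
    rw [h6, h7, sub_self, abs_zero]
  · have h2 : y / nn V V₁ = 0 := Nat.div_eq_of_lt (by omega)
    rw [h2, Nat.zero_div, Nat.zero_div, sub_self, abs_zero]

theorem psi_bound (r' : ℕ) : ∃ (C : ℝ) (r : ℕ), 0 < C ∧ ∀ (n₀ J : ℕ) (ω : ℕ → ℤˣ) (K : ℝ), 1 ≤ K →
    (∀ x : ℕ, 1 ≤ x → x ≤ J → |Sm x (star ω (Ico n₀ J))| ≤ K * Real.sqrt x * kr r x) →
    ∀ y : ℕ, 1 ≤ y → y ≤ J → |Sm y (psi ω (Ico n₀ J))| ≤ C * K * Real.sqrt y * kr r' y := by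
  classical
  obtain ⟨CR, rR, hCR, hR⟩ := rankin r'
  obtain ⟨CX, hCX, hX⟩ := cross rR
  refine ⟨1 + CX * CR, rR + 1 + r', by positivity, ?_⟩
  intro n₀ J ω K hK hyp y hy1 hyJ
  have hK0 : 0 ≤ K := by linarith
  refine (abs_Sm_psi ω n₀ J y).trans ?_
  rw [swap_sum n₀ J (fun k V V₁ => |Sm (y / nn V V₁ / (pa k * pb k)) (star ω (Ico n₀ J)) -
          Sm (y / nn V V₁ / pb k ^ 2) (star ω (Ico n₀ J))|)]
  set H : ℕ → ℝ := fun u => Sm u (star ω (Ico n₀ J)) with hHdef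
  have hH0 : H 0 = 0 := coeff_zero_star ω _
  have hLip : ∀ u v : ℕ, v ≤ u → |H u - H v| ≤ ((u - v : ℕ) : ℝ) := fun u v h =>
    star_trivial ω _ v u h
  have hHu : ∀ u : ℕ, 1 ≤ u → u ≤ J → |H u| ≤ K * Real.sqrt u * kr (rR + 1) u := by
    intro u h1 h2
    refine (hyp u h1 h2).trans ?_
    exact mul_le_mul_of_nonneg_left (kr_anti (by omega) u) (by positivity)
  have h1 : |H y| ≤ K * Real.sqrt y * kr r' y := by
    refine (hyp y hy1 hyJ).trans ?_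
    exact mul_le_mul_of_nonneg_left (kr_anti (by omega) y) (by positivity)
  have h2 : ∑ V ∈ (range J).powerset, ∑ V₁ ∈ V.powerset,
        ∑ k ∈ (Ico n₀ J).filter (fun k => V ⊆ Ico n₀ k),
          |H (y / nn V V₁ / (pa k * pb k)) - H (y / nn V V₁ / pb k ^ 2)| ≤
      ∑ V ∈ (range J).powerset, ∑ V₁ ∈ V.powerset, (CX * K) *
        (if nn V V₁ ≤ y ∧ ∀ i ∈ V, nn V V₁ * pb i ^ 2 ≤ y then
          Real.sqrt y / Real.sqrt (nn V V₁) * kr rR (y / nn V V₁) else 0) := by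
    refine sum_le_sum fun V _ => sum_le_sum fun V₁ _ => ?_
    have hnn := nn_pos V V₁
    split_ifs with hc
    · have hz1 : 1 ≤ y / nn V V₁ := (Nat.one_le_div_iff hnn).2 hc.1
      have hzy : y / nn V V₁ ≤ y := Nat.div_le_self _ _
      have h3 : ∑ k ∈ (Ico n₀ J).filter (fun k => V ⊆ Ico n₀ k),
          |H (y / nn V V₁ / (pa k * pb k)) - H (y / nn V V₁ / pb k ^ 2)| ≤
          ∑ k ∈ range J, |H (y / nn V V₁ / (pa k * pb k)) - H (y / nn V V₁ / pb k ^ 2)| := by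
        refine sum_le_sum_of_subset_of_nonneg ?_ fun _ _ _ => abs_nonneg _
        intro k hk
        have := (mem_Ico.1 (mem_filter.1 hk).1).2
        exact mem_range.2 this
      refine h3.trans ((hX H K (y / nn V V₁) J hK hz1 hH0
        (fun u hu1 hu2 => hHu u hu1 (by omega)) hLip).trans ?_)
      have h4 : Real.sqrt ((y / nn V V₁ : ℕ) : ℝ) ≤ Real.sqrt y / Real.sqrt (nn V V₁) := by
        rw [← Real.sqrt_div (Nat.cast_nonneg y)]
        exact Real.sqrt_le_sqrt Nat.cast_div_le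
      have h5 := (kr_pos rR (y / nn V V₁)).le
      calc CX * K * Real.sqrt ((y / nn V V₁ : ℕ) : ℝ) * kr rR (y / nn V V₁)
          ≤ CX * K * (Real.sqrt y / Real.sqrt (nn V V₁)) * kr rR (y / nn V V₁) := by gcongr
        _ = _ := by ring
    · rw [mul_zero]
      refine le_of_eq (sum_eq_zero fun k hk => ?_)
      exact term_zero H y n₀ k V V₁ (mem_filter.1 hk).2 hc
  have h3 := hR J y hy1
  have h4 : ∑ V ∈ (range J).powerset, ∑ V₁ ∈ V.powerset, (CX * K) *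
        (if nn V V₁ ≤ y ∧ ∀ i ∈ V, nn V V₁ * pb i ^ 2 ≤ y then
          Real.sqrt y / Real.sqrt (nn V V₁) * kr rR (y / nn V V₁) else 0) ≤
      (CX * K) * (CR * Real.sqrt y * kr r' y) := by
    simp_rw [← mul_sum]
    exact mul_le_mul_of_nonneg_left h3 (by positivity)
  have h5 := h2.trans h4
  calc |H y| + ∑ V ∈ (range J).powerset, ∑ V₁ ∈ V.powerset,
        ∑ k ∈ (Ico n₀ J).filter (fun k => V ⊆ Ico n₀ k),
          |H (y / nn V V₁ / (pa k * pb k)) - H (y / nn V V₁ / pb k ^ 2)|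
      ≤ K * Real.sqrt y * kr r' y + (CX * K) * (CR * Real.sqrt y * kr r' y) := add_le_add h1 h5
    _ = _ := by ring

end Pool.Agent.Helper66.GL
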