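import Pool.Agent.Helper66.GL.Alpha
import Pool.Agent.Helper66.MB.Sieve
import Pool.Agent.Helper66.MB.Rho

/-!
# Block GL-S (MP_a499ba_nt, Q2)

The sum over the squares. (`alpha` is not needed, only the set `Am x`.)

Proof. For `m ∈ Am x`, `x ≥ 1`: `√(x / (m*m)) ≤ √x / m`. Let `s = Nat.sqrt x` (`m ≤ s` for `m ∈ Am x`). Split according to the `j` with
`s / 2^(j+1) < m ≤ s / 2^j` (natural division, `j = 0, ..., s`; every `m` in `1 ≤ m ≤ s` is in exactly one such class, or at least one; only the `j` with `2^j ≤ s` occur).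
By `MB.sieve` the class `j` has at most `C z rho z` elements, `z = s / 2^j ≥ 1`; there `1/m ≤ 2/z`
(`m ≥ z/2`, since `m ≥ s / 2^(j+1) + 1`), and `x / (m*m) ≥ 4^j` as `m * 2^j ≤ s`, so `kr 3 (x / (m*m)) ≤ (1 + j log 4)^{-3} ≤ (1 + j)^{-3}`. So the sum is at most
`2 C √x ∑_j rho (s / 2^j) (1+j)^{-3}`, and `rho (s / 2^j) ≤ rho s * (1 + log (2 * 2^j)) ≤ rho s * 2 * (1 + j)` by `MB.rho_div`,
`rho s ≤ C' rho x` (`MB.rho_sqrt`), `∑_j (1+j)^{-2} ≤ 2`.
-/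

set_option autoImplicit false

namespace Pool.Agent.Helper66.GL

open Finset Pool.Agent.Helper92.GB Pool.Agent.Helper66.MB

private lemma h60_sum_sq (n : ℕ) : ∑ j ∈ range (n + 1), (((1 : ℝ) + (j : ℝ)) ^ 2)⁻¹ ≤ 2 - 1 / ((n : ℝ) + 1) := by
  induction n with
  | zero => norm_num
  | succ n ih =>
    rw [sum_range_succ]
    have hn : (0 : ℝ) ≤ n := Nat.cast_nonneg n
    have h1 : (((1 : ℝ) + ((n + 1 : ℕ) : ℝ)) ^ 2)⁻¹ ≤ 1 / ((n : ℝ) + 1) - 1 / (((n + 1 : ℕ) : ℝ) + 1) := by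
      push_cast
      rw [div_sub_div _ _ (by positivity) (by positivity), inv_eq_one_div,
        div_le_div_iff₀ (by positivity) (by positivity)]
      nlinarith
    linarith

private lemma h60_term {x m j : ℕ} (hm : 1 ≤ m) (hj1 : m * 2 ^ j ≤ Nat.sqrt x)
    (hj2 : Nat.sqrt x < 2 ^ (j + 1) * m) (hz : 1 ≤ Nat.sqrt x / 2 ^ j) :
    Real.sqrt ((x / (m * m) : ℕ) : ℝ) * kr 3 (x / (m * m)) ≤
      2 * Real.sqrt x / ((Nat.sqrt x / 2 ^ j : ℕ) : ℝ) * ((1 + (j : ℝ)) ^ 3)⁻¹ := by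
  have hm' : (1 : ℝ) ≤ m := by exact_mod_cast hm
  have hzr : (1 : ℝ) ≤ ((Nat.sqrt x / 2 ^ j : ℕ) : ℝ) := by exact_mod_cast hz
  have h4 : 4 ^ j ≤ x / (m * m) := by
    rw [Nat.le_div_iff_mul_le (by positivity)]
    calc 4 ^ j * (m * m) = (m * 2 ^ j) * (m * 2 ^ j) := by
          rw [show (4 : ℕ) = 2 * 2 by norm_num, mul_pow]; ring
      _ ≤ Nat.sqrt x * Nat.sqrt x := Nat.mul_le_mul hj1 hj1
      _ ≤ x := Nat.sqrt_le x
  have h4r : ((4 : ℝ)) ^ j ≤ ((x / (m * m) : ℕ) : ℝ) := by exact_mod_cast h4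
  have hlog : (j : ℝ) ≤ Real.log ((x / (m * m) : ℕ) : ℝ) := by
    have h5 : Real.log ((4 : ℝ) ^ j) ≤ Real.log ((x / (m * m) : ℕ) : ℝ) :=
      Real.log_le_log (by positivity) h4r
    rw [Real.log_pow] at h5
    have h6 : (1 : ℝ) ≤ Real.log 4 := by
      rw [show (4 : ℝ) = 2 ^ 2 by norm_num, Real.log_pow]
      have := Real.log_two_gt_d9
      push_cast
      linarith
    have h7 : (0 : ℝ) ≤ j := Nat.cast_nonneg j
    nlinarith
  have hkr : kr 3 (x / (m * m)) ≤ ((1 + (j : ℝ)) ^ 3)⁻¹ := by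
    unfold kr
    have h7 : (0 : ℝ) ≤ j := Nat.cast_nonneg j
    exact inv_anti₀ (by positivity) (pow_le_pow_left₀ (by positivity) (by linarith) 3)
  have hkr0 : 0 ≤ kr 3 (x / (m * m)) := by
    unfold kr
    have h7 : (0 : ℝ) ≤ j := Nat.cast_nonneg j
    have : 0 ≤ Real.log ((x / (m * m) : ℕ) : ℝ) := h7.trans hlog
    positivity
  have hsq : Real.sqrt ((x / (m * m) : ℕ) : ℝ) ≤ 2 * Real.sqrt x / ((Nat.sqrt x / 2 ^ j : ℕ) : ℝ) := by
    have h1 : Real.sqrt ((x / (m * m) : ℕ) : ℝ) ≤ Real.sqrt x / m := by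
      rw [Real.sqrt_le_left (by positivity), div_pow, Real.sq_sqrt (Nat.cast_nonneg x)]
      calc ((x / (m * m) : ℕ) : ℝ) ≤ (x : ℝ) / ((m * m : ℕ) : ℝ) := Nat.cast_div_le
        _ = (x : ℝ) / (m : ℝ) ^ 2 := by push_cast; ring
    refine h1.trans ?_
    rw [div_le_div_iff₀ (by positivity) (by positivity)]
    have h2 : ((Nat.sqrt x / 2 ^ j : ℕ) : ℝ) ≤ 2 * m := by
      have : Nat.sqrt x / 2 ^ j < 2 * m := by
        rw [Nat.div_lt_iff_lt_mul (by positivity)]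
        calc Nat.sqrt x < 2 ^ (j + 1) * m := hj2
          _ = 2 * m * 2 ^ j := by ring
      exact_mod_cast this.le
    have h3 : 0 ≤ Real.sqrt x := Real.sqrt_nonneg _
    calc Real.sqrt x * ((Nat.sqrt x / 2 ^ j : ℕ) : ℝ) ≤ Real.sqrt x * (2 * m) :=
          mul_le_mul_of_nonneg_left h2 h3
      _ = 2 * Real.sqrt x * m := by ring
  exact mul_le_mul hsq hkr hkr0 (by positivity)

theorem sumM : ∃ C : ℝ, 0 < C ∧ ∀ x : ℕ, 1 ≤ x →
    ∑ m ∈ Am x, Real.sqrt ((x / (m * m) : ℕ) : ℝ) * kr 3 (x / (m * m)) ≤ C * Real.sqrt x * rho x := by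
  classical
  obtain ⟨C₁, hC₁, hsv⟩ := MB.sieve
  obtain ⟨C₂, hC₂, hrs⟩ := rho_sqrt
  refine ⟨8 * C₁ * C₂, by positivity, fun x hx => ?_⟩
  set s := Nat.sqrt x with hs
  have hs1 : 1 ≤ s := Nat.le_sqrt.2 (by simpa using hx)
  have hx1 : (1 : ℝ) ≤ x := by exact_mod_cast hx
  have hsr : (1 : ℝ) ≤ s := by exact_mod_cast hs1
  have hrx : 0 < rho x := rho_pos hx1
  have hrs0 : 0 < rho s := rho_pos hsr
  have hsx : 0 ≤ Real.sqrt x := Real.sqrt_nonneg _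
  have hmem : ∀ m ∈ Am x, 1 ≤ m ∧ m ≤ s ∧ ∀ i, ¬ pb i ∣ m := by
    intro m hm
    rw [Am, mem_filter, mem_Icc] at hm
    exact ⟨hm.1.1, Nat.le_sqrt.2 hm.2.1, hm.2.2⟩
  have hmaps : ∀ m ∈ Am x, Nat.log 2 (s / m) ∈ range (Nat.log 2 s + 1) := by
    intro m hm
    rw [mem_range]
    exact Nat.lt_succ_of_le (Nat.log_mono_right (Nat.div_le_self s m))
  rw [← sum_fiberwise_of_maps_to hmaps]
  have hclass : ∀ j ∈ range (Nat.log 2 s + 1),
      ∑ m ∈ (Am x).filter (fun m => Nat.log 2 (s / m) = j),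
        Real.sqrt ((x / (m * m) : ℕ) : ℝ) * kr 3 (x / (m * m)) ≤
      4 * C₁ * C₂ * Real.sqrt x * rho x * (((1 : ℝ) + (j : ℝ)) ^ 2)⁻¹ := by
    intro j hj
    have hj0 : (0 : ℝ) ≤ j := Nat.cast_nonneg j
    have hjs : 2 ^ j ≤ s := by
      have h1 : j ≤ Nat.log 2 s := Nat.lt_succ_iff.1 (mem_range.1 hj)
      exact (Nat.pow_le_pow_right (by norm_num) h1).trans (Nat.pow_log_le_self 2 (by omega))
    have hz : 1 ≤ s / 2 ^ j := (Nat.one_le_div_iff (by positivity)).2 hjs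
    set z := s / 2 ^ j with hzd
    have hzr : (1 : ℝ) ≤ z := by exact_mod_cast hz
    have hin : ∀ m ∈ (Am x).filter (fun m => Nat.log 2 (s / m) = j),
        m * 2 ^ j ≤ s ∧ s < 2 ^ (j + 1) * m ∧ 1 ≤ m ∧ ∀ i, ¬ pb i ∣ m := by
      intro m hm
      rw [mem_filter] at hm
      obtain ⟨h1, h2, h3⟩ := hmem m hm.1
      have h4 : s / m ≠ 0 := by
        have := (Nat.one_le_div_iff (show 0 < m by omega)).2 h2
        omega
      have h5 : 2 ^ j ≤ s / m := by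
        rw [← hm.2]; exact Nat.pow_log_le_self 2 h4
      have h6 : s / m < 2 ^ (j + 1) := by
        rw [← hm.2]; exact Nat.lt_pow_succ_log_self (by norm_num) _
      refine ⟨?_, ?_, h1, h3⟩
      · rw [mul_comm]
        exact (Nat.le_div_iff_mul_le (by omega)).1 h5
      · exact (Nat.div_lt_iff_lt_mul (by omega)).1 h6
    have hcard : (((Am x).filter (fun m => Nat.log 2 (s / m) = j)).card : ℝ) ≤ C₁ * z * rho z := by
      refine le_trans ?_ (hsv z hz)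
      exact_mod_cast card_le_card fun m hm => by
        obtain ⟨h1, _, h3, h4⟩ := hin m hm
        rw [mem_filter, mem_Icc]
        exact ⟨⟨h3, (Nat.le_div_iff_mul_le (by positivity)).2 h1⟩, h4⟩
    have hterm : ∀ m ∈ (Am x).filter (fun m => Nat.log 2 (s / m) = j),
        Real.sqrt ((x / (m * m) : ℕ) : ℝ) * kr 3 (x / (m * m)) ≤
          2 * Real.sqrt x / (z : ℝ) * ((1 + (j : ℝ)) ^ 3)⁻¹ := by
      intro m hm
      obtain ⟨h1, h2, h3, _⟩ := hin m hm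
      exact h60_term h3 h1 h2 hz
    have hrz : rho z ≤ C₂ * rho x * (2 * (1 + j)) := by
      have h1 := rho_div (x := s) (m := 2 ^ j) Nat.one_le_two_pow hz
      have h2 : 1 + Real.log (2 * ((2 ^ j : ℕ) : ℝ)) ≤ 2 * (1 + j) := by
        push_cast
        rw [← pow_succ', Real.log_pow]
        have h3 := Real.log_two_lt_d9
        have h4 : (((j + 1 : ℕ) : ℝ)) * Real.log 2 ≤ ((j + 1 : ℕ) : ℝ) * 1 :=
          mul_le_mul_of_nonneg_left (by linarith) (by positivity)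
        push_cast at h4 ⊢
        linarith
      have h3 := hrs x hx
      calc rho z ≤ rho s * (1 + Real.log (2 * ((2 ^ j : ℕ) : ℝ))) := h1
        _ ≤ rho s * (2 * (1 + j)) := mul_le_mul_of_nonneg_left h2 hrs0.le
        _ ≤ C₂ * rho x * (2 * (1 + j)) := mul_le_mul_of_nonneg_right h3 (by positivity)
    calc ∑ m ∈ (Am x).filter (fun m => Nat.log 2 (s / m) = j),
          Real.sqrt ((x / (m * m) : ℕ) : ℝ) * kr 3 (x / (m * m))
        ≤ (((Am x).filter (fun m => Nat.log 2 (s / m) = j)).card : ℝ) *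
          (2 * Real.sqrt x / (z : ℝ) * ((1 + (j : ℝ)) ^ 3)⁻¹) := by
          rw [← nsmul_eq_mul]
          exact sum_le_card_nsmul _ _ _ hterm
      _ ≤ (C₁ * z * rho z) * (2 * Real.sqrt x / (z : ℝ) * ((1 + (j : ℝ)) ^ 3)⁻¹) :=
          mul_le_mul_of_nonneg_right hcard (by positivity)
      _ = 2 * C₁ * Real.sqrt x * ((1 + (j : ℝ)) ^ 3)⁻¹ * rho z := by
          field_simp
      _ ≤ 2 * C₁ * Real.sqrt x * ((1 + (j : ℝ)) ^ 3)⁻¹ * (C₂ * rho x * (2 * (1 + j))) :=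
          mul_le_mul_of_nonneg_left hrz (by positivity)
      _ = 4 * C₁ * C₂ * Real.sqrt x * rho x * (((1 : ℝ) + (j : ℝ)) ^ 2)⁻¹ := by
          field_simp
          ring
  refine (sum_le_sum hclass).trans ?_
  rw [← mul_sum]
  have h1 := h60_sum_sq (Nat.log 2 s)
  have h2 : 0 ≤ 1 / (((Nat.log 2 s : ℕ) : ℝ) + 1) := by positivity
  have h3 : 0 ≤ 4 * C₁ * C₂ * Real.sqrt x * rho x := by positivity
  calc 4 * C₁ * C₂ * Real.sqrt x * rho x * ∑ j ∈ range (Nat.log 2 s + 1), (((1 : ℝ) + (j : ℝ)) ^ 2)⁻¹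
      ≤ 4 * C₁ * C₂ * Real.sqrt x * rho x * 2 := mul_le_mul_of_nonneg_left (by linarith) h3
    _ = 8 * C₁ * C₂ * Real.sqrt x * rho x := by ring

end Pool.Agent.Helper66.GL
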