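import Pool.Agent.Helper66.GL.ExistR
import Pool.Agent.Helper66.GL.PsiB
import Pool.Agent.Helper66.GL.Brack
import Pool.Agent.Helper66.GL.SumM
import Pool.Agent.Helper66.GL.Euler
import Pool.Agent.Helper66.GL.AddP
import Pool.Agent.Helper66.MB.PSS

/-!
# The base function (MP_a499ba_nt, Q2)

There is a sign function on the primes (opposite signs at the two primes of every pair) with square root cancellation in
the twisted prime sums whose completely multiplicative extension has summatory function `O(√x ρ(x))`.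
-/

set_option autoImplicit false

namespace Pool.Agent.Helper66.GL

open Finset Pool.Agent.Helper92.GB Pool.Agent.Helper66.MB

theorem baseL : ∃ ω : ℕ → ℤˣ, PS (sgn ω) ∧ ClL (sgn ω) := by
  obtain ⟨C₁, r, hC₁, hpsi⟩ := psi_bound 3
  obtain ⟨C₂, n₁, hC₂, hbr⟩ := bracket 3
  obtain ⟨C₃, hC₃, hsum⟩ := sumM
  obtain ⟨ω, A, k₁, hk₁, h⟩ := exists_signs_r r n₁
  obtain ⟨C, hC, hst⟩ := star_bound_r r n₁ k₁ hk₁ ω fun k hk => (h k hk).2
  refine ⟨ω, PS_of_HH A k₁ ω fun k hk => (h k hk).1, ?_⟩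
  refine add_primes (sgn ω) (sgn_mem ω) n₁ ⟨C₂ * (C₁ * C) * C₃, fun x hx => ?_⟩
  rw [euler ω n₁ x x x le_rfl Nat.lt_two_pow_self]
  refine (alpha x x _ _ (Sm_zero_bra ω x _)).trans ?_
  have h1 : ∀ y : ℕ, 1 ≤ y → y ≤ x → |Sm y (star ω (Ico n₁ x))| ≤ C * Real.sqrt y * kr r y := by
    intro y hy hyx
    rw [Sm_star_Ico ω n₁ y x hyx]
    exact hst y hy
  have h2 := hpsi n₁ x ω C hC h1
  have h3 := hbr n₁ x x x ω (C₁ * C) le_rfl Nat.lt_two_pow_self (by positivity) h2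
  have h4 : ∀ m ∈ Am x, |Sm (x / (m * m)) (bra ω x (Ico n₁ x))| ≤
      C₂ * (C₁ * C) * (Real.sqrt ((x / (m * m) : ℕ) : ℝ) * kr 3 (x / (m * m))) := by
    intro m hm
    have hm' : m ∈ Icc 1 x ∧ (m * m ≤ x ∧ ∀ i, ¬ pb i ∣ m) := by
      classical
      unfold Am at hm
      rwa [mem_filter] at hm
    have hm1 : 1 ≤ m := (mem_Icc.1 hm'.1).1
    have hmm : 0 < m * m := Nat.mul_pos hm1 hm1
    refine (h3 (x / (m * m)) ?_ (Nat.div_le_self _ _)).trans (le_of_eq (by ring))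
    rw [Nat.le_div_iff_mul_le hmm, one_mul]
    exact hm'.2.1
  refine (sum_le_sum h4).trans ?_
  rw [← mul_sum]
  have h5 := mul_le_mul_of_nonneg_left (hsum x hx) (show 0 ≤ C₂ * (C₁ * C) by positivity)
  refine h5.trans (le_of_eq (by ring))

end Pool.Agent.Helper66.GL
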