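import Pool.Agent.Helper66.GL.Defs

/-!
# Block GL-M (MP_a499ba_nt, Q2)

The squares of the primes `pa i`.

Proof. By induction on `I`: there is a finite set `A` of positive integers all of whose prime factors are among the `pa i`, `i ∈ I`,
such that `∏ i ∈ I, geo K (pa i ^ 2) = ∑ m ∈ A, mo (m ^ 2)`. (Step: `A' = {(pa i)^j * m : j < K, m ∈ A}`; the pairs `(j, m)` give
different products because `pa i` does not divide `m`.) Then `Sm x (mo (m^2) * Y) = Sm (x / m^2) Y` (`Sm_mo_mul`), which is `Sm 0 Y = 0` for `m^2 > x`, and a prime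
factor of `m ∈ A` is never a `pb j` (`pa_ne_pb`), so the remaining `m` are in the set on the right side.
-/

set_option autoImplicit false

namespace Pool.Agent.Helper66.GL

open Finset Pool.Agent.Helper92.GB Pool.Agent.Helper66.MB

open Classical in
/-- The integers `m` with `m * m ≤ x` and no prime factor `pb i`. -/
noncomputable def Am (x : ℕ) : Finset ℕ := (Icc 1 x).filter (fun m => m * m ≤ x ∧ ∀ i, ¬ pb i ∣ m)

private lemma pow_mul_inj16 {p : ℕ} (hp : p.Prime) {j j' m m' : ℕ} (hm : 1 ≤ m) (hm' : 1 ≤ m')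
    (h : ¬ p ∣ m) (h' : ¬ p ∣ m') (he : p ^ j * m = p ^ j' * m') : j = j' ∧ m = m' := by
  have h1 : ∀ a b : ℕ, 1 ≤ b → ¬ p ∣ b → (p ^ a * b).factorization p = a := by
    intro a b hb hpb
    rw [Nat.factorization_mul (pow_ne_zero _ hp.ne_zero) (by omega), Finsupp.add_apply,
      hp.factorization_pow, Finsupp.single_eq_same, Nat.factorization_eq_zero_of_not_dvd hpb,
      add_zero]
  have h2 : j = j' := by
    rw [← h1 j m hm h, ← h1 j' m' hm' h', he]
  subst h2
  exact ⟨rfl, Nat.eq_of_mul_eq_mul_left (pow_pos hp.pos _) he⟩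

private lemma geo_prod16 (K : ℕ) (I : Finset ℕ) : ∃ A : Finset ℕ,
    (∀ m ∈ A, 1 ≤ m ∧ ∀ p, p.Prime → p ∣ m → ∃ i ∈ I, p = pa i) ∧
      ∏ i ∈ I, geo K (pa i ^ 2) = ∑ m ∈ A, mo (m ^ 2) := by
  classical
  induction I using Finset.induction_on with
  | empty =>
    refine ⟨{1}, ?_, ?_⟩
    · intro m hm
      rw [mem_singleton] at hm
      subst hm
      refine ⟨le_rfl, fun p hp hd => ?_⟩
      exact absurd (Nat.dvd_one.1 hd) hp.ne_one
    · rw [prod_empty, sum_singleton, one_pow, mo_one]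
  | insert i I hi ih =>
    obtain ⟨A, hA, he⟩ := ih
    have hnd : ∀ m ∈ A, ¬ pa i ∣ m := by
      intro m hm hd
      obtain ⟨k, hk, hk'⟩ := (hA m hm).2 _ (pa_prime i) hd
      have : i = k := pa_strictMono.injective hk'
      exact hi (this ▸ hk)
    refine ⟨(range K ×ˢ A).image (fun q => pa i ^ q.1 * q.2), ?_, ?_⟩
    · intro m hm
      obtain ⟨⟨j, a⟩, hq, rfl⟩ := mem_image.1 hm
      have ha : a ∈ A := (mem_product.1 hq).2
      refine ⟨Nat.mul_pos (pow_pos (pa_prime i).pos _) (hA a ha).1, fun p hp hd => ?_⟩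
      rcases (hp.dvd_mul).1 hd with h1 | h1
      · have h2 := hp.dvd_of_dvd_pow h1
        exact ⟨i, mem_insert_self _ _, (Nat.prime_dvd_prime_iff_eq hp (pa_prime i)).1 h2⟩
      · obtain ⟨k, hk, hk'⟩ := (hA a ha).2 p hp h1
        exact ⟨k, mem_insert_of_mem hk, hk'⟩
    · rw [prod_insert hi, he, sum_image, geo, sum_mul_sum, sum_product]
      · refine sum_congr rfl fun j _ => sum_congr rfl fun m _ => ?_
        rw [mo_mul]
        congr 1
        ring
      · rintro ⟨j, m⟩ hq ⟨j', m'⟩ hq' heq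
        have hm : m ∈ A := (mem_product.1 (mem_coe.1 hq)).2
        have hm' : m' ∈ A := (mem_product.1 (mem_coe.1 hq')).2
        obtain ⟨h1, h2⟩ := pow_mul_inj16 (pa_prime i) (hA m hm).1 (hA m' hm').1 (hnd m hm)
          (hnd m' hm') heq
        exact Prod.ext h1 h2

theorem alpha (K x : ℕ) (I : Finset ℕ) (Y : DP) (hY : Sm 0 Y = 0) :
    |Sm x ((∏ i ∈ I, geo K (pa i ^ 2)) * Y)| ≤ ∑ m ∈ Am x, |Sm (x / (m * m)) Y| := by
  classical
  obtain ⟨A, hA, he⟩ := geo_prod16 K I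
  rw [he, sum_mul, map_sum]
  refine (abs_sum_le_sum_abs _ _).trans ?_
  have h1 : ∀ m ∈ A, Sm x (mo (m ^ 2) * Y) = Sm (x / (m * m)) Y := by
    intro m hm
    rw [Sm_mo_mul (Nat.one_le_pow _ _ (hA m hm).1), pow_two]
  rw [sum_congr rfl (fun m hm => by rw [h1 m hm])]
  have h2 : ∑ m ∈ A, |Sm (x / (m * m)) Y| =
      ∑ m ∈ A.filter (fun m => m * m ≤ x), |Sm (x / (m * m)) Y| := by
    rw [sum_filter]
    refine sum_congr rfl fun m _ => ?_
    split_ifs with h
    · rfl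
    · rw [Nat.div_eq_of_lt (not_le.1 h), hY, abs_zero]
  rw [h2]
  refine sum_le_sum_of_subset_of_nonneg ?_ (fun _ _ _ => abs_nonneg _)
  intro m hm
  obtain ⟨hm1, hm2⟩ := mem_filter.1 hm
  refine mem_filter.2 ⟨mem_Icc.2 ⟨(hA m hm1).1, le_trans ?_ hm2⟩, hm2, fun i hd => ?_⟩
  · exact Nat.le_mul_of_pos_left _ (hA m hm1).1
  · obtain ⟨k, _, hk⟩ := (hA m hm1).2 _ (pb_prime i) hd
    exact pa_ne_pb k i hk.symm

end Pool.Agent.Helper66.GL
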