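import Pool.Agent.Helper66.GL.CmB

/-!
# Block GL-K (MP_a499ba_nt, Q2)

The twisted sums of `cm f` from those of `ext f`. (`CmB` is proved.)

Proof. Every `n ≥ 1` is `m^2 k` with unique `m ≥ 1` and squarefree `k` (`Nat.sq_mul_squarefree`), and `cm f n = cm f k = ext f k` (`cm_mul`, `cm_sq`, `cm_squarefree`);
`ext f k = 0` if `k` is not squarefree. So `∑_{n ≤ N} cm f n χ(n) n^{it} = ∑_{m^2 ≤ N} χ(m)^2 (npi m t)^2 ∑_{k ≤ N / m^2} ext f k χ(k) npi k t`. Each inner sum is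
`tw (ext f) χ t (N / m^2)`, at most `C (q (1+|t|) N)^{ε/2} √(N / m^2)` in absolute value by the hypothesis with `ε/2`, `√(N/m^2) ≤ √N / m`, and
`∑_{m ≤ √N} 1/m ≤ 1 + log N ≤ C_ε N^{ε/2}`. (`|χ| ≤ 1`, `|npi m t| = 1`, `npi (a*b) t = npi a t * npi b t` : `Complex.natCast_mul_natCast_cpow`.)
-/

set_option autoImplicit false

namespace Pool.Agent.Helper66.GL

open Finset Pool.Agent.Helper92.GB Pool.Agent.Helper66.MB

theorem sq_uniq67 {m k m' k' : ℕ} (hm : m ≠ 0) (hm' : m' ≠ 0) (hk : Squarefree k) (hk' : Squarefree k')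
    (h : m ^ 2 * k = m' ^ 2 * k') : m = m' := by
  refine Nat.eq_of_factorization_eq hm hm' fun p => ?_
  have h1 := congrArg (fun n => n.factorization p) h
  simp only [Nat.factorization_mul (pow_ne_zero 2 hm) hk.ne_zero,
    Nat.factorization_mul (pow_ne_zero 2 hm') hk'.ne_zero, Nat.factorization_pow,
    Finsupp.add_apply, Finsupp.smul_apply, smul_eq_mul] at h1
  have h2 := hk.natFactorization_le_one p
  have h3 := hk'.natFactorization_le_one p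
  omega

theorem norm_npi67 (n : ℕ) (t : ℝ) : ‖npi n t‖ ≤ 1 := by
  unfold npi
  rcases Nat.eq_zero_or_pos n with rfl | hn
  · by_cases ht : t = 0
    · subst ht
      simp
    · rw [Nat.cast_zero, Complex.zero_cpow]
      · simp
      · simp [ht]
  · rw [Complex.norm_natCast_cpow_of_pos hn]
    simp

theorem npi_mul67 (m n : ℕ) (t : ℝ) : npi (m * n) t = npi m t * npi n t := by
  unfold npi
  rw [Nat.cast_mul, Complex.natCast_mul_natCast_cpow]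

open Classical in
theorem split67 (a : ℕ → ℂ) (N : ℕ) :
    ∑ n ∈ Icc 1 N, a n = ∑ m ∈ Icc 1 (Nat.sqrt N), ∑ k ∈ (Icc 1 (N / m ^ 2)).filter Squarefree,
      a (m ^ 2 * k) := by
  rw [Finset.sum_sigma']
  symm
  refine Finset.sum_bij (fun x _ => x.1 ^ 2 * x.2) ?_ ?_ ?_ ?_
  · rintro ⟨m, k⟩ hx
    simp only [mem_sigma, mem_filter, mem_Icc] at hx ⊢
    obtain ⟨⟨hm1, hm2⟩, ⟨hk1, hk2⟩, hk3⟩ := hx
    have hm0 : 0 < m ^ 2 := by positivity
    refine ⟨Nat.mul_pos hm0 hk1, ?_⟩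
    rw [Nat.le_div_iff_mul_le hm0, mul_comm] at hk2
    exact hk2
  · rintro ⟨m, k⟩ hx ⟨m', k'⟩ hx' he
    simp only [mem_sigma, mem_filter, mem_Icc] at hx hx' he
    have h1 : m = m' := sq_uniq67 (by omega) (by omega) hx.2.2 hx'.2.2 he
    subst h1
    have hm0 : 0 < m ^ 2 := by
      have : 0 < m := by omega
      positivity
    have h2 : k = k' := Nat.eq_of_mul_eq_mul_left hm0 he
    subst h2
    rfl
  · intro n hn
    rw [mem_Icc] at hn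
    obtain ⟨k, m, hmk, hk⟩ := Nat.sq_mul_squarefree n
    have hk0 : 0 < k := Nat.pos_of_ne_zero hk.ne_zero
    have hm : 0 < m := by
      rcases Nat.eq_zero_or_pos m with h0 | h0
      · subst h0
        simp at hmk
        omega
      · exact h0
    have hm0 : 0 < m ^ 2 := by positivity
    refine ⟨⟨m, k⟩, ?_, hmk⟩
    simp only [mem_sigma, mem_filter, mem_Icc]
    refine ⟨⟨hm, ?_⟩, ⟨hk0, ?_⟩, hk⟩
    · rw [Nat.le_sqrt']
      calc m ^ 2 ≤ m ^ 2 * k := Nat.le_mul_of_pos_right _ hk0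
        _ = n := hmk
        _ ≤ N := hn.2
    · rw [Nat.le_div_iff_mul_le hm0, mul_comm, hmk]
      exact hn.2
  · rintro ⟨m, k⟩ _
    rfl

theorem class_K (f : ℕ → ℤ) (hf : ∀ n, f n = 1 ∨ f n = -1) (h : GRHClass (ext f)) :
    ∀ ε : ℝ, 0 < ε → ∃ C : ℝ, ∀ (q : ℕ) (χ : DirichletCharacter ℂ q) (t : ℝ) (N : ℕ),
      1 ≤ q → 1 ≤ N → ‖tw (cm f) χ t N‖ ≤ C * ((q : ℝ) * (1 + |t|) * N) ^ ε * (N : ℝ) ^ (1 / 2 : ℝ) := by
  classical
  intro ε hε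
  set δ : ℝ := ε / 2 with hδdef
  have hδ : 0 < δ := by positivity
  obtain ⟨C0, hC0⟩ := h.bound δ hδ
  set C : ℝ := max C0 0 with hCdef
  have hC : 0 ≤ C := le_max_right _ _
  have hC0C : C0 ≤ C := le_max_left _ _
  refine ⟨C * (1 + 1 / δ), ?_⟩
  intro q χ t N hq hN
  have hN1 : (1 : ℝ) ≤ N := by exact_mod_cast hN
  have hN0 : (0 : ℝ) < N := by linarith
  have hq1 : (1 : ℝ) ≤ q := by exact_mod_cast hq
  have ht1 : (1 : ℝ) ≤ 1 + |t| := by linarith [abs_nonneg t]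
  have hqt : (1 : ℝ) ≤ (q : ℝ) * (1 + |t|) := by nlinarith
  set B : ℝ := (q : ℝ) * (1 + |t|) * N with hB
  have hB0 : 0 < B := by positivity
  have hNB : (N : ℝ) ≤ B := by rw [hB]; nlinarith
  -- the inner sums
  have hinner : ∀ m ∈ Icc 1 (Nat.sqrt N),
      ‖∑ k ∈ (Icc 1 (N / m ^ 2)).filter Squarefree,
        ((cm f (m ^ 2 * k) : ℤ) : ℂ) * χ ((m ^ 2 * k : ℕ) : ZMod q) * npi (m ^ 2 * k) t‖ ≤
      C * B ^ δ * (N : ℝ) ^ (1 / 2 : ℝ) * (m : ℝ)⁻¹ := by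
    intro m hm
    rw [mem_Icc] at hm
    have hm0 : 0 < m := by omega
    have hm2 : 0 < m ^ 2 := by positivity
    have hmR : (0 : ℝ) < m := by exact_mod_cast hm0
    have h1 : ∑ k ∈ (Icc 1 (N / m ^ 2)).filter Squarefree,
        ((cm f (m ^ 2 * k) : ℤ) : ℂ) * χ ((m ^ 2 * k : ℕ) : ZMod q) * npi (m ^ 2 * k) t =
        (χ (m : ZMod q) ^ 2 * npi m t ^ 2) * tw (ext f) χ t (N / m ^ 2) := by
      unfold tw
      rw [Finset.mul_sum, Finset.sum_filter]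
      refine Finset.sum_congr rfl fun k hk => ?_
      by_cases hsq : Squarefree k
      · rw [if_pos hsq, cm_mul f (by omega) hsq.ne_zero, cm_sq f hf (by omega),
          cm_squarefree f hsq, one_mul, npi_mul67, pow_two m, npi_mul67]
        push_cast
        rw [map_mul, map_mul]
        ring
      · rw [if_neg hsq]
        have : ext f k = 0 := by
          unfold Helper92.GB.ext
          rw [if_neg hsq]
        rw [this]
        simp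
    rw [h1, norm_mul, norm_mul, norm_pow, norm_pow]
    have hNm : 1 ≤ N / m ^ 2 := by
      rw [Nat.le_div_iff_mul_le hm2, one_mul]
      exact Nat.le_sqrt'.1 hm.2
    have h2 := hC0 q χ t (N / m ^ 2) hq hNm
    have h3 : ‖χ (m : ZMod q)‖ ^ 2 * ‖npi m t‖ ^ 2 ≤ 1 := by
      have e1 := χ.norm_le_one (m : ZMod q)
      have e2 := norm_npi67 m t
      have e3 : ‖χ (m : ZMod q)‖ ^ 2 ≤ 1 := pow_le_one₀ (norm_nonneg _) e1
      have e4 : ‖npi m t‖ ^ 2 ≤ 1 := pow_le_one₀ (norm_nonneg _) e2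
      exact mul_le_one₀ e3 (by positivity) e4
    have hdivR : ((N / m ^ 2 : ℕ) : ℝ) ≤ (N : ℝ) / (m : ℝ) ^ 2 := by
      have := Nat.cast_div_le (α := ℝ) (m := N) (n := m ^ 2)
      push_cast at this
      exact this
    have hd0 : (0 : ℝ) ≤ ((N / m ^ 2 : ℕ) : ℝ) := Nat.cast_nonneg _
    have hm1R : (1 : ℝ) ≤ (m : ℝ) ^ 2 := by
      have : (1 : ℝ) ≤ m := by exact_mod_cast hm0
      nlinarith
    have hdN : (N : ℝ) / (m : ℝ) ^ 2 ≤ N := div_le_self hN0.le hm1R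
    have h4 : ((q : ℝ) * (1 + |t|) * ((N / m ^ 2 : ℕ) : ℝ)) ^ δ ≤ B ^ δ := by
      apply Real.rpow_le_rpow (by positivity) _ hδ.le
      rw [hB]
      exact mul_le_mul_of_nonneg_left (hdivR.trans hdN) (by positivity)
    have h5 : ((N / m ^ 2 : ℕ) : ℝ) ^ (1 / 2 : ℝ) ≤ (N : ℝ) ^ (1 / 2 : ℝ) * (m : ℝ)⁻¹ := by
      calc ((N / m ^ 2 : ℕ) : ℝ) ^ (1 / 2 : ℝ) ≤ ((N : ℝ) / (m : ℝ) ^ 2) ^ (1 / 2 : ℝ) :=
            Real.rpow_le_rpow hd0 hdivR (by norm_num)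
        _ = (N : ℝ) ^ (1 / 2 : ℝ) * (m : ℝ)⁻¹ := by
            rw [Real.div_rpow hN0.le (by positivity), ← Real.sqrt_eq_rpow ((m : ℝ) ^ 2),
              Real.sqrt_sq hmR.le, div_eq_mul_inv]
    have h6 : ‖tw (ext f) χ t (N / m ^ 2)‖ ≤ C * B ^ δ * ((N : ℝ) ^ (1 / 2 : ℝ) * (m : ℝ)⁻¹) := by
      refine h2.trans ?_
      gcongr
    calc ‖χ (m : ZMod q)‖ ^ 2 * ‖npi m t‖ ^ 2 * ‖tw (ext f) χ t (N / m ^ 2)‖
        ≤ 1 * ‖tw (ext f) χ t (N / m ^ 2)‖ := by gcongr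
      _ ≤ C * B ^ δ * ((N : ℝ) ^ (1 / 2 : ℝ) * (m : ℝ)⁻¹) := by rw [one_mul]; exact h6
      _ = _ := by ring
  have htot : ‖tw (cm f) χ t N‖ ≤ ∑ m ∈ Icc 1 (Nat.sqrt N), C * B ^ δ * (N : ℝ) ^ (1 / 2 : ℝ) * (m : ℝ)⁻¹ := by
    unfold tw
    rw [split67 (fun n => ((cm f n : ℤ) : ℂ) * χ (n : ZMod q) * npi n t) N]
    exact (norm_sum_le _ _).trans (Finset.sum_le_sum hinner)
  rw [← Finset.mul_sum] at htot
  have hharm : ∑ m ∈ Icc 1 (Nat.sqrt N), (m : ℝ)⁻¹ ≤ 1 + Real.log N := by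
    have h1 := harmonic_le_one_add_log (Nat.sqrt N)
    rw [harmonic_eq_sum_Icc] at h1
    push_cast at h1
    refine h1.trans ?_
    have h2 : Real.log (Nat.sqrt N : ℕ) ≤ Real.log N := by
      rcases Nat.eq_zero_or_pos (Nat.sqrt N) with h0 | h0
      · rw [h0]
        simp
        exact Real.log_nonneg hN1
      · apply Real.log_le_log (by exact_mod_cast h0)
        exact_mod_cast Nat.sqrt_le_self N
    linarith
  have hlog : 1 + Real.log N ≤ (1 + 1 / δ) * B ^ δ := by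
    have h1 : Real.log N ≤ (N : ℝ) ^ δ / δ := Real.log_le_rpow_div hN0.le hδ
    have h2 : (1 : ℝ) ≤ (N : ℝ) ^ δ := Real.one_le_rpow hN1 hδ.le
    have h3 : (N : ℝ) ^ δ ≤ B ^ δ := Real.rpow_le_rpow hN0.le hNB hδ.le
    have h4 : (1 + 1 / δ) * (N : ℝ) ^ δ ≤ (1 + 1 / δ) * B ^ δ :=
      mul_le_mul_of_nonneg_left h3 (by positivity)
    have h5 : (1 + 1 / δ) * (N : ℝ) ^ δ = (N : ℝ) ^ δ + (N : ℝ) ^ δ / δ := by ring
    linarith
  have hBB : B ^ δ * B ^ δ = B ^ ε := by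
    rw [← Real.rpow_add hB0]
    congr 1
    rw [hδdef]
    ring
  calc ‖tw (cm f) χ t N‖ ≤ C * B ^ δ * (N : ℝ) ^ (1 / 2 : ℝ) * ∑ m ∈ Icc 1 (Nat.sqrt N), (m : ℝ)⁻¹ := htot
    _ ≤ C * B ^ δ * (N : ℝ) ^ (1 / 2 : ℝ) * ((1 + 1 / δ) * B ^ δ) :=
        mul_le_mul_of_nonneg_left (hharm.trans hlog) (by positivity)
    _ = C * (1 + 1 / δ) * (B ^ δ * B ^ δ) * (N : ℝ) ^ (1 / 2 : ℝ) := by ring
    _ = C * (1 + 1 / δ) * B ^ ε * (N : ℝ) ^ (1 / 2 : ℝ) := by rw [hBB]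

end Pool.Agent.Helper66.GL
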