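import Pool.Agent.Helper66.GL.StarR

/-!
# Block GL-X (MP_a499ba_nt, Q2)

The differences `H (z / (pa k * pb k)) - H (z / (pb k) ^ 2)` of a function of square root size with a logarithmic
saving and with the trivial Lipschitz bound.

Proof. Put `L = log z`, `t_k = z / (pa k * pb k)`, `v_k = z / (pb k)^2` (natural division), `v_k ≤ t_k`. Terms with
`t_k = 0` vanish (`H 0 = 0`). Let `T = z^{1/4}` (real).
(1) Terms with `t_k ≤ T`: `|H t_k - H v_k| ≤ t_k - v_k` = number of integers `n` with `v_k < n ≤ t_k`. For such `n`: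
`pa k * pb k * n ≤ z < (pb k)^2 * n`. The intervals `[pa k * pb k, (pb k)^2)` are disjoint for different `k`
(`pb k < pa k'` for `k < k'`), so every `n ≤ T` occurs for at most one `k` (the sets `Ioc v_k t_k` are pairwise disjoint
subsets of `Icc 1 ⌊T⌋₊`): total at most `T`, and `T = √z * exp (-L/4) ≤ C₁ √z (1+L)^{-r}`.
(2) Terms with `t_k > T`: for `u = t_k` or `u = v_k ≥ 1`: `√u ≤ √z / pa k`, and `1 + log u ≥ (1 + L) / 12`
(`t_k > z^{1/4}`; `(pb k)^2 < 2 * (pa k * pb k)` by `pb_lt_two_mul` gives `2 v_k + 2 > t_k > T`, so `4 v_k > T`), so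
`kr (r+1) u ≤ 12^(r+1) kr (r+1) z` and the term is at most `2 * 12^(r+1) * K * (√z / pa k) * kr (r+1) z`. The `pa k` here are
distinct integers `≤ z` (`pa k * pb k ≤ z`), so `∑ 1 / pa k ≤ ∑_{n ≤ z} 1/n ≤ 1 + L`, and `(1 + L) * kr (r+1) z = kr r z`.
-/

set_option autoImplicit false

namespace Pool.Agent.Helper66.GL

open Finset Pool.Agent.Helper92.GB Pool.Agent.Helper66.MB

private theorem vt_le (z k : ℕ) : z / pb k ^ 2 ≤ z / (pa k * pb k) := by
  have h1 := pa_lt_pb k
  have h2 := two_le_pa k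
  have h3 : 0 < pa k := by omega
  have h4 : 0 < pb k := by omega
  apply Nat.div_le_div_left _ (by positivity)
  nlinarith

private theorem cross_disj (z k k' n : ℕ) (hk : k < k') (h1 : z / pb k ^ 2 < n)
    (h2 : n ≤ z / (pa k' * pb k')) : False := by
  have ha := two_le_pa k'
  have hb := pa_lt_pb k'
  have hc := pb_lt_pa hk
  have hd := pa_lt_pb k
  have he := two_le_pa k
  have hf : 0 < pb k := by omega
  have hg : 0 < pa k' := by omega
  have hi : 0 < pb k' := by omega
  rw [Nat.div_lt_iff_lt_mul (by positivity)] at h1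
  rw [Nat.le_div_iff_mul_le (by positivity)] at h2
  have h3 : pb k ^ 2 ≤ pa k' * pb k' := by nlinarith
  have h4 := Nat.mul_le_mul_left n h3
  omega

/-- small range: disjoint intervals -/
private theorem cross_small (H : ℕ → ℝ) (z J M : ℕ)
    (hlip : ∀ u v : ℕ, v ≤ u → |H u - H v| ≤ ((u - v : ℕ) : ℝ)) :
    ∑ k ∈ (range J).filter (fun k => z / (pa k * pb k) ≤ M),
      |H (z / (pa k * pb k)) - H (z / pb k ^ 2)| ≤ (M : ℝ) := by
  classical
  set F := (range J).filter (fun k => z / (pa k * pb k) ≤ M) with hF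
  have h1 : ∑ k ∈ F, |H (z / (pa k * pb k)) - H (z / pb k ^ 2)|
      ≤ ((∑ k ∈ F, (Ioc (z / pb k ^ 2) (z / (pa k * pb k))).card : ℕ) : ℝ) := by
    push_cast
    apply sum_le_sum
    intro k _
    rw [Nat.card_Ioc]
    exact hlip _ _ (vt_le z k)
  refine h1.trans ?_
  rw [← card_biUnion]
  · have h2 : F.biUnion (fun k => Ioc (z / pb k ^ 2) (z / (pa k * pb k))) ⊆ Icc 1 M := by
      intro n hn
      rw [mem_biUnion] at hn
      obtain ⟨k, hk, hn⟩ := hn
      rw [hF, mem_filter] at hk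
      rw [mem_Ioc] at hn
      rw [mem_Icc]
      exact ⟨Nat.lt_of_le_of_lt (Nat.zero_le _) hn.1, hn.2.trans hk.2⟩
    have h3 : (F.biUnion (fun k => Ioc (z / pb k ^ 2) (z / (pa k * pb k)))).card ≤ M := by
      have h4 := card_le_card h2
      rw [Nat.card_Icc, Nat.add_sub_cancel] at h4
      exact h4
    exact_mod_cast h3
  · intro k _ k' _ hne
    rw [Function.onFun, Finset.disjoint_left]
    intro n hn hn'
    rw [mem_Ioc] at hn hn'
    rcases lt_or_gt_of_ne hne with h | h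
    · exact cross_disj z k k' n h hn.1 hn'.2
    · exact cross_disj z k' k n h hn'.1 hn.2

private theorem kr_comp (r u z : ℕ) (hu : 1 ≤ u) (hz : 1 ≤ z) (h : z < (3 * u) ^ 4) :
    kr r u ≤ 12 ^ r * kr r z := by
  have huR : (1 : ℝ) ≤ (u : ℝ) := by exact_mod_cast hu
  have hzR : (1 : ℝ) ≤ (z : ℝ) := by exact_mod_cast hz
  have h1 : (z : ℝ) ≤ (3 * u) ^ 4 := by exact_mod_cast h.le
  have h2 := Real.log_le_log (by linarith) h1
  rw [Real.log_pow, Real.log_mul (by norm_num) (by linarith)] at h2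
  have h3 : Real.log 3 ≤ 2 := by
    have := Real.log_le_sub_one_of_pos (show (0 : ℝ) < 3 by norm_num)
    linarith
  have h4 : 0 ≤ Real.log u := Real.log_nonneg huR
  have h5 : 0 ≤ Real.log z := Real.log_nonneg hzR
  push_cast at h2
  have h6 : 1 + Real.log z ≤ 12 * (1 + Real.log u) := by linarith
  have h7 : (1 + Real.log z) ^ r ≤ 12 ^ r * (1 + Real.log u) ^ r := by
    rw [← mul_pow]
    exact pow_le_pow_left₀ (by linarith) h6 r
  unfold kr
  rw [← div_eq_mul_inv, le_div_iff₀ (by positivity), inv_mul_le_iff₀ (by positivity)]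
  linarith

private theorem cross_term (r : ℕ) (H : ℕ → ℝ) (K : ℝ) (z u a : ℕ) (hK : 1 ≤ K) (hz : 1 ≤ z) (h0 : H 0 = 0)
    (hH : ∀ u : ℕ, 1 ≤ u → u ≤ z → |H u| ≤ K * Real.sqrt u * kr (r + 1) u) (ha : 1 ≤ a)
    (hua : u * a ^ 2 ≤ z) (h3 : 1 ≤ u → z < (3 * u) ^ 4) :
    |H u| ≤ K * (Real.sqrt z / a) * (12 ^ (r + 1) * kr (r + 1) z) := by
  have haR : (1 : ℝ) ≤ (a : ℝ) := by exact_mod_cast ha
  have hkz := kr_pos (r + 1) z
  rcases Nat.eq_zero_or_pos u with h | h
  · rw [h, h0, abs_zero]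
    positivity
  · have hu : u ≤ z := by
      have : 1 ≤ a ^ 2 := Nat.one_le_pow _ _ ha
      nlinarith
    have hsq : Real.sqrt u ≤ Real.sqrt z / a := by
      rw [le_div_iff₀ (by linarith)]
      have h1 : Real.sqrt u * a = Real.sqrt (u * (a : ℝ) ^ 2) := by
        rw [Real.sqrt_mul (by positivity), Real.sqrt_sq (by linarith)]
      rw [h1]
      apply Real.sqrt_le_sqrt
      exact_mod_cast hua
    have hku := kr_pos (r + 1) u
    calc |H u| ≤ K * Real.sqrt u * kr (r + 1) u := hH u h hu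
      _ ≤ K * (Real.sqrt z / a) * (12 ^ (r + 1) * kr (r + 1) z) := by
        apply mul_le_mul _ (kr_comp (r + 1) u z h hz (h3 h)) hku.le (by positivity)
        exact mul_le_mul_of_nonneg_left hsq (by linarith)

/-- large range -/
private theorem cross_large (r : ℕ) (H : ℕ → ℝ) (K : ℝ) (z J M : ℕ) (hK : 1 ≤ K) (hz : 1 ≤ z) (h0 : H 0 = 0)
    (hH : ∀ u : ℕ, 1 ≤ u → u ≤ z → |H u| ≤ K * Real.sqrt u * kr (r + 1) u)
    (hM : ∀ t : ℕ, M < t → z < t ^ 4) :
    ∑ k ∈ (range J).filter (fun k => ¬ z / (pa k * pb k) ≤ M),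
      |H (z / (pa k * pb k)) - H (z / pb k ^ 2)| ≤ 2 * 12 ^ (r + 1) * K * Real.sqrt z * kr r z := by
  classical
  set F := (range J).filter (fun k => ¬ z / (pa k * pb k) ≤ M) with hF
  have hkz := kr_pos (r + 1) z
  have hzR : (1 : ℝ) ≤ (z : ℝ) := by exact_mod_cast hz
  have hterm : ∀ k ∈ F, |H (z / (pa k * pb k)) - H (z / pb k ^ 2)| ≤
      (2 * 12 ^ (r + 1) * K * Real.sqrt z * kr (r + 1) z) * ((pa k : ℝ))⁻¹ := by
    intro k hk
    rw [hF, mem_filter, not_le] at hk
    have ha := two_le_pa k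
    have hb := pa_lt_pb k
    have hb2 := pb_lt_two_mul k
    set a := pa k with hadef
    set b := pb k with hbdef
    have ht := hk.2
    set t := z / (a * b) with htdef
    set v := z / b ^ 2 with hvdef
    have ha0 : 0 < a := by omega
    have hb0 : 0 < b := by omega
    have hab : 0 < a * b := by positivity
    have hbb : 0 < b ^ 2 := by positivity
    have h1 : t * (a * b) ≤ z := Nat.div_mul_le_self z (a * b)
    have h2 : v * b ^ 2 ≤ z := Nat.div_mul_le_self z (b ^ 2)
    have h3 : z < (v + 1) * b ^ 2 := by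
      have := Nat.lt_div_mul_add (a := z) hbb
      rw [hvdef]
      nlinarith
    have h4 : t < 2 * (v + 1) := by
      by_contra hcon
      rw [not_lt] at hcon
      have h5 : 2 * (v + 1) * (a * b) ≤ t * (a * b) := Nat.mul_le_mul_right _ hcon
      have h6 : (v + 1) * b ^ 2 ≤ 2 * (v + 1) * (a * b) := by
        have h7 : b ^ 2 ≤ 2 * (a * b) := by nlinarith
        have h8 := Nat.mul_le_mul_left (v + 1) h7
        nlinarith
      omega
    have hta : t * a ^ 2 ≤ z := by
      have : a ^ 2 ≤ a * b := by nlinarith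
      have := Nat.mul_le_mul_left t this
      omega
    have hva : v * a ^ 2 ≤ z := by
      have : a ^ 2 ≤ b ^ 2 := by nlinarith
      have := Nat.mul_le_mul_left v this
      omega
    have hzt := hM t ht
    have ht3 : 1 ≤ t → z < (3 * t) ^ 4 := fun _ =>
      hzt.trans_le (Nat.pow_le_pow_left (by omega) 4)
    have hv3 : 1 ≤ v → z < (3 * v) ^ 4 := fun hv =>
      hzt.trans_le (Nat.pow_le_pow_left (by omega) 4)
    have e1 := cross_term r H K z t a hK hz h0 hH (by omega) hta ht3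
    have e2 := cross_term r H K z v a hK hz h0 hH (by omega) hva hv3
    have e3 : |H t - H v| ≤ |H t| + |H v| := abs_sub _ _
    calc |H t - H v| ≤ |H t| + |H v| := e3
      _ ≤ _ := by
        have : (2 * 12 ^ (r + 1) * K * Real.sqrt z * kr (r + 1) z) * ((a : ℝ))⁻¹ =
          K * (Real.sqrt z / a) * (12 ^ (r + 1) * kr (r + 1) z) +
          K * (Real.sqrt z / a) * (12 ^ (r + 1) * kr (r + 1) z) := by ring
        rw [this]
        exact add_le_add e1 e2
  refine (sum_le_sum hterm).trans ?_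
  rw [← mul_sum]
  have hsum : ∑ k ∈ F, ((pa k : ℝ))⁻¹ ≤ 1 + Real.log z := by
    have h1 : ∑ k ∈ F, ((pa k : ℝ))⁻¹ = ∑ n ∈ F.image pa, ((n : ℝ))⁻¹ := by
      rw [sum_image]
      intro x _ y _ h
      exact pa_strictMono.injective h
    rw [h1]
    have h2 : F.image pa ⊆ Icc 1 z := by
      intro n hn
      rw [mem_image] at hn
      obtain ⟨k, hk, rfl⟩ := hn
      rw [hF, mem_filter, not_le] at hk
      have ha := two_le_pa k
      have hb := pa_lt_pb k
      have h3 : 1 ≤ z / (pa k * pb k) := by omega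
      have ha0 : 0 < pa k := by omega
      have hb0 : 0 < pb k := by omega
      rw [Nat.le_div_iff_mul_le (by positivity)] at h3
      rw [mem_Icc]
      constructor
      · omega
      · nlinarith
    calc ∑ n ∈ F.image pa, ((n : ℝ))⁻¹ ≤ ∑ n ∈ Icc 1 z, ((n : ℝ))⁻¹ :=
          sum_le_sum_of_subset_of_nonneg h2 (fun _ _ _ => by positivity)
      _ = ((harmonic z : ℚ) : ℝ) := by
          rw [harmonic_eq_sum_Icc]
          push_cast
          rfl
      _ ≤ 1 + Real.log z := harmonic_le_one_add_log z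
  have hl : 0 ≤ Real.log z := Real.log_nonneg hzR
  calc (2 * 12 ^ (r + 1) * K * Real.sqrt z * kr (r + 1) z) * ∑ k ∈ F, ((pa k : ℝ))⁻¹
      ≤ (2 * 12 ^ (r + 1) * K * Real.sqrt z * kr (r + 1) z) * (1 + Real.log z) := by
        apply mul_le_mul_of_nonneg_left hsum
        positivity
    _ = 2 * 12 ^ (r + 1) * K * Real.sqrt z * kr r z := by
        unfold kr
        rw [pow_succ (1 + Real.log (z : ℝ)) r]
        field_simp

theorem cross (r : ℕ) : ∃ C : ℝ, 0 < C ∧ ∀ (H : ℕ → ℝ) (K : ℝ) (z J : ℕ), 1 ≤ K → 1 ≤ z → H 0 = 0 →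
    (∀ u : ℕ, 1 ≤ u → u ≤ z → |H u| ≤ K * Real.sqrt u * kr (r + 1) u) →
    (∀ u v : ℕ, v ≤ u → |H u - H v| ≤ ((u - v : ℕ) : ℝ)) →
    ∑ k ∈ range J, |H (z / (pa k * pb k)) - H (z / pb k ^ 2)| ≤ C * K * Real.sqrt z * kr r z := by
  refine ⟨4 ^ r * (r.factorial : ℝ) * Real.exp (1 / 4) + 2 * 12 ^ (r + 1), by positivity, ?_⟩
  intro H K z J hK hz h0 hH hlip
  set M := Nat.sqrt (Nat.sqrt z) with hM
  have hzR : (1 : ℝ) ≤ (z : ℝ) := by exact_mod_cast hz
  have hM4 : M ^ 4 ≤ z := by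
    have h1 : M * M ≤ Nat.sqrt z := Nat.sqrt_le _
    have h2 : Nat.sqrt z * Nat.sqrt z ≤ z := Nat.sqrt_le _
    calc M ^ 4 = (M * M) * (M * M) := by ring
      _ ≤ Nat.sqrt z * Nat.sqrt z := Nat.mul_le_mul h1 h1
      _ ≤ z := h2
  have hMt : ∀ t : ℕ, M < t → z < t ^ 4 := by
    intro t ht
    have h1 : Nat.sqrt z < t * t := Nat.sqrt_lt.1 ht
    have h2 : z < (t * t) * (t * t) := Nat.sqrt_lt.1 h1
    calc z < (t * t) * (t * t) := h2
      _ = t ^ 4 := by ring
  have hs := cross_small H z J M hlip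
  have hl := cross_large r H K z J M hK hz h0 hH hMt
  rw [← sum_filter_add_sum_filter_not (range J) (fun k => z / (pa k * pb k) ≤ M)]
  have hk := kr_pos r z
  have hlog : 0 ≤ Real.log z := Real.log_nonneg hzR
  set L := Real.log z with hL
  have hzexp : (z : ℝ) = Real.exp L := by rw [hL, Real.exp_log (by linarith)]
  have hMe : (M : ℝ) ≤ Real.exp (L / 4) := by
    have h1 : (M : ℝ) ^ 4 ≤ (Real.exp (L / 4)) ^ 4 := by
      rw [← Real.exp_nat_mul]
      have : ((4 : ℕ) : ℝ) * (L / 4) = L := by push_cast; ring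
      rw [this, ← hzexp]
      exact_mod_cast hM4
    exact (pow_le_pow_iff_left₀ (by positivity) (by positivity) (by norm_num)).1 h1
  have hsq : Real.sqrt z = Real.exp (L / 4) * Real.exp (L / 4) := by
    rw [← Real.exp_add, hzexp, Real.sqrt_eq_iff_mul_self_eq (by positivity) (by positivity), ← Real.exp_add]
    congr 1
    ring
  have hpow : (1 + L) ^ r ≤ 4 ^ r * (r.factorial : ℝ) * Real.exp (1 / 4) * Real.exp (L / 4) := by
    have h1 := Real.pow_div_factorial_le_exp ((1 + L) / 4) (by positivity) r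
    rw [div_le_iff₀ (by positivity), div_pow, div_le_iff₀ (by positivity)] at h1
    have h2 : Real.exp ((1 + L) / 4) = Real.exp (1 / 4) * Real.exp (L / 4) := by
      rw [← Real.exp_add]
      congr 1
      ring
    rw [h2] at h1
    linarith
  have hMb : (M : ℝ) ≤ (4 ^ r * (r.factorial : ℝ) * Real.exp (1 / 4)) * K * Real.sqrt z * kr r z := by
    have h1 : (M : ℝ) ≤ (4 ^ r * (r.factorial : ℝ) * Real.exp (1 / 4)) * Real.sqrt z * kr r z := by
      have h2 : kr r z = ((1 + L) ^ r)⁻¹ := rfl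
      rw [h2, ← div_eq_mul_inv, le_div_iff₀ (by positivity), hsq]
      calc (M : ℝ) * (1 + L) ^ r ≤ Real.exp (L / 4) *
            (4 ^ r * (r.factorial : ℝ) * Real.exp (1 / 4) * Real.exp (L / 4)) :=
            mul_le_mul hMe hpow (by positivity) (by positivity)
        _ = _ := by ring
    refine h1.trans ?_
    have h3 : 0 ≤ (4 ^ r * (r.factorial : ℝ) * Real.exp (1 / 4)) * Real.sqrt z * kr r z := by positivity
    nlinarith
  calc _ ≤ (M : ℝ) + 2 * 12 ^ (r + 1) * K * Real.sqrt z * kr r z := add_le_add hs hl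
    _ ≤ _ := by
      have : (4 ^ r * (r.factorial : ℝ) * Real.exp (1 / 4) + 2 * 12 ^ (r + 1)) * K * Real.sqrt z * kr r z =
        (4 ^ r * (r.factorial : ℝ) * Real.exp (1 / 4)) * K * Real.sqrt z * kr r z +
        2 * 12 ^ (r + 1) * K * Real.sqrt z * kr r z := by ring
      rw [this]
      linarith

end Pool.Agent.Helper66.GL
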