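import Pool.Agent.Helper66.MB.Basic

/-!
# Liouville barrier (MP_a499ba_nt, Q2): definitions

Notation of the Mertens barrier (`Helper66.MB`): Dirichlet polynomials `DP`, monomials `mo n`, partial sums
`Sm x`, pairs of consecutive primes `pa i < pb i`, `dl i = mo (pa i) - mo (pb i)`, star products.
-/

set_option autoImplicit false

namespace Pool.Agent.Helper66.GL

open Finset Pool.Agent.Helper92.GB Pool.Agent.Helper66.MB

/-- `(1 + log y)^{-r}`. -/
noncomputable def kr (r y : ℕ) : ℝ := ((1 + Real.log y) ^ r)⁻¹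

/-- The star sums at the scale `2 ^ k` are small. -/
def GR (r n₀ k : ℕ) (ω : ℕ → ℤˣ) : Prop :=
  ∀ x : ℕ, 2 ^ k ≤ x → x < 2 ^ (k + 1) →
    |Sm x (star ω (Ico n₀ (2 ^ (k + 1))))| ≤ Real.sqrt (2 ^ k) / (k : ℝ) ^ r

/-- `1 + ω i ((pa i)^{-s} - (pb i)^{-s})`. -/
noncomputable def Sf (ω : ℕ → ℤˣ) (i : ℕ) : DP := 1 + ((ω i : ℤ) : ℝ) • dl i

/-- `(pa i * pb i)^{-s}`. -/
noncomputable def Cf (i : ℕ) : DP := mo (pa i * pb i)

/-- `(pb i)^{-2s}`. -/
noncomputable def Bf (i : ℕ) : DP := mo (pb i ^ 2)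

/-- Partial geometric sum of `m^{-s}`. -/
noncomputable def geo (K m : ℕ) : DP := ∑ j ∈ range K, mo (m ^ j)

/-- The first approximation: the product of `(1 + (pb i)^{-2s} - (pa i * pb i)^{-s})` and of the star factors. -/
noncomputable def psi (ω : ℕ → ℤˣ) (I : Finset ℕ) : DP := (∏ i ∈ I, (1 + (Bf i - Cf i))) * star ω I

/-- The product of the factors of the pairs, without the squares of the primes `pa i`. -/
noncomputable def bra (ω : ℕ → ℤˣ) (K : ℕ) (I : Finset ℕ) : DP :=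
  ∏ i ∈ I, (geo K (pb i ^ 2) * (Sf ω i - Cf i))

/-- Support of the products of the terms `(pb i)^{-2s}`, `i ∈ V₁`, and `(pa i * pb i)^{-s}`, `i ∈ V ∖ V₁`. -/
noncomputable def nn (V V₁ : Finset ℕ) : ℕ := (∏ i ∈ V₁, pb i ^ 2) * ∏ i ∈ V \ V₁, (pa i * pb i)

/-- The completely multiplicative function with the values `f p` at the primes. -/
noncomputable def cm (f : ℕ → ℤ) (n : ℕ) : ℤ := n.factorization.prod fun p e => f p ^ e

open Classical in
/-- Summatory function of `cm f` over the integers with all prime factors in `P`. -/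
noncomputable def Tf (f : ℕ → ℤ) (P : ℕ → Prop) (x : ℕ) : ℝ :=
  ∑ n ∈ (Icc 1 x).filter (fun n => ∀ p ∈ n.primeFactors, P p), (cm f n : ℝ)

/-- Summatory function of `cm f`. -/
noncomputable def Lf (f : ℕ → ℤ) (x : ℕ) : ℝ := ∑ n ∈ Icc 1 x, (cm f n : ℝ)

/-- The sign functions with summatory function `O(√x ρ(x))`. -/
def ClL (f : ℕ → ℤ) : Prop := ∃ C : ℝ, ∀ x : ℕ, 1 ≤ x → |Lf f x| ≤ C * Real.sqrt x * rho x

/-- The main part of the summatory function of `flipS f R`. -/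
noncomputable def mainL (f : ℕ → ℤ) (R : Finset ℕ) (x : ℕ) : ℝ :=
  ∑ T ∈ R.powerset, (-2 : ℝ) ^ T.card * Lf f (x / ∏ p ∈ T, p)

end Pool.Agent.Helper66.GL
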