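import Pool.Agent.Helper66.MB.Flip
import Pool.Agent.Helper66.GL.CmB

/-!
# Changing signs at primes (MP_a499ba_nt, Q2)

The analogue of `Pool.Agent.Helper66.MB.Flip` for the summatory function `Lf f` of the completely multiplicative
function with the values `f p` at the primes. The only new proof is `Lf_flip`: `Lf f x - f p * Lf f (x / p)` is the sum over
the integers prime to `p`, which does not depend on `f p`.
-/

set_option autoImplicit false

namespace Pool.Agent.Helper66.GL

open Finset Pool.Agent.Helper92.GB Pool.Agent.Helper66.MB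

theorem Lf_sub (f : ℕ → ℤ) {p : ℕ} (hp : p.Prime) (x : ℕ) :
    Lf f x - f p * Lf f (x / p) = Tf f (fun q => q ≠ p) x := by
  have h := Tf_add f (fun q => q ≠ p) hp (by simp) x
  have h1 : ∀ y, Tf f (fun q => q ≠ p ∨ q = p) y = Lf f y := fun y => by
    rw [← Tf_true]
    exact Tf_congr f (fun q _ => by simp [em']) y
  rw [h1, h1] at h
  rw [h]
  ring

theorem Lf_flip (f : ℕ → ℤ) (p : ℕ) (hp : p.Prime) (hf : f p = 1 ∨ f p = -1) (x : ℕ) :
    Lf (Function.update f p (-f p)) x + f p * Lf (Function.update f p (-f p)) (x / p) =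
      Lf f x - f p * Lf f (x / p) := by
  have h1 := Lf_sub f hp x
  have h2 := Lf_sub (Function.update f p (-f p)) hp x
  rw [Function.update_self] at h2
  have h3 : Tf (Function.update f p (-f p)) (fun q => q ≠ p) x = Tf f (fun q => q ≠ p) x :=
    Tf_fcongr _ x fun q _ hq => Function.update_of_ne hq _ _
  push_cast at h2
  linarith

/-! ### The class `ClL` -/

lemma flipS_empty (f : ℕ → ℤ) : flipS f ∅ = f := by
  funext n; simp [flipS]

lemma flipS_insert (f : ℕ → ℤ) {p : ℕ} {R : Finset ℕ} (h : p ∉ R) :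
    flipS f (insert p R) = Function.update (flipS f R) p (-flipS f R p) := by
  funext n
  by_cases hn : n = p
  · subst hn
    rw [Function.update_self]
    simp [flipS, h]
  · rw [Function.update_of_ne hn]
    simp [flipS, hn]

lemma flipS_apply_notMem (f : ℕ → ℤ) {p : ℕ} {R : Finset ℕ} (h : p ∉ R) : flipS f R p = f p := by
  simp [flipS, h]

lemma flipS_mem (f : ℕ → ℤ) (hf : ∀ n, f n = 1 ∨ f n = -1) (R : Finset ℕ) (n : ℕ) :
    flipS f R n = 1 ∨ flipS f R n = -1 := by
  unfold flipS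
  split_ifs
  · rcases hf n with h | h <;> simp [h]
  · exact hf n

lemma Lf_update_not_prime (f : ℕ → ℤ) {p : ℕ} (hp : ¬ p.Prime) (c : ℤ) (x : ℕ) :
    Lf (Function.update f p c) x = Lf f x := by
  unfold Lf
  refine sum_congr rfl fun n _ => ?_
  congr 1
  refine cm_congr fun q hq => ?_
  have hne : q ≠ p := by
    rintro rfl
    exact hp (Nat.prime_of_mem_primeFactors hq)
  rw [Function.update_of_ne hne]

lemma abs_sign {c : ℤ} (h : c = 1 ∨ c = -1) : |(c : ℝ)| = 1 := by
  rcases h with h | h <;> simp [h]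

lemma Lf_flip_le (f : ℕ → ℤ) (p : ℕ) (hp : p.Prime) (hf : f p = 1 ∨ f p = -1) (x : ℕ) :
    |Lf (Function.update f p (-f p)) x| ≤
      |Lf f x| + |Lf f (x / p)| + |Lf (Function.update f p (-f p)) (x / p)| := by
  have h := Lf_flip f p hp hf x
  have h1 : Lf (Function.update f p (-f p)) x =
      Lf f x - f p * Lf f (x / p) - f p * Lf (Function.update f p (-f p)) (x / p) := by
    linarith
  rw [h1]
  have h2 := abs_sub (Lf f x - f p * Lf f (x / p)) (f p * Lf (Function.update f p (-f p)) (x / p))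
  have h3 := abs_sub (Lf f x) (f p * Lf f (x / p))
  rw [abs_mul, abs_sign hf, one_mul] at h2 h3
  linarith

lemma Lf_flip_iter (f : ℕ → ℤ) (p : ℕ) (hp : p.Prime) (hf : f p = 1 ∨ f p = -1) (K : ℕ) :
    ∀ x : ℕ, x < 2 ^ K → |Lf (Function.update f p (-f p)) x| ≤
      |Lf f x| + 2 * ∑ k ∈ range K, |Lf f (x / p ^ (k + 1))| := by
  induction K with
  | zero =>
    intro x hx
    have : x = 0 := by simpa using hx
    subst this
    simp [Lf_zero]
  | succ K ih =>
    intro x hx
    have h1 : x / p < 2 ^ K := by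
      rw [Nat.div_lt_iff_lt_mul hp.pos]
      calc x < 2 ^ (K + 1) := hx
        _ = 2 ^ K * 2 := pow_succ _ _
        _ ≤ 2 ^ K * p := Nat.mul_le_mul_left _ hp.two_le
    have h2 := ih _ h1
    have h3 := Lf_flip_le f p hp hf x
    rw [sum_range_succ']
    have h4 : ∀ k, x / p / p ^ (k + 1) = x / p ^ (k + 1 + 1) := by
      intro k
      rw [Nat.div_div_eq_div_mul, ← pow_succ' p (k + 1)]
    simp only [h4] at h2
    simp only [zero_add, pow_one]
    linarith

lemma sqrt_powF {a : ℝ} (ha : 0 ≤ a) (k : ℕ) : Real.sqrt (a ^ k) = Real.sqrt a ^ k := by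
  induction k with
  | zero => simp
  | succ k ih => rw [pow_succ, Real.sqrt_mul (pow_nonneg ha k), ih, pow_succ]

lemma sqrt_div_le (x m : ℕ) :
    Real.sqrt ((x / m : ℕ) : ℝ) ≤ Real.sqrt x / Real.sqrt m := by
  rw [← Real.sqrt_div (Nat.cast_nonneg x)]
  exact Real.sqrt_le_sqrt Nat.cast_div_le

lemma Cl_update (f : ℕ → ℤ) (h : ClL f) (p : ℕ) (hf : f p = 1 ∨ f p = -1) :
    ClL (Function.update f p (-f p)) := by
  obtain ⟨C, hC⟩ := h
  by_cases hp : p.Prime
  · have hC0 : 0 ≤ C := by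
      have h1 := hC 1 le_rfl
      have h2 : 0 < rho ((1 : ℕ) : ℝ) := rho_pos (by norm_num)
      have h3 : 0 ≤ C * Real.sqrt ((1 : ℕ) : ℝ) * rho ((1 : ℕ) : ℝ) := (abs_nonneg _).trans h1
      rw [Nat.cast_one, Real.sqrt_one, mul_one] at h3
      rw [Nat.cast_one] at h2
      exact nonneg_of_mul_nonneg_left h3 h2
    set r : ℝ := (Real.sqrt p)⁻¹ with hr
    have hp1 : 1 < Real.sqrt p := by
      rw [Real.lt_sqrt (by norm_num)]
      have : (1 : ℝ) < p := by exact_mod_cast hp.one_lt
      simpa using this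
    have hr0 : 0 < r := by rw [hr]; positivity
    have hr1 : r < 1 := by rw [hr]; exact inv_lt_one_of_one_lt₀ hp1
    set a : ℝ := 1 + Real.log 2 with ha
    set b : ℝ := Real.log p with hb
    have ha0 : 0 ≤ a := by
      rw [ha]; have := Real.log_nonneg (show (1 : ℝ) ≤ 2 by norm_num); linarith
    have hb0 : 0 ≤ b := by
      rw [hb]; exact Real.log_nonneg (by exact_mod_cast hp.one_lt.le)
    have hsum : Summable (fun k : ℕ => r ^ k * (a + k * b)) := by
      have h1 : Summable (fun k : ℕ => r ^ k) := summable_geometric_of_lt_one hr0.le hr1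
      have h2 : Summable (fun k : ℕ => (k : ℝ) ^ 1 * r ^ k) :=
        summable_pow_mul_geometric_of_norm_lt_one 1 (by rw [Real.norm_of_nonneg hr0.le]; exact hr1)
      have h3 := (h1.mul_right a).add (h2.mul_right b)
      refine h3.congr fun k => ?_
      ring
    set S : ℝ := ∑' k : ℕ, r ^ k * (a + k * b) with hS
    have hterm0 : ∀ k : ℕ, 0 ≤ r ^ k * (a + k * b) := fun k => by positivity
    refine ⟨C + 2 * (C * S), fun x hx => ?_⟩
    have hK := Lf_flip_iter f p hp hf x x Nat.lt_two_pow_self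
    have hρ : 0 < rho x := rho_pos (by exact_mod_cast hx)
    have hbd : ∀ k : ℕ, |Lf f (x / p ^ (k + 1))| ≤
        C * Real.sqrt x * rho x * (r ^ (k + 1) * (a + ((k + 1 : ℕ) : ℝ) * b)) := by
      intro k
      have hpk : 1 ≤ p ^ (k + 1) := Nat.one_le_pow _ _ hp.pos
      rcases Nat.eq_zero_or_pos (x / p ^ (k + 1)) with h0 | h0
      · rw [h0, Lf_zero, abs_zero]
        have := hterm0 (k + 1)
        positivity
      · have h1 := hC _ h0
        have h2 := rho_div hpk h0
        have h3 := sqrt_div_le x (p ^ (k + 1))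
        have h4 : Real.sqrt x / Real.sqrt ((p ^ (k + 1) : ℕ) : ℝ) = Real.sqrt x * r ^ (k + 1) := by
          rw [hr, inv_pow, Nat.cast_pow, sqrt_powF (Nat.cast_nonneg p), div_eq_mul_inv]
        have h5 : 1 + Real.log (2 * ((p ^ (k + 1) : ℕ) : ℝ)) = a + ((k + 1 : ℕ) : ℝ) * b := by
          rw [ha, hb, Nat.cast_pow, Real.log_mul (by norm_num)
            (pow_ne_zero _ (by exact_mod_cast hp.ne_zero)), Real.log_pow]
          ring
        rw [h4] at h3
        rw [h5] at h2
        have h6 : 0 ≤ rho ((x / p ^ (k + 1) : ℕ) : ℝ) := (rho_pos (by exact_mod_cast h0)).le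
        calc |Lf f (x / p ^ (k + 1))| ≤ C * Real.sqrt ((x / p ^ (k + 1) : ℕ) : ℝ) *
              rho ((x / p ^ (k + 1) : ℕ) : ℝ) := h1
          _ ≤ C * (Real.sqrt x * r ^ (k + 1)) * (rho x * (a + ((k + 1 : ℕ) : ℝ) * b)) := by
              gcongr
          _ = C * Real.sqrt x * rho x * (r ^ (k + 1) * (a + ((k + 1 : ℕ) : ℝ) * b)) := by ring
    have hsumle : ∑ k ∈ range x, r ^ (k + 1) * (a + ((k + 1 : ℕ) : ℝ) * b) ≤ S := by
      have h1 : ∑ k ∈ range x, r ^ (k + 1) * (a + ((k + 1 : ℕ) : ℝ) * b) ≤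
          ∑ k ∈ range (x + 1), r ^ k * (a + (k : ℝ) * b) := by
        rw [sum_range_succ']
        have := hterm0 0
        push_cast at this ⊢
        linarith
      exact h1.trans (hsum.sum_le_tsum _ (fun k _ => hterm0 k))
    have hfin : ∑ k ∈ range x, |Lf f (x / p ^ (k + 1))| ≤ C * Real.sqrt x * rho x * S := by
      calc ∑ k ∈ range x, |Lf f (x / p ^ (k + 1))|
          ≤ ∑ k ∈ range x, C * Real.sqrt x * rho x * (r ^ (k + 1) * (a + ((k + 1 : ℕ) : ℝ) * b)) :=
            sum_le_sum fun k _ => hbd k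
        _ = C * Real.sqrt x * rho x * ∑ k ∈ range x, r ^ (k + 1) * (a + ((k + 1 : ℕ) : ℝ) * b) := by
            rw [mul_sum]
        _ ≤ C * Real.sqrt x * rho x * S := by gcongr
    have h0 := hC x hx
    calc |Lf (Function.update f p (-f p)) x|
        ≤ |Lf f x| + 2 * ∑ k ∈ range x, |Lf f (x / p ^ (k + 1))| := hK
      _ ≤ C * Real.sqrt x * rho x + 2 * (C * Real.sqrt x * rho x * S) := by gcongr
      _ = (C + 2 * (C * S)) * Real.sqrt x * rho x := by ring
  · refine ⟨C, fun x hx => ?_⟩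
    rw [Lf_update_not_prime f hp]
    exact hC x hx

theorem Cl_flipS (f : ℕ → ℤ) (hf : ∀ n, f n = 1 ∨ f n = -1) (h : ClL f) (R : Finset ℕ) :
    ClL (flipS f R) := by
  classical
  induction R using Finset.induction_on with
  | empty => rwa [flipS_empty]
  | insert p R hp ih =>
    rw [flipS_insert f hp]
    exact Cl_update _ ih p (flipS_mem f hf R p)

/-! ### Changing signs at large primes -/

lemma mu_nonneg {f : ℕ → ℤ} {μ : ℝ} (hμ : ∀ x : ℕ, |Lf f x| ≤ μ * Real.sqrt x) : 0 ≤ μ := by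
  have h := (abs_nonneg _).trans (hμ 1)
  simpa using h

lemma sqrt_div_le' {X p : ℕ} (hX : 16 ≤ X) (hp : X < p) (y : ℕ) :
    Real.sqrt ((y / p : ℕ) : ℝ) ≤ (Real.sqrt X)⁻¹ * Real.sqrt y := by
  have h1 := sqrt_div_le y p
  have h2 : 0 < Real.sqrt X := Real.sqrt_pos.2 (by exact_mod_cast (by omega : 0 < X))
  refine h1.trans ?_
  rw [div_eq_inv_mul]
  have h3 : (Real.sqrt p)⁻¹ ≤ (Real.sqrt X)⁻¹ :=
    inv_anti₀ h2 (Real.sqrt_le_sqrt (by exact_mod_cast hp.le))
  exact mul_le_mul_of_nonneg_right h3 (Real.sqrt_nonneg _)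

lemma s_le {X : ℕ} (hX : 16 ≤ X) : (Real.sqrt X)⁻¹ ≤ 1 / 4 := by
  have h1 : (4 : ℝ) ≤ Real.sqrt X := by
    have : (16 : ℝ) ≤ X := by exact_mod_cast hX
    rw [show (4 : ℝ) = Real.sqrt 16 by
      rw [show (16 : ℝ) = 4 ^ 2 by norm_num, Real.sqrt_sq (by norm_num)]]
    exact Real.sqrt_le_sqrt this
  rw [inv_eq_one_div]
  exact one_div_le_one_div_of_le (by norm_num) h1

lemma flip_one_norm (g : ℕ → ℤ) (p X : ℕ) (hX : 16 ≤ X) (hp : p.Prime) (hpX : X < p) (hg : g p = 1)
    (B : ℝ) (hB0 : 0 ≤ B) (hB : ∀ y : ℕ, |Lf g y| ≤ B * Real.sqrt y) (y : ℕ) :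
    |Lf (Function.update g p (-g p)) y| ≤ B * Real.exp (3 * (Real.sqrt X)⁻¹) * Real.sqrt y := by
  set s : ℝ := (Real.sqrt X)⁻¹ with hs
  have hs0 : 0 ≤ s := by rw [hs]; positivity
  have hs1 : s ≤ 1 / 4 := s_le hX
  have hE : 1 + s + s * Real.exp (3 * s) ≤ Real.exp (3 * s) := by
    have h1 : 3 * s + 1 ≤ Real.exp (3 * s) := Real.add_one_le_exp _
    nlinarith
  induction y using Nat.strong_induction_on with
  | _ y ih =>
    rcases Nat.eq_zero_or_pos y with h0 | h0
    · subst h0; rw [Lf_zero]; simp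
    · have h1 : y / p < y := Nat.div_lt_self h0 hp.one_lt
      have h2 := ih _ h1
      have h3 := Lf_flip_le g p hp (Or.inl hg) y
      have h4 := hB y
      have h5 := hB (y / p)
      have h6 := sqrt_div_le' hX hpX y
      rw [← hs] at h6
      have h7 : B * Real.sqrt ((y / p : ℕ) : ℝ) ≤ B * (s * Real.sqrt y) :=
        mul_le_mul_of_nonneg_left h6 hB0
      have h8 : B * Real.exp (3 * s) * Real.sqrt ((y / p : ℕ) : ℝ) ≤
          B * Real.exp (3 * s) * (s * Real.sqrt y) :=
        mul_le_mul_of_nonneg_left h6 (by positivity)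
      calc |Lf (Function.update g p (-g p)) y|
          ≤ B * Real.sqrt y + B * (s * Real.sqrt y) + B * Real.exp (3 * s) * (s * Real.sqrt y) := by
            linarith
        _ = B * Real.sqrt y * (1 + s + s * Real.exp (3 * s)) := by ring
        _ ≤ B * Real.sqrt y * Real.exp (3 * s) := by gcongr
        _ = B * Real.exp (3 * s) * Real.sqrt y := by ring

theorem flip_norm (f : ℕ → ℤ) (R : Finset ℕ) (X : ℕ) (hX : 16 ≤ X)
    (hR : ∀ p ∈ R, p.Prime ∧ X < p ∧ f p = 1) (μ : ℝ) (hμ : ∀ x : ℕ, |Lf f x| ≤ μ * Real.sqrt x) (x : ℕ) :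
    |Lf (flipS f R) x| ≤ μ * Real.exp (3 * R.card / Real.sqrt X) * Real.sqrt x := by
  classical
  have hμ0 := mu_nonneg hμ
  induction R using Finset.induction_on generalizing x with
  | empty => rw [flipS_empty]; simpa using hμ x
  | insert p R hp ih =>
    have ih' := ih (fun q hq => hR q (mem_insert_of_mem hq))
    obtain ⟨h1, h2, h3⟩ := hR p (mem_insert_self p R)
    rw [flipS_insert f hp]
    have h4 := flip_one_norm (flipS f R) p X hX h1 h2 (by rw [flipS_apply_notMem f hp, h3])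
      (μ * Real.exp (3 * R.card / Real.sqrt X)) (by positivity) ih' x
    refine h4.trans (le_of_eq ?_)
    rw [card_insert_of_notMem hp, mul_assoc μ, ← Real.exp_add]
    congr 3
    push_cast
    field_simp

lemma mainS_empty (f : ℕ → ℤ) (x : ℕ) : mainL f ∅ x = Lf f x := by
  simp [mainL]

lemma mainS_insert (f : ℕ → ℤ) {p : ℕ} {R : Finset ℕ} (h : p ∉ R) (x : ℕ) :
    mainL f (insert p R) x = mainL f R x - 2 * mainL f R (x / p) := by
  classical
  unfold mainL
  rw [sum_powerset_insert h, mul_sum, sub_eq_add_neg, ← sum_neg_distrib]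
  congr 1
  refine sum_congr rfl fun T hT => ?_
  have hpT : p ∉ T := fun h' => h (mem_powerset.1 hT h')
  rw [card_insert_of_notMem hpT, prod_insert hpT, Nat.div_div_eq_div_mul]
  ring

theorem flip_main (f : ℕ → ℤ) (R : Finset ℕ) (X : ℕ) (hX : 16 ≤ X)
    (hR : ∀ p ∈ R, p.Prime ∧ X < p ∧ f p = 1) (μ : ℝ) (hμ : ∀ x : ℕ, |Lf f x| ≤ μ * Real.sqrt x) (x : ℕ) :
    |Lf (flipS f R) x - mainL f R x| ≤
      μ * (2 * R.card / X) * Real.exp (5 * R.card / Real.sqrt X) * Real.sqrt x := by
  classical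
  have hμ0 := mu_nonneg hμ
  have hX0 : (0 : ℝ) < X := by exact_mod_cast (by omega : 0 < X)
  set s : ℝ := (Real.sqrt X)⁻¹ with hs
  have hs0 : 0 ≤ s := by rw [hs]; positivity
  have hs1 : s ≤ 1 / 4 := s_le hX
  have hss : s * s = (X : ℝ)⁻¹ := by
    rw [hs, ← mul_inv, Real.mul_self_sqrt hX0.le]
  induction R using Finset.induction_on generalizing x with
  | empty => rw [flipS_empty, mainS_empty]; simp
  | insert p R hp ih =>
    have hR' : ∀ q ∈ R, q.Prime ∧ X < q ∧ f q = 1 := fun q hq => hR q (mem_insert_of_mem hq)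
    have ih' := ih hR'
    obtain ⟨h1, h2, h3⟩ := hR p (mem_insert_self p R)
    have hn := flip_norm f R X hX hR' μ hμ
    have hn' := flip_norm f (insert p R) X hX hR μ hμ
    have hg1 : flipS f R p = 1 := by rw [flipS_apply_notMem f hp, h3]
    have hf1 := Lf_flip (flipS f R) p h1 (Or.inl hg1) x
    have hf2 := Lf_flip (flipS f R) p h1 (Or.inl hg1) (x / p)
    rw [← flipS_insert f hp, hg1] at hf1 hf2
    simp only [Int.cast_one, one_mul] at hf1 hf2
    rw [mainS_insert f hp]
    set n : ℝ := (R.card : ℝ) with hndef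
    have hn0 : 0 ≤ n := by rw [hndef]; positivity
    have hcard : (((insert p R).card : ℕ) : ℝ) = n + 1 := by
      rw [card_insert_of_notMem hp]; push_cast; rfl
    have hq1 := sqrt_div_le' hX h2 x
    have hq2 : Real.sqrt ((x / p / p : ℕ) : ℝ) ≤ s * (s * Real.sqrt x) := by
      have h5 := sqrt_div_le' hX h2 (x / p)
      refine h5.trans ?_
      rw [← hs] at hq1 ⊢
      exact mul_le_mul_of_nonneg_left hq1 hs0
    rw [← hs] at hq1
    have hid : Lf (flipS f (insert p R)) x - (mainL f R x - 2 * mainL f R (x / p)) =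
        (Lf (flipS f R) x - mainL f R x) - 2 * (Lf (flipS f R) (x / p) - mainL f R (x / p)) +
          Lf (flipS f R) (x / p / p) + Lf (flipS f (insert p R)) (x / p / p) := by
      linarith
    rw [hid]
    have e1 := ih' x
    have e2 := ih' (x / p)
    have e3 := hn (x / p / p)
    have e4 := hn' (x / p / p)
    rw [hcard] at e4 ⊢
    have hdiv : ∀ c : ℝ, c / Real.sqrt X = c * s := fun c => by rw [hs, div_eq_mul_inv]
    have hdivX : ∀ c : ℝ, c / (X : ℝ) = c * (s * s) := fun c => by rw [hss, div_eq_mul_inv]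
    simp only [hdiv, hdivX] at e1 e2 e3 e4 ⊢
    set u : ℝ := Real.sqrt x with hu
    have hu0 : 0 ≤ u := Real.sqrt_nonneg _
    have t1 : |Lf (flipS f R) (x / p) - mainL f R (x / p)| ≤
        μ * (2 * n * (s * s)) * Real.exp (5 * n * s) * (s * u) :=
      e2.trans (mul_le_mul_of_nonneg_left hq1 (by positivity))
    have t2 : |Lf (flipS f R) (x / p / p)| ≤ μ * Real.exp (3 * n * s) * (s * (s * u)) :=
      e3.trans (mul_le_mul_of_nonneg_left hq2 (by positivity))
    have t3 : |Lf (flipS f (insert p R)) (x / p / p)| ≤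
        μ * Real.exp (3 * (n + 1) * s) * (s * (s * u)) :=
      e4.trans (mul_le_mul_of_nonneg_left hq2 (by positivity))
    have t2' : |Lf (flipS f R) (x / p / p)| ≤ μ * Real.exp (5 * (n + 1) * s) * (s * (s * u)) := by
      refine t2.trans (mul_le_mul_of_nonneg_right (mul_le_mul_of_nonneg_left
        (Real.exp_le_exp.2 ?_) hμ0) (by positivity))
      nlinarith [mul_nonneg hn0 hs0]
    have t3' : |Lf (flipS f (insert p R)) (x / p / p)| ≤
        μ * Real.exp (5 * (n + 1) * s) * (s * (s * u)) := by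
      refine t3.trans (mul_le_mul_of_nonneg_right (mul_le_mul_of_nonneg_left
        (Real.exp_le_exp.2 ?_) hμ0) (by positivity))
      nlinarith [mul_nonneg hn0 hs0]
    have hE : Real.exp (5 * n * s) * (1 + 2 * s) ≤ Real.exp (5 * (n + 1) * s) := by
      have h6 : 1 + 2 * s ≤ Real.exp (5 * s) := by
        have := Real.add_one_le_exp (5 * s)
        linarith
      calc Real.exp (5 * n * s) * (1 + 2 * s) ≤ Real.exp (5 * n * s) * Real.exp (5 * s) := by gcongr
        _ = Real.exp (5 * (n + 1) * s) := by rw [← Real.exp_add]; congr 1; ring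
    have habs : ∀ a b c d : ℝ, |a - 2 * b + c + d| ≤ |a| + 2 * |b| + |c| + |d| := by
      intro a b c d
      have i1 := abs_add_le (a - 2 * b + c) d
      have i2 := abs_add_le (a - 2 * b) c
      have i3 := abs_sub a (2 * b)
      have i4 : |2 * b| = 2 * |b| := by rw [abs_mul]; norm_num
      linarith
    refine (habs _ _ _ _).trans ?_
    calc |Lf (flipS f R) x - mainL f R x| + 2 * |Lf (flipS f R) (x / p) - mainL f R (x / p)| +
          |Lf (flipS f R) (x / p / p)| + |Lf (flipS f (insert p R)) (x / p / p)|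
        ≤ μ * (2 * n * (s * s)) * Real.exp (5 * n * s) * u +
          2 * (μ * (2 * n * (s * s)) * Real.exp (5 * n * s) * (s * u)) +
          μ * Real.exp (5 * (n + 1) * s) * (s * (s * u)) +
          μ * Real.exp (5 * (n + 1) * s) * (s * (s * u)) := by linarith
      _ = μ * (2 * n * (s * s)) * u * (Real.exp (5 * n * s) * (1 + 2 * s)) +
          2 * (s * s) * μ * u * Real.exp (5 * (n + 1) * s) := by ring
      _ ≤ μ * (2 * n * (s * s)) * u * Real.exp (5 * (n + 1) * s) +
          2 * (s * s) * μ * u * Real.exp (5 * (n + 1) * s) := by gcongr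
      _ = μ * (2 * (n + 1) * (s * s)) * Real.exp (5 * (n + 1) * s) * u := by ring

end Pool.Agent.Helper66.GL
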