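import Pool.Agent.Helper66.GL.StarR
import Pool.Agent.Helper66.MB.GGfr

/-!
# Block GL-GA (MP_a499ba_nt, Q2)

The event `GR r n₀ k` (star sums at the scale `2^k` at most `2^{k/2} / k^r`) fails for a fraction at most `C / k²`.

Proof: as `MB.GG_fr` (the case `r = 2`), with `la = s / (3 k^r)`, `lb = s / (3 k^(r+1))`, `s = √(2^k)`,
`B = 2 A₀ + 20 + 4 r` and `Wx_bound (B + 2 r + 4)`.
-/

set_option autoImplicit false

namespace Pool.Agent.Helper66.GL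

open Finset Pool.Agent.Helper92.GB Pool.Agent.Helper66.MB

theorem GR_fr (r n₀ : ℕ) : ∃ (C : ℝ) (k₁ : ℕ), 0 < C ∧ 1 ≤ k₁ ∧ ∀ k : ℕ, k₁ ≤ k → ∀ J : ℕ, 2 ^ (k + 1) ≤ J →
    fr J (fun ω => ¬ GR r n₀ k ω) ≤ C / (k : ℝ) ^ 2 := by
  obtain ⟨C₀, A₀, hC₀, hom⟩ := omega_short
  set B : ℕ := 2 * A₀ + 20 + 4 * r with hB
  obtain ⟨C₁, hC₁, hWx⟩ := Wx_bound (B + 2 * r + 4)
  obtain ⟨ka, hka⟩ := Filter.eventually_atTop.1 (GG_ev (8 * 2 ^ (3 * B)) (3 * B))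
  obtain ⟨kb, hkb⟩ := Filter.eventually_atTop.1 (GG_ev 46656 (6 * r))
  obtain ⟨kc, hkc⟩ := Filter.eventually_atTop.1 (GG_ev 1 (B + 2 * r + 2))
  refine ⟨81 * C₀ ^ 2 + 9 * 2 ^ B + 9 * 2 ^ B * (2 * C₁ * 2 ^ (B + 2 * r + 4)), max (max ka kb) (max kc 1),
    by positivity, le_trans (le_max_right _ _) (le_max_right _ _), ?_⟩
  intro k hk J hJ
  have hk1 : 1 ≤ k := le_trans (le_trans (le_max_right kc 1) (le_max_right _ _)) hk
  have hE1 := hka k (le_trans (le_trans (le_max_left ka kb) (le_max_left _ _)) hk)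
  have hE2 := hkb k (le_trans (le_trans (le_max_right ka kb) (le_max_left _ _)) hk)
  have hE3 := hkc k (le_trans (le_trans (le_max_left kc 1) (le_max_right _ _)) hk)
  have hK1 : (1 : ℝ) ≤ k := by exact_mod_cast hk1
  have hK0 : (0 : ℝ) < k := by linarith
  -- the parameters
  set w : ℕ := B * (Nat.log 2 (k + 2) + 1) with hw
  have hlog1 : k + 2 < 2 ^ (Nat.log 2 (k + 2) + 1) := Nat.lt_pow_succ_log_self (by norm_num) _
  have hlog2 : 2 ^ (Nat.log 2 (k + 2) + 1) ≤ 2 * (k + 2) := by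
    rw [pow_succ, mul_comm]
    exact Nat.mul_le_mul_left 2 (Nat.pow_log_le_self 2 (by omega))
  have hw1 : ((k : ℝ) + 2) ^ B ≤ 2 ^ w := by
    rw [hw, mul_comm, pow_mul]
    apply pow_le_pow_left₀ (by positivity)
    have : ((k + 2 : ℕ) : ℝ) ≤ ((2 ^ (Nat.log 2 (k + 2) + 1) : ℕ) : ℝ) := by exact_mod_cast hlog1.le
    push_cast at this
    exact this
  have hw2 : (2 : ℝ) ^ w ≤ (2 * ((k : ℝ) + 2)) ^ B := by
    rw [hw, mul_comm, pow_mul]
    apply pow_le_pow_left₀ (by positivity)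
    have : ((2 ^ (Nat.log 2 (k + 2) + 1) : ℕ) : ℝ) ≤ ((2 * (k + 2) : ℕ) : ℝ) := by exact_mod_cast hlog2
    push_cast at this
    exact this
  have hw3 : 3 * w + 3 ≤ k := by
    have h1 : (2 : ℝ) ^ (3 * w + 3) ≤ 2 ^ k := by
      calc (2 : ℝ) ^ (3 * w + 3) = 8 * (2 ^ w) ^ 3 := by rw [pow_add, mul_comm 3 w, pow_mul]; ring
        _ ≤ 8 * ((2 * ((k : ℝ) + 2)) ^ B) ^ 3 := by
            apply mul_le_mul_of_nonneg_left _ (by norm_num)
            exact pow_le_pow_left₀ (by positivity) hw2 3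
        _ = 8 * 2 ^ (3 * B) * ((k : ℝ) + 2) ^ (3 * B) := by
            rw [← pow_mul, mul_pow, mul_comm B 3]; ring
        _ ≤ 2 ^ k := hE1
    exact (pow_le_pow_iff_right₀ (by norm_num : (1 : ℝ) < 2)).1 h1
  set j₀ : ℕ := (k + 3) / 3 with hj₀
  set l : ℕ := k - w with hl
  have hwk : w + l = k := by omega
  have hkl : k - l = w := by omega
  have hjl : j₀ ≤ l := by omega
  have hlk : l ≤ k := by omega
  set s : ℝ := Real.sqrt (2 ^ k) with hs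
  have hs0 : 0 < s := Real.sqrt_pos.2 (by positivity)
  have hs2 : s ^ 2 = 2 ^ k := Real.sq_sqrt (by positivity)
  set la : ℝ := s / (3 * (k : ℝ) ^ r) with hla
  set lb : ℝ := s / (3 * (k : ℝ) ^ (r + 1)) with hlb
  have hla0 : 0 < la := by positivity
  have hlb0 : 0 < lb := by positivity
  -- the trivial bound
  have hj2 : (2 : ℝ) ^ j₀ ≤ la := by
    have h1 : (2 : ℝ) ^ (2 * j₀) * (9 * (k : ℝ) ^ (2 * r)) ≤ 2 ^ k := by
      have h2 : ((2 : ℝ) ^ (2 * j₀) * (9 * (k : ℝ) ^ (2 * r))) ^ 3 ≤ (2 ^ k) ^ 3 := by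
        have h3 : 2 * j₀ * 3 ≤ 2 * k + 6 := by omega
        calc ((2 : ℝ) ^ (2 * j₀) * (9 * (k : ℝ) ^ (2 * r))) ^ 3
            = 2 ^ (2 * j₀ * 3) * (729 * (k : ℝ) ^ (6 * r)) := by rw [mul_pow, ← pow_mul]; ring
          _ ≤ 2 ^ (2 * k + 6) * (729 * (k : ℝ) ^ (6 * r)) := by
              apply mul_le_mul_of_nonneg_right _ (by positivity)
              exact pow_le_pow_right₀ (by norm_num) h3
          _ = (2 ^ k) ^ 2 * (46656 * (k : ℝ) ^ (6 * r)) := by rw [pow_add, mul_comm 2 k, pow_mul]; ring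
          _ ≤ (2 ^ k) ^ 2 * 2 ^ k := by
              apply mul_le_mul_of_nonneg_left _ (by positivity)
              refine le_trans ?_ hE2
              apply mul_le_mul_of_nonneg_left _ (by norm_num)
              exact pow_le_pow_left₀ (by positivity) (by linarith) (6 * r)
          _ = (2 ^ k) ^ 3 := by ring
      exact le_of_pow_le_pow_left₀ (by norm_num) (by positivity) h2
    rw [hla, le_div_iff₀ (by positivity), hs]
    apply Real.le_sqrt_of_sq_le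
    calc ((2 : ℝ) ^ j₀ * (3 * (k : ℝ) ^ r)) ^ 2 = 2 ^ (2 * j₀) * (9 * (k : ℝ) ^ (2 * r)) := by
          rw [mul_pow, ← pow_mul, mul_comm j₀ 2]; ring
      _ ≤ 2 ^ k := h1
  -- the inclusion of events
  have hincl : fr J (fun ω => ¬ GR r n₀ k ω) ≤
      (∑ u ∈ Ico (2 ^ (k - l)) (2 ^ (k - l + 1)),
        fr J (fun ω => la < |Sm (u * 2 ^ l) (star ω (Ico n₀ J))|)) +
      ∑ j ∈ Ico j₀ l, ∑ v ∈ Ico (2 ^ (k - j)) (2 ^ (k - j + 1)),
        fr J (fun ω => lb < |Sm ((v + 1) * 2 ^ j) (star ω (Ico n₀ J)) -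
          Sm (v * 2 ^ j) (star ω (Ico n₀ J))|) := by
    have h1 : fr J (fun ω => ¬ GR r n₀ k ω) ≤ fr J (fun ω =>
        (∃ u ∈ Ico (2 ^ (k - l)) (2 ^ (k - l + 1)), la < |Sm (u * 2 ^ l) (star ω (Ico n₀ J))|) ∨
        (∃ j ∈ Ico j₀ l, ∃ v ∈ Ico (2 ^ (k - j)) (2 ^ (k - j + 1)),
          lb < |Sm ((v + 1) * 2 ^ j) (star ω (Ico n₀ J)) -
            Sm (v * 2 ^ j) (star ω (Ico n₀ J))|)) := by
      refine GG_fr_mono J fun ω hω => ?_
      by_contra hcon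
      rw [not_or] at hcon
      obtain ⟨hc1, hc2⟩ := hcon
      apply hω
      intro x hx hx'
      have h2 : Sm x (star ω (Ico n₀ (2 ^ (k + 1)))) = Sm x (star ω (Ico n₀ J)) := by
        rw [Sm_star_Ico ω n₀ x _ hx'.le, Sm_star_Ico ω n₀ x J (hx'.le.trans hJ)]
      rw [h2]
      have h3 := GG_chain (fun x => Sm x (star ω (Ico n₀ J))) k j₀ l hjl hlk la lb hlb0.le
        (fun u hu => by
          by_contra h; exact hc1 ⟨u, hu, not_le.1 h⟩)
        (fun j hj v hv => by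
          by_contra h; exact hc2 ⟨j, hj, v, hv, not_le.1 h⟩)
        (fun x y hxy => star_trivial ω _ x y hxy) x hx hx'
      refine h3.trans ?_
      have h4 : ((l - j₀ : ℕ) : ℝ) ≤ k := by
        exact_mod_cast (by omega : l - j₀ ≤ k)
      have h5 : ((l - j₀ : ℕ) : ℝ) * lb ≤ la := by
        calc ((l - j₀ : ℕ) : ℝ) * lb ≤ k * lb := mul_le_mul_of_nonneg_right h4 hlb0.le
          _ = la := by rw [hla, hlb, pow_succ]; field_simp
      calc la + ((l - j₀ : ℕ) : ℝ) * lb + 2 ^ j₀ ≤ la + la + la := by linarith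
        _ = Real.sqrt (2 ^ k) / (k : ℝ) ^ r := by
            rw [← hs, hla]
            have h6 : (k : ℝ) ^ r ≠ 0 := by positivity
            field_simp
            ring
    refine h1.trans ((GG_fr_or J _ _).trans (add_le_add (GG_fr_exists J _ _) ?_))
    refine (GG_fr_exists J _ _).trans (sum_le_sum fun j _ => ?_)
    exact GG_fr_exists J _ _
  -- part (b)
  have hKlog : ∀ y : ℕ, 1 ≤ y → y ≤ 2 ^ (k + 1) → 1 + Real.log y ≤ (k : ℝ) + 2 := by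
    intro y hy1 hy
    have h1 : Real.log y ≤ Real.log (2 ^ (k + 1)) := by
      apply Real.log_le_log (by exact_mod_cast hy1)
      exact_mod_cast hy
    rw [Real.log_pow] at h1
    have h2 : Real.log 2 ≤ 1 := by
      have := Real.log_two_lt_d9; linarith
    push_cast at h1
    nlinarith
  have hb : ∀ j ∈ Ico j₀ l, ∀ v ∈ Ico (2 ^ (k - j)) (2 ^ (k - j + 1)),
      fr J (fun ω => lb < |Sm ((v + 1) * 2 ^ j) (star ω (Ico n₀ J)) -
          Sm (v * 2 ^ j) (star ω (Ico n₀ J))|) ≤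
        81 * C₀ ^ 2 * 4 ^ j * ((k : ℝ) + 2) ^ (2 * A₀ + (4 * r + 4)) / 4 ^ k := by
    intro j hj v hv
    rw [mem_Ico] at hj hv
    have hxy : v * 2 ^ j < (v + 1) * 2 ^ j := Nat.mul_lt_mul_of_pos_right (Nat.lt_succ_self v) (by positivity)
    have hd : (v + 1) * 2 ^ j - v * 2 ^ j = 2 ^ j := by
      rw [add_mul, one_mul, Nat.add_sub_cancel_left]
    have hyk : (v + 1) * 2 ^ j ≤ 2 ^ (k + 1) := by
      calc (v + 1) * 2 ^ j ≤ 2 ^ (k - j + 1) * 2 ^ j := Nat.mul_le_mul_right _ hv.2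
        _ = 2 ^ (k + 1) := by rw [← pow_add]; congr 1; omega
    have hy3 : (v + 1) * 2 ^ j ≤ ((v + 1) * 2 ^ j - v * 2 ^ j) ^ 3 := by
      rw [hd, ← pow_mul]
      refine hyk.trans (Nat.pow_le_pow_right (by norm_num) (by omega))
    have h1 := fr_star_four n₀ J (v * 2 ^ j) ((v + 1) * 2 ^ j) lb hlb0
    have h2 := (short_four (Ico n₀ J) (v * 2 ^ j) ((v + 1) * 2 ^ j) hxy.le).trans (hom _ _ hxy hy3)
    rw [hd] at h2
    have h3 : (1 + Real.log (((v + 1) * 2 ^ j : ℕ) : ℝ)) ^ A₀ ≤ ((k : ℝ) + 2) ^ A₀ := by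
      apply pow_le_pow_left₀
      · have : 0 ≤ Real.log (((v + 1) * 2 ^ j : ℕ) : ℝ) := Real.log_natCast_nonneg _
        linarith
      · exact hKlog _ (by have : 0 < (v + 1) * 2 ^ j := by positivity
                          omega) hyk
    have h4 : ∑ T ∈ (Ico n₀ J).powerset, (3 : ℝ) ^ T.card *
        (Sm ((v + 1) * 2 ^ j) (dT T) - Sm (v * 2 ^ j) (dT T)) ^ 2 ≤ C₀ * 2 ^ j * ((k : ℝ) + 2) ^ A₀ := by
      refine h2.trans ?_
      push_cast at h3 ⊢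
      exact mul_le_mul_of_nonneg_left h3 (by positivity)
    have h5 : 0 ≤ ∑ T ∈ (Ico n₀ J).powerset, (3 : ℝ) ^ T.card *
        (Sm ((v + 1) * 2 ^ j) (dT T) - Sm (v * 2 ^ j) (dT T)) ^ 2 :=
      sum_nonneg fun T _ => by positivity
    have h6 := pow_le_pow_left₀ h5 h4 2
    refine h1.trans ?_
    have h7 : lb ^ 4 = 4 ^ k / (81 * (k : ℝ) ^ (4 * r + 4)) := by
      rw [hlb, div_pow, mul_pow, show s ^ 4 = (s ^ 2) ^ 2 by ring, hs2, ← pow_mul, mul_comm k 2,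
        pow_mul]
      norm_num
      ring
    rw [h7]
    calc _ ≤ (C₀ * 2 ^ j * ((k : ℝ) + 2) ^ A₀) ^ 2 / (4 ^ k / (81 * (k : ℝ) ^ (4 * r + 4))) :=
          div_le_div_of_nonneg_right h6 (by positivity)
      _ = 81 * C₀ ^ 2 * 4 ^ j * (((k : ℝ) + 2) ^ (2 * A₀) * (k : ℝ) ^ (4 * r + 4)) / 4 ^ k := by
          rw [mul_pow, mul_pow, ← pow_mul, ← pow_mul, mul_comm j 2, pow_mul 2 2 j, mul_comm A₀ 2]
          field_simp
          norm_num
      _ ≤ 81 * C₀ ^ 2 * 4 ^ j * ((k : ℝ) + 2) ^ (2 * A₀ + (4 * r + 4)) / 4 ^ k := by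
          apply div_le_div_of_nonneg_right _ (by positivity)
          apply mul_le_mul_of_nonneg_left _ (by positivity)
          rw [pow_add ((k : ℝ) + 2) (2 * A₀) (4 * r + 4)]
          apply mul_le_mul_of_nonneg_left _ (by positivity)
          exact pow_le_pow_left₀ hK0.le (by linarith) (4 * r + 4)
  have hbsum : (∑ j ∈ Ico j₀ l, ∑ v ∈ Ico (2 ^ (k - j)) (2 ^ (k - j + 1)),
        fr J (fun ω => lb < |Sm ((v + 1) * 2 ^ j) (star ω (Ico n₀ J)) -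
          Sm (v * 2 ^ j) (star ω (Ico n₀ J))|)) ≤ 81 * C₀ ^ 2 / (k : ℝ) ^ 2 := by
    have h1 : ∀ j ∈ Ico j₀ l, ∑ v ∈ Ico (2 ^ (k - j)) (2 ^ (k - j + 1)),
        fr J (fun ω => lb < |Sm ((v + 1) * 2 ^ j) (star ω (Ico n₀ J)) -
          Sm (v * 2 ^ j) (star ω (Ico n₀ J))|) ≤
        81 * C₀ ^ 2 * ((k : ℝ) + 2) ^ (2 * A₀ + (4 * r + 4)) / 2 ^ k * 2 ^ j := by
      intro j hj
      refine (sum_le_sum (hb j hj)).trans ?_
      rw [mem_Ico] at hj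
      rw [sum_const, Nat.card_Ico, nsmul_eq_mul]
      have h2 : ((2 ^ (k - j + 1) - 2 ^ (k - j) : ℕ) : ℝ) * 2 ^ j = 2 ^ k := by
        have h3 : 2 ^ (k - j + 1) - 2 ^ (k - j) = 2 ^ (k - j) := by rw [pow_succ]; omega
        rw [h3]; push_cast
        rw [← pow_add]; congr 1; omega
      have h4k : (4 : ℝ) ^ k = 2 ^ k * 2 ^ k := by rw [← mul_pow]; norm_num
      have h4j : (4 : ℝ) ^ j = 2 ^ j * 2 ^ j := by rw [← mul_pow]; norm_num
      have h5 : ((2 ^ (k - j + 1) - 2 ^ (k - j) : ℕ) : ℝ) *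
          (81 * C₀ ^ 2 * 4 ^ j * ((k : ℝ) + 2) ^ (2 * A₀ + (4 * r + 4)) / 4 ^ k) =
          (((2 ^ (k - j + 1) - 2 ^ (k - j) : ℕ) : ℝ) * 2 ^ j) *
            (81 * C₀ ^ 2 * ((k : ℝ) + 2) ^ (2 * A₀ + (4 * r + 4)) * 2 ^ j / (2 ^ k * 2 ^ k)) := by
        rw [h4k, h4j]; ring
      rw [h5, h2]
      apply le_of_eq
      field_simp
    refine (sum_le_sum h1).trans ?_
    rw [← mul_sum]
    have h2 : ∑ j ∈ Ico j₀ l, (2 : ℝ) ^ j ≤ 2 ^ l := by
      have h3 : ∑ j ∈ Ico j₀ l, (2 : ℝ) ^ j ≤ ∑ j ∈ range l, (2 : ℝ) ^ j := by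
        apply sum_le_sum_of_subset_of_nonneg
        · intro j hj; rw [mem_Ico] at hj; exact mem_range.2 hj.2
        · intros; positivity
      refine h3.trans ?_
      rw [geom_sum_eq (by norm_num)]
      norm_num
    have h3 : (2 : ℝ) ^ k = 2 ^ w * 2 ^ l := by rw [← pow_add, hwk]
    calc 81 * C₀ ^ 2 * ((k : ℝ) + 2) ^ (2 * A₀ + (4 * r + 4)) / 2 ^ k * ∑ j ∈ Ico j₀ l, (2 : ℝ) ^ j
        ≤ 81 * C₀ ^ 2 * ((k : ℝ) + 2) ^ (2 * A₀ + (4 * r + 4)) / 2 ^ k * 2 ^ l :=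
          mul_le_mul_of_nonneg_left h2 (by positivity)
      _ = 81 * C₀ ^ 2 * ((k : ℝ) + 2) ^ (2 * A₀ + (4 * r + 4)) / 2 ^ w := by
          rw [h3]; field_simp
      _ ≤ 81 * C₀ ^ 2 * ((k : ℝ) + 2) ^ (2 * A₀ + (4 * r + 4)) / ((k : ℝ) + 2) ^ B := by
          apply div_le_div_of_nonneg_left (by positivity) (by positivity) hw1
      _ = 81 * C₀ ^ 2 / ((k : ℝ) + 2) ^ 16 := by
          have hb8 : ((k : ℝ) + 2) ^ B = ((k : ℝ) + 2) ^ (2 * A₀ + (4 * r + 4)) * ((k : ℝ) + 2) ^ 16 := by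
            rw [← pow_add]; congr 1; omega
          have hb9 : ((k : ℝ) + 2) ^ (2 * A₀ + (4 * r + 4)) ≠ 0 := by positivity
          have hb10 : ((k : ℝ) + 2) ^ 16 ≠ 0 := by positivity
          rw [hb8, div_eq_div_iff (mul_ne_zero hb9 hb10) hb10]
          ring
      _ ≤ 81 * C₀ ^ 2 / (k : ℝ) ^ 2 := by
          apply div_le_div_of_nonneg_left (by positivity) (by positivity)
          calc (k : ℝ) ^ 2 ≤ ((k : ℝ) + 2) ^ 2 := pow_le_pow_left₀ hK0.le (by linarith) 2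
            _ ≤ ((k : ℝ) + 2) ^ 16 := pow_le_pow_right₀ (by linarith) (by norm_num)
  -- part (a)
  have ha : ∀ u ∈ Ico (2 ^ (k - l)) (2 ^ (k - l + 1)),
      fr J (fun ω => la < |Sm (u * 2 ^ l) (star ω (Ico n₀ J))|) ≤
        (1 + 2 * C₁ * 2 ^ (B + 2 * r + 4) * 2 ^ k / ((k : ℝ) + 2) ^ (B + 2 * r + 4)) * (9 * (k : ℝ) ^ (2 * r) / 2 ^ k) := by
    intro u hu
    rw [mem_Ico] at hu
    have hx1 : 2 ^ k ≤ u * 2 ^ l := by
      calc 2 ^ k = 2 ^ (k - l) * 2 ^ l := by rw [← pow_add]; congr 1; omega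
        _ ≤ u * 2 ^ l := Nat.mul_le_mul_right _ hu.1
    have hx2 : u * 2 ^ l ≤ 2 ^ (k + 1) := by
      calc u * 2 ^ l ≤ 2 ^ (k - l + 1) * 2 ^ l := Nat.mul_le_mul_right _ hu.2.le
        _ = 2 ^ (k + 1) := by rw [← pow_add]; congr 1; omega
    have hx0 : 1 ≤ u * 2 ^ l := le_trans Nat.one_le_two_pow hx1
    have h1 := fr_star_two n₀ J (u * 2 ^ l) la hla0
    have h2 := (second_count (Ico n₀ J) (u * 2 ^ l)).trans (add_le_add le_rfl (hWx _ hx0))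
    have h3 : ((k : ℝ) + 2) / 2 ≤ 1 + Real.log ((u * 2 ^ l : ℕ) : ℝ) := by
      have h4 : Real.log (2 ^ k) ≤ Real.log ((u * 2 ^ l : ℕ) : ℝ) := by
        apply Real.log_le_log (by positivity)
        exact_mod_cast hx1
      rw [Real.log_pow] at h4
      have h5 := Real.log_two_gt_d9
      nlinarith
    have h4 : C₁ * ((u * 2 ^ l : ℕ) : ℝ) / (1 + Real.log ((u * 2 ^ l : ℕ) : ℝ)) ^ (B + 2 * r + 4) ≤
        2 * C₁ * 2 ^ (B + 2 * r + 4) * 2 ^ k / ((k : ℝ) + 2) ^ (B + 2 * r + 4) := by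
      have h5 : ((u * 2 ^ l : ℕ) : ℝ) ≤ 2 * 2 ^ k := by
        have : ((u * 2 ^ l : ℕ) : ℝ) ≤ ((2 ^ (k + 1) : ℕ) : ℝ) := by exact_mod_cast hx2
        push_cast at this ⊢
        rw [pow_succ] at this
        linarith
      have h6 : (((k : ℝ) + 2) / 2) ^ (B + 2 * r + 4) ≤ (1 + Real.log ((u * 2 ^ l : ℕ) : ℝ)) ^ (B + 2 * r + 4) :=
        pow_le_pow_left₀ (by positivity) h3 _
      calc _ ≤ C₁ * (2 * 2 ^ k) / (((k : ℝ) + 2) / 2) ^ (B + 2 * r + 4) := by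
            apply div_le_div₀ (by positivity) _ (by positivity) h6
            exact mul_le_mul_of_nonneg_left h5 hC₁.le
        _ = 2 * C₁ * 2 ^ (B + 2 * r + 4) * 2 ^ k / ((k : ℝ) + 2) ^ (B + 2 * r + 4) := by
            rw [div_pow]; field_simp
    refine h1.trans ?_
    have h7 : la ^ 2 = 2 ^ k / (9 * (k : ℝ) ^ (2 * r)) := by
      rw [hla, div_pow, hs2]; ring
    rw [h7, div_div_eq_mul_div, mul_div_assoc]
    apply mul_le_mul_of_nonneg_right _ (by positivity)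
    exact h2.trans (add_le_add le_rfl h4)
  have hasum : (∑ u ∈ Ico (2 ^ (k - l)) (2 ^ (k - l + 1)),
        fr J (fun ω => la < |Sm (u * 2 ^ l) (star ω (Ico n₀ J))|)) ≤
      (9 * 2 ^ B + 9 * 2 ^ B * (2 * C₁ * 2 ^ (B + 2 * r + 4))) / (k : ℝ) ^ 2 := by
    refine (sum_le_sum ha).trans ?_
    rw [sum_const, Nat.card_Ico, nsmul_eq_mul]
    have h3 : 2 ^ (k - l + 1) - 2 ^ (k - l) = 2 ^ w := by rw [pow_succ, hkl]; omega
    rw [h3]
    push_cast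
    have hP : (0 : ℝ) < (k : ℝ) + 2 := by linarith
    have h4 : (k : ℝ) ^ (2 * r) ≤ ((k : ℝ) + 2) ^ (2 * r) := pow_le_pow_left₀ hK0.le (by linarith) (2 * r)
    have h5 : (k : ℝ) ^ 2 ≤ ((k : ℝ) + 2) ^ 2 := pow_le_pow_left₀ hK0.le (by linarith) 2
    calc (2 : ℝ) ^ w * ((1 + 2 * C₁ * 2 ^ (B + 2 * r + 4) * 2 ^ k / ((k : ℝ) + 2) ^ (B + 2 * r + 4)) *
          (9 * (k : ℝ) ^ (2 * r) / 2 ^ k))
        ≤ (2 * ((k : ℝ) + 2)) ^ B * ((1 + 2 * C₁ * 2 ^ (B + 2 * r + 4) * 2 ^ k / ((k : ℝ) + 2) ^ (B + 2 * r + 4)) *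
          (9 * ((k : ℝ) + 2) ^ (2 * r) / 2 ^ k)) := by
          apply mul_le_mul hw2 _ (by positivity) (by positivity)
          apply mul_le_mul_of_nonneg_left _ (by positivity)
          apply div_le_div_of_nonneg_right _ (by positivity)
          linarith
      _ = 9 * 2 ^ B * (((k : ℝ) + 2) ^ (B + 2 * r) / 2 ^ k) +
          9 * 2 ^ B * (2 * C₁ * 2 ^ (B + 2 * r + 4)) / ((k : ℝ) + 2) ^ 4 := by
          rw [mul_pow, pow_add ((k : ℝ) + 2) (B + 2 * r) 4, pow_add ((k : ℝ) + 2) B (2 * r)]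
          field_simp
      _ ≤ 9 * 2 ^ B * (1 / (k : ℝ) ^ 2) + 9 * 2 ^ B * (2 * C₁ * 2 ^ (B + 2 * r + 4)) / (k : ℝ) ^ 2 := by
          apply add_le_add
          · apply mul_le_mul_of_nonneg_left _ (by positivity)
            rw [div_le_div_iff₀ (by positivity) (by positivity), one_mul]
            calc ((k : ℝ) + 2) ^ (B + 2 * r) * (k : ℝ) ^ 2 ≤ ((k : ℝ) + 2) ^ (B + 2 * r) * ((k : ℝ) + 2) ^ 2 :=
                  mul_le_mul_of_nonneg_left h5 (by positivity)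
              _ = 1 * ((k : ℝ) + 2) ^ (B + 2 * r + 2) := by rw [← pow_add, one_mul]
              _ ≤ 2 ^ k := hE3
          · apply div_le_div_of_nonneg_left (by positivity) (by positivity)
            exact h5.trans (pow_le_pow_right₀ (by linarith) (by norm_num))
      _ = _ := by ring
  refine hincl.trans ((add_le_add hasum hbsum).trans (le_of_eq ?_))
  ring

end Pool.Agent.Helper66.GL
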