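import Pool.Agent.Helper66.GL.StageLA

/-!
# MP_a499ba_nt, Q2: analogue of `Pool.Agent.Helper66.MB.Stage`

The statements and proofs of `Helper66.MB.Stage` with the summatory function `Lf f` (completely multiplicative extension) in place of
`Mf f` (squarefree extension), `mainL` in place of `mainS` and `ClL` in place of `Cl`. See that file for the proofs in words.
-/

set_option autoImplicit false

namespace Pool.Agent.Helper66.GL

open Finset Pool.Agent.Helper92.GB Pool.Agent.Helper66.MB Filter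

theorem exists_max (f : ℕ → ℤ) (h : ClL f) : ∃ (N : ℕ) (μ : ℝ), 1 ≤ N ∧ 1 ≤ μ ∧
    |Lf f N| = μ * Real.sqrt N ∧ ∀ x : ℕ, |Lf f x| ≤ μ * Real.sqrt x :=
  exists_max' f h

/-- Lower bound for the main term at a point of `main_lower`. -/
theorem term_lower (c r : ℕ) (X L z A μ M N sx : ℝ) (hX : 0 < X) (hc : 1 ≤ c) (hrc : r ≤ c)
    (hz : z = 2 * c / Real.sqrt X) (hA0 : 0 ≤ A) (hA : A ≤ z ^ r / (r.factorial : ℝ))
    (hμ : 0 ≤ μ) (hM : |M| = μ * Real.sqrt N) (hL : 0 < L) (hrL : (r : ℝ) ≤ L)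
    (hrc2 : (r : ℝ) ^ 2 / c ≤ 1)
    (hsx : sx ≤ Real.sqrt N * Real.sqrt X ^ r * (1 + r / L)) :
    μ * A * (1 - (r : ℝ) ^ 2 / c) * (1 - r / L) * sx ≤ |(-2 : ℝ) ^ r * (c.choose r) * M| := by
  have hs : 0 < Real.sqrt X := Real.sqrt_pos.2 hX
  have hsr : 0 < Real.sqrt X ^ r := pow_pos hs r
  have hf : (0 : ℝ) < r.factorial := by exact_mod_cast r.factorial_pos
  have e1 : |(-2 : ℝ) ^ r * (c.choose r) * M| = 2 ^ r * (c.choose r) * (μ * Real.sqrt N) := by
    rw [abs_mul, abs_mul, abs_pow, abs_neg, abs_two, Nat.abs_cast, hM]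
  have e2 := choose_lower hrc hc
  have hu : 0 ≤ 1 - (r : ℝ) ^ 2 / c := by linarith
  have e3 : z ^ r / (r.factorial : ℝ) * Real.sqrt X ^ r * (1 - (r : ℝ) ^ 2 / c) ≤
      2 ^ r * (c.choose r : ℝ) := by
    have : z ^ r / (r.factorial : ℝ) * Real.sqrt X ^ r * (1 - (r : ℝ) ^ 2 / c) =
        2 ^ r * ((c : ℝ) ^ r / (r.factorial : ℝ) * (1 - (r : ℝ) ^ 2 / c)) := by
      rw [hz, div_pow, mul_pow]
      field_simp
    rw [this]
    gcongr
  have hrL0 : 0 ≤ (r : ℝ) / L := by positivity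
  have hrL1 : (r : ℝ) / L ≤ 1 := by rw [div_le_one hL]; exact hrL
  have e4 : (1 - r / L) * sx ≤ Real.sqrt N * Real.sqrt X ^ r := by
    calc (1 - r / L) * sx ≤ (1 - r / L) * (Real.sqrt N * Real.sqrt X ^ r * (1 + r / L)) := by
          gcongr
      _ = Real.sqrt N * Real.sqrt X ^ r * (1 - (r / L) ^ 2) := by ring
      _ ≤ Real.sqrt N * Real.sqrt X ^ r * 1 := by
          gcongr
          nlinarith [sq_nonneg ((r : ℝ) / L)]
      _ = _ := mul_one _
  rw [e1]
  calc μ * A * (1 - (r : ℝ) ^ 2 / c) * (1 - r / L) * sx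
      = μ * (A * (1 - (r : ℝ) ^ 2 / c)) * ((1 - r / L) * sx) := by ring
    _ ≤ μ * (A * (1 - (r : ℝ) ^ 2 / c)) * (Real.sqrt N * Real.sqrt X ^ r) := by gcongr
    _ ≤ μ * (z ^ r / (r.factorial : ℝ) * (1 - (r : ℝ) ^ 2 / c)) * (Real.sqrt N * Real.sqrt X ^ r) := by
        gcongr
    _ = μ * Real.sqrt N * (z ^ r / (r.factorial : ℝ) * Real.sqrt X ^ r * (1 - (r : ℝ) ^ 2 / c)) := by ring
    _ ≤ μ * Real.sqrt N * (2 ^ r * (c.choose r : ℝ)) := by gcongr
    _ = _ := by ring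

/-- All the largeness conditions on `X`. -/
theorem large (b δ μ C : ℝ) (N : ℕ) (hb : 0 < b) (hδ : 0 < δ)
    (z₀ : ℝ) (x₀ x₁ : ℝ) : ∀ᶠ X : ℝ in atTop,
      100 ≤ Real.log X ∧ 16 ≤ X ∧ x₀ ≤ X ∧ x₁ ≤ X ∧ 1 ≤ el X ∧
      μ * Real.exp (z₀ + 1) < b * el X ∧
      b * el X * (3 * Real.log X + 6) < Real.sqrt X ∧
      (12 * (b * el X)) ^ 2 ≤ Real.log (Real.log X) ∧
      C * rho (X ^ ((1 : ℝ) / 5)) * (12 * (b * el X)) ^ 2 ≤ δ / 12 ∧
      μ / X ≤ δ / 12 ∧
      μ * ((12 * (b * el X)) ^ 2) ^ 4 / Real.sqrt X ≤ δ / 12 ∧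
      2 * N * Real.log (Real.log X) ≤ Real.log X ∧
      4 / Real.sqrt X ≤ δ / (16 * b) ∧
      2 * Real.log (Real.log X) / Real.sqrt X ≤ δ / (16 * b) ∧
      Real.log (Real.log X) / Real.log X ≤ δ / (16 * b) ∧
      Real.sqrt X * Real.log X ≤ X ^ ((2 : ℝ) / 3) := by
  have hlog := Real.tendsto_log_atTop
  have hll : Tendsto (fun X : ℝ => Real.log (Real.log X)) atTop atTop := hlog.comp hlog
  have hsq : Tendsto Real.sqrt atTop atTop := Real.tendsto_sqrt_atTop
  have hel := el_tendsto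
  -- log x / sqrt x -> 0
  have hls : Tendsto (fun X : ℝ => Real.log X / Real.sqrt X) atTop (nhds 0) := by
    have := (isLittleO_log_rpow_atTop (show (0 : ℝ) < 1 / 2 by norm_num)).tendsto_div_nhds_zero
    simpa [Real.sqrt_eq_rpow] using this
  have hlll : Tendsto (fun X : ℝ => Real.log (Real.log X) / Real.log X) atTop (nhds 0) := by
    have := (isLittleO_log_rpow_atTop (show (0 : ℝ) < 1 by norm_num)).tendsto_div_nhds_zero
    simp only [Real.rpow_one] at this
    exact this.comp hlog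
  have hlls : Tendsto (fun X : ℝ => Real.log (Real.log X) / Real.sqrt X) atTop (nhds 0) := by
    have h := hlll.mul hls
    rw [mul_zero] at h
    refine h.congr' ?_
    filter_upwards [hlog.eventually_gt_atTop 0, eventually_gt_atTop 0] with X h1 h2
    have : Real.sqrt X ≠ 0 := (Real.sqrt_pos.2 h2).ne'
    field_simp
  have h16 : 0 < δ / (16 * b) := by positivity
  have h12 : 0 < δ / 12 := by positivity
  have hlq : Tendsto (fun X : ℝ => Real.log X / X ^ ((1 : ℝ) / 4)) atTop (nhds 0) :=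
    (isLittleO_log_rpow_atTop (show (0 : ℝ) < 1 / 4 by norm_num)).tendsto_div_nhds_zero
  have hl6 : Tendsto (fun X : ℝ => Real.log X / X ^ ((1 : ℝ) / 6)) atTop (nhds 0) :=
    (isLittleO_log_rpow_atTop (show (0 : ℝ) < 1 / 6 by norm_num)).tendsto_div_nhds_zero
  have k7 := (hlq.pow 2).const_mul (b * 9)
  have k8 := (el_small 2).const_mul ((12 * b) ^ 2)
  have k9 := rho_el.const_mul (C * (12 * b) ^ 2)
  have k10 : Tendsto (fun X : ℝ => μ / X) atTop (nhds 0) := tendsto_const_nhds.div_atTop tendsto_id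
  have k11 := ((el_small 8).mul hlls).const_mul (μ * (12 * b) ^ 8)
  have k12 := hlll.const_mul (2 * (N : ℝ))
  have k13 : Tendsto (fun X : ℝ => 4 / Real.sqrt X) atTop (nhds 0) := tendsto_const_nhds.div_atTop hsq
  have k14 := hlls.const_mul 2
  simp only [mul_zero, ne_eq, OfNat.ofNat_ne_zero, not_false_eq_true, zero_pow] at k7 k8 k9 k11 k12 k14
  filter_upwards [hlog.eventually_ge_atTop 100, eventually_ge_atTop 16, eventually_ge_atTop x₀,
    eventually_ge_atTop x₁, hel.eventually_ge_atTop 1,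
    (hel.const_mul_atTop hb).eventually_gt_atTop (μ * Real.exp (z₀ + 1)),
    k7.eventually (gt_mem_nhds one_pos), k8.eventually (gt_mem_nhds one_pos),
    k9.eventually (gt_mem_nhds h12), k10.eventually (gt_mem_nhds h12),
    k11.eventually (gt_mem_nhds h12), k12.eventually (gt_mem_nhds one_pos),
    k13.eventually (gt_mem_nhds h16), k14.eventually (gt_mem_nhds h16),
    hlll.eventually (gt_mem_nhds h16), hl6.eventually (gt_mem_nhds one_pos),
    hll.eventually_ge_atTop 1, (el_small 1).eventually (gt_mem_nhds one_pos)]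
    with X a1 a2 a3 a4 a5 a6 a7 a8 a9 a10 a11 a12 a13 a14 a15 a16 a17 a18
  have hX0 : 0 < X := by linarith
  have hs0 : 0 < Real.sqrt X := Real.sqrt_pos.2 hX0
  have hl0 : 0 < Real.log X := by linarith
  have hll0 : 0 < Real.log (Real.log X) := by linarith
  refine ⟨a1, a2, a3, a4, a5, a6, ?_, ?_, ?_, a10.le, ?_, ?_, a13.le, ?_, a15.le, ?_⟩
  · rw [pow_one, div_lt_one hll0] at a18
    have e1 : Real.log (Real.log X) ≤ Real.log X := by
      have := Real.log_le_sub_one_of_pos hl0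
      linarith
    have e2 : el X ≤ Real.log X := a18.le.trans e1
    have e3 : 3 * Real.log X + 6 ≤ 9 * Real.log X := by linarith
    have e4 : (X ^ ((1 : ℝ) / 4)) ^ 2 = Real.sqrt X := by
      rw [Real.sqrt_eq_rpow, ← Real.rpow_natCast, ← Real.rpow_mul hX0.le]; norm_num
    rw [div_pow, e4, ← mul_div_assoc, div_lt_one hs0] at a7
    calc b * el X * (3 * Real.log X + 6) ≤ b * Real.log X * (9 * Real.log X) := by gcongr
      _ = b * 9 * Real.log X ^ 2 := by ring
      _ < Real.sqrt X := a7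
  · rw [← mul_div_assoc, div_lt_one hll0] at a8
    calc (12 * (b * el X)) ^ 2 = (12 * b) ^ 2 * el X ^ 2 := by ring
      _ ≤ _ := a8.le
  · calc C * rho (X ^ ((1 : ℝ) / 5)) * (12 * (b * el X)) ^ 2
        = C * (12 * b) ^ 2 * (rho (X ^ ((1 : ℝ) / 5)) * el X ^ 2) := by ring
      _ ≤ _ := a9.le
  · calc μ * ((12 * (b * el X)) ^ 2) ^ 4 / Real.sqrt X
        = μ * (12 * b) ^ 8 * (el X ^ 8 / Real.log (Real.log X) * (Real.log (Real.log X) / Real.sqrt X)) := by
          field_simp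
      _ ≤ _ := a11.le
  · rw [← mul_div_assoc, div_lt_one hl0] at a12
    exact a12.le
  · rw [mul_div_assoc]; exact a14.le
  · rw [div_lt_one (by positivity)] at a16
    calc Real.sqrt X * Real.log X ≤ X ^ ((1 : ℝ) / 2) * X ^ ((1 : ℝ) / 6) := by
          rw [Real.sqrt_eq_rpow]; gcongr
      _ = X ^ ((2 : ℝ) / 3) := by rw [← Real.rpow_add hX0]; norm_num

theorem aux4 {ε : ℝ} (h0 : 0 ≤ ε) (h1 : ε ≤ 1) :
    1 - 4 * ε ≤ (1 - ε) * (1 - ε) * (1 - ε) * (1 - ε) := by
  have h2 : 1 - 2 * ε ≤ (1 - ε) * (1 - ε) := by nlinarith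
  have h3 : 0 ≤ (1 - ε) * (1 - ε) := mul_self_nonneg _
  nlinarith [mul_self_nonneg ((1 - ε) * (1 - ε) - 1)]

theorem aux5 {a u v : ℝ} (ha : 0 ≤ a) (hu : 0 ≤ u) (h : 2 * a ≤ u * v) : a ≤ v * u := by
  linarith [mul_comm u v]

theorem aux6 {x L : ℝ} (hx : 0 ≤ x) (hL : 1 ≤ L) : x ≤ x * L := by nlinarith

theorem aux7 {A u : ℝ} (hA : 0 ≤ A) (hu : 0 ≤ u) : A * (1 - u) ≤ A := by nlinarith

theorem aux8 {B D l δ e : ℝ} (hl : 0 ≤ l) (hδ : 0 ≤ δ) (h : (B - δ) * e ≤ (B - δ / 2) * l)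
    (hD : D = (B - δ / 4) * l) : (B - δ) * e + δ / 6 * l ≤ D := by
  have : 0 ≤ δ * l := mul_nonneg hδ hl
  rw [hD]
  linarith

theorem aux9 {r c s z t : ℝ} (hr : 0 ≤ r) (hc : 0 ≤ c) (h1 : r ^ 2 * s ≤ r * (2 * c))
    (h2 : r ≤ t) : r ^ 2 * s ≤ 2 * t * c := by
  have : r * c ≤ t * c := mul_le_mul_of_nonneg_right h2 hc
  linarith

theorem stage' (f : ℕ → ℤ) (hC : ClL f) (hB : Bal f) (b δ : ℝ)
    (hb : 0 < b) (hδ : 0 < δ) (hδb : δ ≤ b) (X₀ : ℕ) :
    ∃ (X N : ℕ) (R : Finset ℕ), X₀ ≤ X ∧ X ≤ N ∧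
      (∀ p ∈ R, p.Prime ∧ X < p ∧ p ≤ 2 * X ∧ f p = 1) ∧
      (R.card : ℝ) ≤ Real.sqrt X * Real.log X ∧
      (∀ x : ℕ, X ≤ x → |Lf (flipS f R) x| ≤ (b + δ) * (Real.sqrt x * el x)) ∧
      (∃ x : ℕ, X ≤ x ∧ x ≤ N ∧ (b - δ) * (Real.sqrt x * el x) ≤ Lf (flipS f R) x) ∧
      (∃ x : ℕ, X ≤ x ∧ x ≤ N ∧ Lf (flipS f R) x ≤ -((b - δ) * (Real.sqrt x * el x))) := by
  obtain ⟨N, μ, hN, hμ, hMN, hmax⟩ := exists_max f hC
  obtain ⟨C, hC'⟩ := hC
  have hrho1 : 0 < rho ((1 : ℕ) : ℝ) := rho_pos (by norm_num)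
  have hrho1' : rho ((1 : ℕ) : ℝ) ≤ 1 := rho_le_one (by norm_num)
  have hC1 : 0 < C := by
    have h := hC' 1 le_rfl
    rw [Lf_one] at h
    simp only [abs_one, Nat.cast_one, Real.sqrt_one, mul_one] at h hrho1
    by_contra hcon
    push Not at hcon
    have := mul_nonpos_of_nonpos_of_nonneg hcon hrho1.le
    linarith
  obtain ⟨x₀, hx₀⟩ := el_mono
  have hδ1 : 0 < δ / (2 * b) := by positivity
  obtain ⟨x₁, hx₁⟩ := el_slow (δ / (2 * b)) hδ1
  set z₀ : ℝ := max 3 (16 * b / δ) with hz₀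
  have hz₀3 : 3 ≤ z₀ := le_max_left _ _
  have hz₀b : 16 * b / δ ≤ z₀ := le_max_right _ _
  obtain ⟨X₂, hX₂⟩ := eventually_atTop.1 (large b δ μ C N hb hδ z₀ x₀ x₁)
  obtain ⟨X, hXX, hBX⟩ := hB (max X₀ ⌈X₂⌉₊)
  have hXX₂ : X₂ ≤ (X : ℝ) := by
    have h1 : ⌈X₂⌉₊ ≤ X := (le_max_right _ _).trans hXX
    exact (Nat.le_ceil X₂).trans (by exact_mod_cast h1)
  obtain ⟨a1, a2, a3, a4, a5, a6, a7, a8, a9, a10, a11, a12, a13, a14, a15, a16⟩ := hX₂ X hXX₂
  set l := el (X : ℝ) with hl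
  set L := Real.log (X : ℝ) with hL
  have hX0 : (0 : ℝ) < X := by linarith
  have hXn : 16 ≤ X := by exact_mod_cast a2
  have hX1 : 1 ≤ X := by omega
  have hs0 : 0 < Real.sqrt X := Real.sqrt_pos.2 hX0
  have hs4 : 4 ≤ Real.sqrt X := by
    rw [show (4 : ℝ) = Real.sqrt 16 by rw [show (16 : ℝ) = 4 ^ 2 by norm_num]; simp]
    exact Real.sqrt_le_sqrt a2
  have hL0 : 0 < L := by linarith
  obtain ⟨c, hc1, hc2, hc3, hc4, hc5⟩ := choose_c b μ z₀ l X hμ (by linarith) (by linarith) a6 a7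
  set z : ℝ := 2 * c / Real.sqrt X with hz
  have hz3 : 3 ≤ z := hz₀3.trans hc1
  have hz0 : 0 ≤ z := by linarith
  have hcz : z * Real.sqrt X = 2 * c := by rw [hz]; field_simp
  have hcpos : 0 < c := by
    rcases Nat.eq_zero_or_pos c with h | h
    · exfalso; rw [hz, h] at hz3; simp at hz3; linarith
    · exact h
  have hc0 : (0 : ℝ) < c := by exact_mod_cast hcpos
  have hccard : (c : ℝ) ≤ Real.sqrt X * L := by
    have : 2 * (c : ℝ) ≤ L * Real.sqrt X := by rw [← hcz]; gcongr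
    exact aux5 hc0.le hL0.le this
  -- the set of primes
  have hcard : c ≤ ((Ioc X (X + ⌊(X : ℝ) / Real.log X⌋₊)).filter (fun p => p.Prime ∧ f p = 1)).card := by
    have : (c : ℝ) ≤ (((Ioc X (X + ⌊(X : ℝ) / Real.log X⌋₊)).filter
        (fun p => p.Prime ∧ f p = 1)).card : ℝ) := hccard.trans (a16.trans hBX)
    exact_mod_cast this
  obtain ⟨R, hRsub, hRcard⟩ := Finset.exists_subset_card_eq hcard
  have hR : ∀ p ∈ R, p.Prime ∧ X < p ∧ f p = 1 := by
    intro p hp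
    have h1 := hRsub hp
    rw [mem_filter, mem_Ioc] at h1
    exact ⟨h1.2.1, h1.1.1, h1.2.2⟩
  have hfl : ((⌊(X : ℝ) / Real.log X⌋₊ : ℕ) : ℝ) ≤ X / L := Nat.floor_le (by positivity)
  have hR' : ∀ p ∈ R, X < p ∧ (p : ℝ) ≤ X + X / Real.log X := by
    intro p hp
    have h1 := hRsub hp
    rw [mem_filter, mem_Ioc] at h1
    refine ⟨h1.1.1, ?_⟩
    have h2 : (p : ℝ) ≤ ((X + ⌊(X : ℝ) / Real.log X⌋₊ : ℕ) : ℝ) := by exact_mod_cast h1.1.2
    push_cast at h2
    linarith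
  have hR2 : ∀ p ∈ R, p ≤ 2 * X := by
    intro p hp
    have h1 := (hR' p hp).2
    have h2 : (X : ℝ) / L ≤ X := by
      rw [div_le_iff₀ hL0]; exact aux6 hX0.le (by linarith)
    have h3 : (p : ℝ) ≤ ((2 * X : ℕ) : ℝ) := by push_cast; linarith
    exact_mod_cast h3
  -- the small parameter of the tail
  set τ := C * rho ((X : ℝ) ^ ((1 : ℝ) / 5)) with hτ
  have hX5 : 1 ≤ (X : ℝ) ^ ((1 : ℝ) / 5) := Real.one_le_rpow (by linarith) (by norm_num)
  have hτ0 : 0 ≤ τ := mul_nonneg hC1.le (rho_pos hX5).le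
  have h2 : ∀ y : ℕ, X ≤ y ^ 5 → |Lf f y| ≤ τ * Real.sqrt y := by
    intro y hy
    have hy1 : 1 ≤ y := by
      rcases Nat.eq_zero_or_pos y with h | h
      · subst h; simp at hy; omega
      · exact h
    have hy2 : (X : ℝ) ^ ((1 : ℝ) / 5) ≤ y := by
      have h3 : (X : ℝ) ≤ (y : ℝ) ^ 5 := by exact_mod_cast hy
      calc (X : ℝ) ^ ((1 : ℝ) / 5) ≤ ((y : ℝ) ^ 5) ^ ((1 : ℝ) / 5) := by gcongr
        _ = y := by
          rw [← Real.rpow_natCast, ← Real.rpow_mul (by positivity)]; norm_num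
    have h3 := rho_anti hX5 hy2
    calc |Lf f y| ≤ C * Real.sqrt y * rho y := hC' y hy1
      _ ≤ C * Real.sqrt y * rho ((X : ℝ) ^ ((1 : ℝ) / 5)) := by gcongr
      _ = τ * Real.sqrt y := by rw [hτ]; ring
  -- error bounds
  have hzdef : 2 * (R.card : ℝ) / Real.sqrt X = z := by rw [hRcard]
  have e1 : τ * Real.exp z ≤ δ / 12 := (mul_le_mul_of_nonneg_left hc5 hτ0).trans a9
  have e3 : μ * (2 * R.card / X) * Real.exp (5 * R.card / Real.sqrt X) ≤ δ / 12 := by
    have h3 : 2 * (R.card : ℝ) / X = z / Real.sqrt X := by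
      rw [hRcard, hz]
      have : Real.sqrt X * Real.sqrt X = X := Real.mul_self_sqrt hX0.le
      field_simp
      rw [sq, this]
    have h4 : 5 * (R.card : ℝ) / Real.sqrt X = 5 / 2 * z := by
      rw [hRcard, hz]; ring
    have h5 : z ≤ Real.exp z := by
      have := Real.add_one_le_exp z
      linarith
    have h6 : z * Real.exp (5 / 2 * z) ≤ (Real.exp z) ^ 4 := by
      calc z * Real.exp (5 / 2 * z) ≤ Real.exp z * Real.exp (3 * z) := by
            gcongr; linarith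
        _ = (Real.exp z) ^ 4 := by
            rw [← Real.exp_add, ← Real.exp_nat_mul]; congr 1; push_cast; ring
    rw [h3, h4]
    calc μ * (z / Real.sqrt X) * Real.exp (5 / 2 * z) = μ * (z * Real.exp (5 / 2 * z)) / Real.sqrt X := by ring
      _ ≤ μ * (Real.exp z) ^ 4 / Real.sqrt X := by gcongr
      _ ≤ μ * ((12 * (b * l)) ^ 2) ^ 4 / Real.sqrt X := by gcongr
      _ ≤ δ / 12 := a11
  have hflip : ∀ x : ℕ, |Lf (flipS f R) x - mainL f R x| ≤ δ / 12 * Real.sqrt x := by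
    intro x
    refine (flip_main f R X hXn hR μ hmax x).trans ?_
    gcongr
  have hzl : z ≤ Real.log (Real.log X) - 1 := by
    have h3 : z + 1 ≤ Real.exp z := Real.add_one_le_exp z
    have h4 := hc5.trans a8
    linarith
  -- the points
  have point : ∀ r : ℕ, 1 ≤ r → (r : ℝ) ≤ z → Az z * (1 - 1 / z) ≤ z ^ r / (r.factorial : ℝ) →
      ∃ x : ℕ, X ≤ x ∧ x ≤ X ^ (r + 1) ∧
        |Lf (flipS f R) x - (-2 : ℝ) ^ r * (R.card.choose r) * Lf f N| ≤ δ / 6 * (Real.sqrt x * l) ∧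
        (b - δ) * (Real.sqrt x * el x) + δ / 6 * (Real.sqrt x * l) ≤
          |(-2 : ℝ) ^ r * (R.card.choose r) * Lf f N| := by
    intro r hr1 hrz hAr
    have hrN : 2 * (r : ℝ) * N ≤ Real.log X := by
      calc 2 * (r : ℝ) * N = 2 * N * r := by ring
        _ ≤ 2 * N * Real.log (Real.log X) := by gcongr; linarith
        _ ≤ Real.log X := a12
    obtain ⟨x, hx1, hx2, hx3, hx4⟩ := main_lower f R X a1 hR' τ hτ0 h2 N r hN hr1 hrN
    have hXx : X ≤ x := (Nat.le_self_pow (by omega) X).trans hx1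
    have hsx : 0 ≤ Real.sqrt x := Real.sqrt_nonneg _
    rw [hzdef] at hx4
    refine ⟨x, hXx, hx2, ?_, ?_⟩
    · have h3 := hflip x
      have h4 : |Lf (flipS f R) x - (-2 : ℝ) ^ r * (R.card.choose r) * Lf f N| ≤
          δ / 12 * Real.sqrt x + τ * Real.exp z * Real.sqrt x := by
        calc |Lf (flipS f R) x - (-2 : ℝ) ^ r * (R.card.choose r) * Lf f N|
            = |(Lf (flipS f R) x - mainL f R x) +
                (mainL f R x - (-2 : ℝ) ^ r * (R.card.choose r) * Lf f N)| := by ring_nf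
          _ ≤ _ := (abs_add_le _ _).trans (add_le_add h3 hx4)
      refine h4.trans ?_
      calc δ / 12 * Real.sqrt x + τ * Real.exp z * Real.sqrt x
          ≤ δ / 12 * Real.sqrt x + δ / 12 * Real.sqrt x := by gcongr
        _ = δ / 6 * (Real.sqrt x * 1) := by ring
        _ ≤ δ / 6 * (Real.sqrt x * l) := by gcongr
    · -- lower bound of the main term
      have hrc : r ≤ c := by
        have h3 : (r : ℝ) ≤ c := by
          have h4 : z * 4 ≤ 2 * c := by rw [← hcz]; gcongr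
          linarith
        exact_mod_cast h3
      have hr2c : (r : ℝ) ^ 2 / c ≤ δ / (16 * b) := by
        have h3 : (r : ℝ) ^ 2 / c ≤ 2 * Real.log (Real.log X) / Real.sqrt X := by
          rw [div_le_div_iff₀ hc0 hs0]
          have h4 : (r : ℝ) ^ 2 * Real.sqrt X ≤ r * (z * Real.sqrt X) := by
            rw [sq, mul_assoc]; gcongr
          rw [hcz] at h4
          have h5 : (r : ℝ) ≤ Real.log (Real.log X) := by linarith
          exact aux9 (z := z) (Nat.cast_nonneg r) hc0.le h4 h5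
        exact h3.trans a14
      have hε : δ / (16 * b) ≤ 1 / 16 := by
        rw [div_le_div_iff₀ (by positivity) (by norm_num)]; linarith
      have hε0 : 0 < δ / (16 * b) := by positivity
      have hrL : (r : ℝ) / L ≤ δ / (16 * b) := by
        refine le_trans ?_ a15
        gcongr
        linarith
      have hrL' : (r : ℝ) ≤ L := by
        rw [← div_le_one hL0]
        linarith
      have h1z : 1 / z ≤ δ / (16 * b) := by
        have h3 : 16 * b / δ ≤ z := hz₀b.trans hc1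
        rw [div_le_iff₀ hδ] at h3
        rw [div_le_div_iff₀ (by linarith) (by positivity)]
        linarith
      have hAz0 : 0 ≤ Az z := by
        have := Az_max hz0 0
        simp at this
        linarith
      have h1z0 : 0 ≤ 1 - 1 / z := by linarith
      have htl := term_lower c r X L z (Az z * (1 - 1 / z)) μ (Lf f N) N (Real.sqrt x) hX0 hcpos hrc hz
        (mul_nonneg hAz0 h1z0) hAr (by linarith) hMN hL0 hrL' (by linarith) hx3
      rw [hRcard]
      refine le_trans ?_ htl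
      set ε := δ / (16 * b) with hεdef
      have hbε : b * ε = δ / 16 := by rw [hεdef]; field_simp
      have k1 : 1 - 4 * ε ≤ (1 - ε) * (1 - ε) * (1 - ε) * (1 - ε) := aux4 hε0.le (by linarith)
      have k2 : b * l * (1 - 4 * ε) ≤
          μ * (Az z * (1 - 1 / z)) * (1 - (r : ℝ) ^ 2 / c) * (1 - r / L) := by
        calc b * l * (1 - 4 * ε) ≤ b * l * ((1 - ε) * (1 - ε) * (1 - ε) * (1 - ε)) := by gcongr
          _ = (b * l * (1 - ε)) * (1 - ε) * (1 - ε) * (1 - ε) := by ring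
          _ ≤ (b * l * (1 - 4 / Real.sqrt X)) * (1 - 1 / z) * (1 - (r : ℝ) ^ 2 / c) * (1 - r / L) := by
              have q1 : 0 ≤ 1 - ε := by linarith
              have q2 : 0 ≤ 1 - 4 / Real.sqrt X := by linarith
              have q3 : 0 ≤ 1 - (r : ℝ) ^ 2 / c := by linarith
              have q4 : 0 ≤ 1 - (r : ℝ) / L := by linarith
              gcongr
          _ ≤ (μ * Az z) * (1 - 1 / z) * (1 - (r : ℝ) ^ 2 / c) * (1 - r / L) := by
              have q3 : 0 ≤ 1 - (r : ℝ) ^ 2 / c := by linarith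
              have q4 : 0 ≤ 1 - (r : ℝ) / L := by linarith
              gcongr
          _ = _ := by ring
      have k3 : el x ≤ (1 + δ / (2 * b)) * l := by
        apply hx₁ X x a4 (by exact_mod_cast hXx)
        have h3 : (x : ℝ) ≤ (X : ℝ) ^ (r + 1) := by exact_mod_cast hx2
        refine h3.trans ?_
        rw [← Real.rpow_natCast]
        apply Real.rpow_le_rpow_of_exponent_le (by linarith)
        push_cast
        linarith
      have k4 : (b - δ) * el x ≤ (b - δ / 2) * l := by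
        have h3 : (b - δ) * el x ≤ (b - δ) * ((1 + δ / (2 * b)) * l) := by
          apply mul_le_mul_of_nonneg_left k3; linarith
        refine h3.trans ?_
        rw [← mul_assoc]
        gcongr
        have h4 : (b - δ) * (1 + δ / (2 * b)) = b - δ + δ / 2 - δ ^ 2 / (2 * b) := by
          field_simp
          ring
        rw [h4]
        have : 0 ≤ δ ^ 2 / (2 * b) := by positivity
        linarith
      have k5 : (b - δ) * el x + δ / 6 * l ≤ b * l * (1 - 4 * ε) := by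
        have h3 : b * l * (1 - 4 * ε) = (b - δ / 4) * l := by
          have : b * l * (1 - 4 * ε) = b * l - 4 * (b * ε) * l := by ring
          rw [this, hbε]; ring
        exact aux8 (by linarith) hδ.le k4 h3
      calc (b - δ) * (Real.sqrt x * el x) + δ / 6 * (Real.sqrt x * l)
          = ((b - δ) * el x + δ / 6 * l) * Real.sqrt x := by ring
        _ ≤ (b * l * (1 - 4 * ε)) * Real.sqrt x := by gcongr
        _ ≤ _ := by gcongr
  -- the two values of `r`
  set m := ⌊z⌋₊ with hm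
  have hm3 : 3 ≤ m := Nat.le_floor (by exact_mod_cast hz3)
  have hmz : (m : ℝ) ≤ z := Nat.floor_le hz0
  have hAz0 : 0 ≤ Az z := by
    have := Az_max hz0 0
    simp at this
    linarith
  have hr_m : Az z * (1 - 1 / z) ≤ z ^ m / (m.factorial : ℝ) := by
    have h3 : Az z = z ^ m / (m.factorial : ℝ) := rfl
    rw [← h3]
    exact aux7 hAz0 (by positivity)
  have hr_m' : Az z * (1 - 1 / z) ≤ z ^ (m - 1) / ((m - 1).factorial : ℝ) := Az_pred (by linarith)
  have hboth : ∀ s : Bool, ∃ x : ℕ, ∃ r : ℕ, (decide (Even r) = s) ∧ X ≤ x ∧ x ≤ X ^ (m + 1) ∧ r ≤ c ∧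
        |Lf (flipS f R) x - (-2 : ℝ) ^ r * (R.card.choose r) * Lf f N| ≤ δ / 6 * (Real.sqrt x * l) ∧
        (b - δ) * (Real.sqrt x * el x) + δ / 6 * (Real.sqrt x * l) ≤
          |(-2 : ℝ) ^ r * (R.card.choose r) * Lf f N| := by
    intro s
    have hmc : m ≤ c := by
      have h3 : (m : ℝ) ≤ c := by
        have h4 : z * 4 ≤ 2 * c := by rw [← hcz]; gcongr
        linarith
      exact_mod_cast h3
    by_cases hs : decide (Even m) = s
    · obtain ⟨x, h3, h4, h5, h6⟩ := point m (by omega) hmz hr_m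
      exact ⟨x, m, hs, h3, h4, hmc, h5, h6⟩
    · have hm1 : ((m - 1 : ℕ) : ℝ) ≤ z := by
        have : ((m - 1 : ℕ) : ℝ) ≤ (m : ℝ) := by exact_mod_cast Nat.sub_le m 1
        linarith
      obtain ⟨x, h3, h4, h5, h6⟩ := point (m - 1) (by omega) hm1 hr_m'
      refine ⟨x, m - 1, ?_, h3, h4.trans (Nat.pow_le_pow_right hX1 (by omega)), by omega, h5, h6⟩
      have h7 : Even (m - 1) ↔ ¬ Even m := by
        rw [Nat.even_sub (by omega)]
        simp [Nat.not_even_one]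
      cases s
      · simp only [decide_eq_false_iff_not, h7, not_not] at hs ⊢
        exact hs
      · simp only [decide_eq_true_eq, h7] at hs ⊢
        exact hs
  have hMne : Lf f N ≠ 0 := by
    intro h
    rw [h, abs_zero] at hMN
    have : 0 < μ * Real.sqrt N := by
      have : (0 : ℝ) < N := by exact_mod_cast hN
      positivity
    linarith
  -- positive and negative values
  have hpos : ∀ t : ℝ, t = 1 ∨ t = -1 → ∃ x : ℕ, X ≤ x ∧ x ≤ X ^ (m + 1) ∧
      (b - δ) * (Real.sqrt x * el x) ≤ t * Lf (flipS f R) x := by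
    intro t ht
    obtain ⟨x, r, hrs, h3, h4, hrc, h5, h6⟩ := hboth (decide (0 < t * Lf f N))
    refine ⟨x, h3, h4, ?_⟩
    have hch : (0 : ℝ) < (R.card.choose r : ℝ) := by
      rw [hRcard]; exact_mod_cast Nat.choose_pos hrc
    have hsign : 0 < t * ((-2 : ℝ) ^ r * (R.card.choose r) * Lf f N) := by
      have h7 : t * ((-2 : ℝ) ^ r * (R.card.choose r) * Lf f N) =
          (-2 : ℝ) ^ r * (t * Lf f N) * (R.card.choose r) := by ring
      rw [h7]
      apply mul_pos _ hch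
      by_cases he : Even r
      · have h8 : 0 < t * Lf f N := by
          simpa [he] using hrs.symm
        have : (0 : ℝ) < (-2) ^ r := he.pow_pos (by norm_num)
        positivity
      · have h8 : ¬ 0 < t * Lf f N := by
          simpa [he] using hrs.symm
        have h9 : t * Lf f N < 0 := by
          have h10 : t * Lf f N ≠ 0 := by
            apply mul_ne_zero _ hMne
            rcases ht with h | h <;> rw [h] <;> norm_num
          exact lt_of_le_of_ne (not_lt.1 h8) h10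
        have h11 : (-2 : ℝ) ^ r < 0 := (Nat.not_even_iff_odd.1 he).pow_neg (by norm_num)
        exact mul_pos_of_neg_of_neg h11 h9
    have habs : t * ((-2 : ℝ) ^ r * (R.card.choose r) * Lf f N) =
        |(-2 : ℝ) ^ r * (R.card.choose r) * Lf f N| := by
      rw [← abs_of_pos hsign, abs_mul]
      rcases ht with h | h <;> rw [h] <;> simp
    have h12 : |t * Lf (flipS f R) x - t * ((-2 : ℝ) ^ r * (R.card.choose r) * Lf f N)| ≤
        δ / 6 * (Real.sqrt x * l) := by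
      rw [← mul_sub, abs_mul]
      rcases ht with h | h <;> rw [h] <;> simpa using h5
    rw [habs] at h12
    have h13 := (abs_le.1 h12).1
    linarith
  refine ⟨X, X ^ (m + 1), R, (le_max_left _ _).trans hXX, Nat.le_self_pow (by omega) X,
    fun p hp => ⟨(hR p hp).1, (hR p hp).2.1, hR2 p hp, (hR p hp).2.2⟩, by rw [hRcard]; exact hccard, ?_, ?_, ?_⟩
  · intro x hx
    have h3 := hflip x
    have h4 := main_upper f R X a1 hR' μ τ hmax h2 (by rw [hzdef]; exact hc2) x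
    rw [hzdef] at h4
    have hsx : 0 ≤ Real.sqrt x := Real.sqrt_nonneg _
    have h5 : |Lf (flipS f R) x| ≤ Real.sqrt x * (μ * Az z + τ * Real.exp z + μ / X) + δ / 12 * Real.sqrt x := by
      calc |Lf (flipS f R) x| = |mainL f R x + (Lf (flipS f R) x - mainL f R x)| := by ring_nf
        _ ≤ _ := (abs_add_le _ _).trans (add_le_add h4 h3)
    have h6 : l ≤ el x := hx₀ X x a3 (by exact_mod_cast hx)
    calc |Lf (flipS f R) x| ≤ _ := h5
      _ ≤ Real.sqrt x * (b * l + δ / 12 + δ / 12) + δ / 12 * Real.sqrt x := by gcongr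
      _ = Real.sqrt x * (b * l + δ / 4 * 1) := by ring
      _ ≤ Real.sqrt x * (b * l + δ / 4 * l) := by gcongr
      _ ≤ Real.sqrt x * (b * l + δ * l) := by gcongr; linarith
      _ = (b + δ) * (Real.sqrt x * l) := by ring
      _ ≤ (b + δ) * (Real.sqrt x * el x) := by gcongr
  · obtain ⟨x, h3, h4, h5⟩ := hpos 1 (Or.inl rfl)
    exact ⟨x, h3, h4, by simpa using h5⟩
  · obtain ⟨x, h3, h4, h5⟩ := hpos (-1) (Or.inr rfl)
    exact ⟨x, h3, h4, by linarith⟩

theorem stage (f : ℕ → ℤ) (hf : ∀ n, f n = 1 ∨ f n = -1) (hC : ClL f) (hB : Bal f) (b δ : ℝ)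
    (hb : 0 < b) (hδ : 0 < δ) (X₀ : ℕ) :
    ∃ (X N : ℕ) (R : Finset ℕ), X₀ ≤ X ∧ X ≤ N ∧
      (∀ p ∈ R, p.Prime ∧ X < p ∧ p ≤ 2 * X ∧ f p = 1) ∧
      (R.card : ℝ) ≤ Real.sqrt X * Real.log X ∧
      (∀ x : ℕ, X ≤ x → |Lf (flipS f R) x| ≤ (b + δ) * (Real.sqrt x * el x)) ∧
      (∃ x : ℕ, X ≤ x ∧ x ≤ N ∧ (b - δ) * (Real.sqrt x * el x) ≤ Lf (flipS f R) x) ∧
      (∃ x : ℕ, X ≤ x ∧ x ≤ N ∧ Lf (flipS f R) x ≤ -((b - δ) * (Real.sqrt x * el x))) := by
  have _ := hf
  obtain ⟨x₂, hx₂⟩ := eventually_atTop.1 (el_tendsto.eventually_ge_atTop 0)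
  obtain ⟨X, N, R, h1, h2, h3, h4, h5, ⟨x, h6, h7, h8⟩, ⟨y, h9, h10, h11⟩⟩ :=
    stage' f hC hB b (min δ b) hb (lt_min hδ hb) (min_le_right _ _) (max X₀ ⌈x₂⌉₊)
  have hmin : min δ b ≤ δ := min_le_left _ _
  have hel : ∀ x : ℕ, X ≤ x → 0 ≤ Real.sqrt x * el x := by
    intro x hx
    refine mul_nonneg (Real.sqrt_nonneg _) (hx₂ x ?_)
    have h12 : ⌈x₂⌉₊ ≤ x := ((le_max_right _ _).trans h1).trans hx
    exact (Nat.le_ceil x₂).trans (by exact_mod_cast h12)
  refine ⟨X, N, R, (le_max_left _ _).trans h1, h2, h3, h4, ?_, ⟨x, h6, h7, ?_⟩, ⟨y, h9, h10, ?_⟩⟩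
  · intro x hx
    exact (h5 x hx).trans (mul_le_mul_of_nonneg_right (by linarith) (hel x hx))
  · exact le_trans (mul_le_mul_of_nonneg_right (by linarith) (hel x h6)) h8
  · refine h11.trans (neg_le_neg ?_)
    exact mul_le_mul_of_nonneg_right (by linarith) (hel y h9)

end Pool.Agent.Helper66.GL
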