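import Pool.Agent.Helper66.GL.GlueL
import Pool.Agent.Helper66.GL.ClassK
import Pool.Agent.Helper66.MB.Lim

/-!
# The final statement (MP_a499ba_nt, Q2)

The analogue of `Pool.Agent.Helper66.MB.Lim` for completely multiplicative functions with values `±1`.
-/

set_option autoImplicit false

namespace Pool.Agent.Helper66.GL

open Finset Pool.Agent.Helper92.GB Pool.Agent.Helper66.MB Filter

/-- The class: completely multiplicative, values `1` and `-1`, square root bounds for the twisted sums. -/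
structure LClass (g : ℕ → ℤ) : Prop where
  mul : ∀ m n : ℕ, 1 ≤ m → 1 ≤ n → g (m * n) = g m * g n
  sign : ∀ n : ℕ, 1 ≤ n → g n = 1 ∨ g n = -1
  bound : ∀ ε : ℝ, 0 < ε → ∃ C : ℝ, ∀ (q : ℕ) (χ : DirichletCharacter ℂ q) (t : ℝ) (N : ℕ),
    1 ≤ q → 1 ≤ N → ‖tw g χ t N‖ ≤ C * ((q : ℝ) * (1 + |t|) * N) ^ ε * (N : ℝ) ^ (1 / 2 : ℝ)

theorem LClass_cm (f : ℕ → ℤ) (hf : ∀ n, f n = 1 ∨ f n = -1) (h : PS f) : LClass (cm f) where
  mul m n hm hn := cm_mul f (by omega) (by omega)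
  sign n _ := cm_sign f hf n
  bound := class_K f hf (P3 f (fun p _ => hf p) h)

theorem main_gen_h48 (B : EReal) (b δ : ℕ → ℝ) (hb : ∀ j, 0 < b j) (hδ : ∀ j, 0 < δ j)
    (h1 : ∀ c : ℝ, B < c → ∃ J : ℕ, ∀ j, J ≤ j → b j + δ j ≤ c)
    (h2 : ∀ c : ℝ, (c : EReal) < B → ∃ J : ℕ, ∀ j, J ≤ j → c ≤ b j - δ j) :
    ∃ g : ℕ → ℤ, LClass g ∧
    liminf (fun x : ℝ => (((∑ n ∈ Icc 1 ⌊x⌋₊, (g n : ℝ)) /
      (Real.sqrt x * Real.log (Real.log (Real.log x)) ^ ((5 : ℝ) / 4)) : ℝ) : EReal)) atTop = -B ∧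
    limsup (fun x : ℝ => (((∑ n ∈ Icc 1 ⌊x⌋₊, (g n : ℝ)) /
      (Real.sqrt x * Real.log (Real.log (Real.log x)) ^ ((5 : ℝ) / 4)) : ℝ) : EReal)) atTop = B := by
  obtain ⟨f, X, hf, hPS, hX, hup, hlo1, hlo2⟩ := glue b δ hb hδ
  refine ⟨cm f, LClass_cm f hf hPS, ?_⟩
  obtain ⟨x₁, hx₁⟩ := el_mono
  obtain ⟨x₂, hx₂⟩ := (el_tendsto.eventually_gt_atTop 0).exists_forall_of_atTop
  have hXle : ∀ j, j ≤ X j := fun j => hX.le_apply
  -- upper bounds
  have hU : ∀ c : ℝ, B < c → ∀ᶠ x : ℝ in atTop,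
      |Lf f ⌊x⌋₊ / (Real.sqrt x * el x)| ≤ c := by
    intro c hc
    obtain ⟨J, hJ⟩ := h1 c hc
    filter_upwards [eventually_ge_atTop (X J : ℝ), eventually_ge_atTop (x₁ + 1),
      eventually_ge_atTop (x₂ + 1), eventually_ge_atTop 1] with x ha hb' hc' hd
    have hx0 : 0 < x := by linarith
    have hfl : x - 1 < (⌊x⌋₊ : ℝ) := Nat.sub_one_lt_floor x
    have hfl' : (⌊x⌋₊ : ℝ) ≤ x := Nat.floor_le hx0.le
    obtain ⟨j, hj, hj1, hj2⟩ := exists_bracket_h48 hX J ⌊x⌋₊ (Nat.le_floor ha)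
    have hM := hup j _ hj1 hj2
    have hel : 0 < el x := hx₂ x (by linarith)
    have hel' : 0 < el (⌊x⌋₊ : ℝ) := hx₂ _ (by linarith)
    have hmono : el (⌊x⌋₊ : ℝ) ≤ el x := hx₁ _ _ (by linarith) hfl'
    have hs : Real.sqrt (⌊x⌋₊ : ℝ) ≤ Real.sqrt x := Real.sqrt_le_sqrt hfl'
    have hsx : 0 < Real.sqrt x := Real.sqrt_pos.mpr hx0
    have hbd : 0 < b j + δ j := add_pos (hb j) (hδ j)
    rw [abs_div, abs_of_pos (mul_pos hsx hel), div_le_iff₀ (mul_pos hsx hel)]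
    calc |Lf f ⌊x⌋₊| ≤ (b j + δ j) * (Real.sqrt (⌊x⌋₊ : ℝ) * el (⌊x⌋₊ : ℝ)) := hM
      _ ≤ (b j + δ j) * (Real.sqrt x * el x) := by gcongr
      _ ≤ c * (Real.sqrt x * el x) := by
          have := hJ j hj
          gcongr
  -- lower bounds
  have hL : ∀ c : ℝ, (c : EReal) < B → ∃ᶠ x : ℝ in atTop,
      c ≤ Lf f ⌊x⌋₊ / (Real.sqrt x * el x) := by
    intro c hc
    obtain ⟨J, hJ⟩ := h2 c hc
    rw [frequently_atTop]
    intro a
    obtain ⟨j, hj1, hj2, hj3⟩ : ∃ j : ℕ, J ≤ j ∧ a ≤ j ∧ x₂ ≤ j ∧ 1 ≤ j := by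
      obtain ⟨m, hm⟩ := exists_nat_ge (max a x₂)
      refine ⟨max (max J m) 1, (le_max_left _ _).trans (le_max_left _ _), ?_, ?_, le_max_right _ _⟩
      · exact (le_max_left _ _).trans (hm.trans (by exact_mod_cast (le_max_right _ _).trans (le_max_left _ _)))
      · exact (le_max_right _ _).trans (hm.trans (by exact_mod_cast (le_max_right _ _).trans (le_max_left _ _)))
    obtain ⟨x, hx, hx'⟩ := hlo1 j
    have hjx : (j : ℝ) ≤ x := by exact_mod_cast (hXle j).trans hx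
    have h1x : (1 : ℝ) ≤ x := by exact_mod_cast hj3.2.trans ((hXle j).trans hx)
    have hel : 0 < el x := hx₂ x (hj3.1.trans hjx)
    have hsx : 0 < Real.sqrt (x : ℝ) := Real.sqrt_pos.mpr (by linarith)
    refine ⟨(x : ℝ), hj2.trans hjx, ?_⟩
    rw [Nat.floor_natCast, le_div_iff₀ (mul_pos hsx hel)]
    refine le_trans ?_ hx'
    have := hJ j hj1
    gcongr
  have hL' : ∀ c : ℝ, (c : EReal) < B → ∃ᶠ x : ℝ in atTop,
      Lf f ⌊x⌋₊ / (Real.sqrt x * el x) ≤ -c := by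
    intro c hc
    obtain ⟨J, hJ⟩ := h2 c hc
    rw [frequently_atTop]
    intro a
    obtain ⟨j, hj1, hj2, hj3⟩ : ∃ j : ℕ, J ≤ j ∧ a ≤ j ∧ x₂ ≤ j ∧ 1 ≤ j := by
      obtain ⟨m, hm⟩ := exists_nat_ge (max a x₂)
      refine ⟨max (max J m) 1, (le_max_left _ _).trans (le_max_left _ _), ?_, ?_, le_max_right _ _⟩
      · exact (le_max_left _ _).trans (hm.trans (by exact_mod_cast (le_max_right _ _).trans (le_max_left _ _)))
      · exact (le_max_right _ _).trans (hm.trans (by exact_mod_cast (le_max_right _ _).trans (le_max_left _ _)))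
    obtain ⟨x, hx, hx'⟩ := hlo2 j
    have hjx : (j : ℝ) ≤ x := by exact_mod_cast (hXle j).trans hx
    have h1x : (1 : ℝ) ≤ x := by exact_mod_cast hj3.2.trans ((hXle j).trans hx)
    have hel : 0 < el x := hx₂ x (hj3.1.trans hjx)
    have hsx : 0 < Real.sqrt (x : ℝ) := Real.sqrt_pos.mpr (by linarith)
    refine ⟨(x : ℝ), hj2.trans hjx, ?_⟩
    rw [Nat.floor_natCast, div_le_iff₀ (mul_pos hsx hel), neg_mul]
    refine le_trans hx' (neg_le_neg ?_)
    have := hJ j hj1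
    gcongr
  constructor
  · refine le_antisymm ?_ ?_
    · rw [← EReal.le_of_forall_lt_iff_le]
      intro z hz
      have hz' : ((-z : ℝ) : EReal) < B := by
        rw [EReal.coe_neg]
        exact EReal.neg_lt_comm.mp hz
      refine liminf_le_of_frequently_le ((hL' (-z) hz').mono fun x hx => ?_)
      rw [neg_neg] at hx
      exact EReal.coe_le_coe_iff.mpr hx
    · rw [← EReal.ge_of_forall_gt_iff_ge]
      intro z hz
      have hz' : B < ((-z : ℝ) : EReal) := by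
        rw [EReal.coe_neg]
        exact EReal.lt_neg_comm.mp hz
      refine le_liminf_of_le (by isBoundedDefault) ((hU (-z) hz').mono fun x hx => ?_)
      have := (abs_le.mp hx).1
      rw [neg_neg] at this
      exact EReal.coe_le_coe_iff.mpr this
  · refine le_antisymm ?_ ?_
    · rw [← EReal.le_of_forall_lt_iff_le]
      intro z hz
      refine limsup_le_of_le (by isBoundedDefault) ((hU z hz).mono fun x hx => ?_)
      exact EReal.coe_le_coe_iff.mpr (abs_le.mp hx).2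
    · rw [← EReal.ge_of_forall_gt_iff_ge]
      intro z hz
      refine le_limsup_of_frequently_le ((hL z hz).mono fun x hx => ?_)
      exact EReal.coe_le_coe_iff.mpr hx

theorem main_L (B : EReal) (hB : 0 ≤ B) : ∃ g : ℕ → ℤ, LClass g ∧
    liminf (fun x : ℝ => (((∑ n ∈ Icc 1 ⌊x⌋₊, (g n : ℝ)) /
      (Real.sqrt x * Real.log (Real.log (Real.log x)) ^ ((5 : ℝ) / 4)) : ℝ) : EReal)) atTop = -B ∧
    limsup (fun x : ℝ => (((∑ n ∈ Icc 1 ⌊x⌋₊, (g n : ℝ)) /
      (Real.sqrt x * Real.log (Real.log (Real.log x)) ^ ((5 : ℝ) / 4)) : ℝ) : EReal)) atTop = B := by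
  induction B with
  | bot => exact absurd hB (by simp)
  | top =>
    refine main_gen_h48 ⊤ (fun j => (j : ℝ) + 1) (fun j => 1 / (2 * ((j : ℝ) + 1)))
      (fun j => by positivity) (fun j => by positivity) (fun c hc => absurd hc (by simp)) ?_
    intro c _
    obtain ⟨J, hJ⟩ := exists_nat_ge c
    refine ⟨J, fun j hj => ?_⟩
    have h3 : (J : ℝ) ≤ j := by exact_mod_cast hj
    have h4 : 1 / (2 * ((j : ℝ) + 1)) ≤ 1 := by
      rw [div_le_one (by positivity)]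
      have : (0 : ℝ) ≤ j := Nat.cast_nonneg j
      linarith
    linarith
  | coe β =>
    have hβ : 0 ≤ β := by exact_mod_cast hB
    refine main_gen_h48 (β : EReal) (fun j => β + 1 / ((j : ℝ) + 1)) (fun j => 1 / (2 * ((j : ℝ) + 1)))
      (fun j => by positivity) (fun j => by positivity) ?_ ?_
    · intro c hc
      have hc' : β < c := EReal.coe_lt_coe_iff.mp hc
      obtain ⟨J, hJ⟩ := exists_nat_ge (2 / (c - β))
      refine ⟨J, fun j hj => ?_⟩
      have h3 : (J : ℝ) ≤ j := by exact_mod_cast hj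
      have h0 : 0 < c - β := by linarith
      have h4 : 2 ≤ (c - β) * ((j : ℝ) + 1) := by
        rw [div_le_iff₀ h0] at hJ
        nlinarith
      have h5 : 1 / ((j : ℝ) + 1) + 1 / (2 * ((j : ℝ) + 1)) ≤ c - β := by
        have hj0 : (0 : ℝ) < (j : ℝ) + 1 := by positivity
        have : 1 / ((j : ℝ) + 1) + 1 / (2 * ((j : ℝ) + 1)) = (3 / 2) / ((j : ℝ) + 1) := by
          field_simp
          norm_num
        rw [this, div_le_iff₀ hj0]
        linarith
      linarith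
    · intro c hc
      have hc' : c < β := EReal.coe_lt_coe_iff.mp hc
      refine ⟨0, fun j _ => ?_⟩
      have h6 : 1 / (2 * ((j : ℝ) + 1)) ≤ 1 / ((j : ℝ) + 1) := by
        apply one_div_le_one_div_of_le (by positivity)
        have : (0 : ℝ) ≤ j := Nat.cast_nonneg j
        linarith
      linarith

end Pool.Agent.Helper66.GL
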