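import Pool.Agent.Helper66.MB.StageA
import Pool.Agent.Helper66.GL.UpperL
import Pool.Agent.Helper66.GL.FlipL

/-!
# MP_a499ba_nt, Q2: analogue of `Pool.Agent.Helper66.MB.StageA`

The statements and proofs of `Helper66.MB.StageA` with the summatory function `Lf f` (completely multiplicative extension) in place of
`Mf f` (squarefree extension), `mainL` in place of `mainS` and `ClL` in place of `Cl`. See that file for the proofs in words.
-/

set_option autoImplicit false

namespace Pool.Agent.Helper66.GL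

open Finset Pool.Agent.Helper92.GB Pool.Agent.Helper66.MB Filter

/-- The maximum of `|Lf f x| / √x`. -/
theorem exists_max' (f : ℕ → ℤ) (h : ClL f) : ∃ (N : ℕ) (μ : ℝ), 1 ≤ N ∧ 1 ≤ μ ∧
    |Lf f N| = μ * Real.sqrt N ∧ ∀ x : ℕ, |Lf f x| ≤ μ * Real.sqrt x := by
  obtain ⟨C, hC⟩ := h
  have h1 : Tendsto (fun x : ℝ => C * rho x) atTop (nhds (C * 0)) := rho_tendsto.const_mul C
  rw [mul_zero] at h1
  have h2 := h1.comp tendsto_natCast_atTop_atTop
  obtain ⟨x₁, hx₁⟩ := eventually_atTop.1 (h2.eventually (gt_mem_nhds (show (0 : ℝ) < 1 by norm_num)))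
  set s := Icc 1 (max x₁ 1) with hs
  have hne : s.Nonempty := ⟨1, by rw [hs, mem_Icc]; exact ⟨le_rfl, le_max_right _ _⟩⟩
  obtain ⟨N, hN, hmax⟩ := exists_max_image s (fun x => |Lf f x| / Real.sqrt x) hne
  rw [hs, mem_Icc] at hN
  have hN0 : (0 : ℝ) < N := by exact_mod_cast hN.1
  have hsN : 0 < Real.sqrt N := Real.sqrt_pos.2 hN0
  have h11 : 1 ≤ |Lf f N| / Real.sqrt N := by
    have h3 := hmax 1 (by rw [hs, mem_Icc]; exact ⟨le_rfl, le_max_right _ _⟩)
    simpa [Lf_one] using h3
  refine ⟨N, |Lf f N| / Real.sqrt N, hN.1, h11, by field_simp, fun x => ?_⟩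
  rcases Nat.eq_zero_or_pos x with rfl | hx
  · simp [Lf_zero]
  have hx0 : (0 : ℝ) < x := by exact_mod_cast hx
  have hsx : 0 < Real.sqrt x := Real.sqrt_pos.2 hx0
  rw [← div_le_iff₀ hsx]
  by_cases hxs : x ∈ s
  · exact hmax x hxs
  · rw [hs, mem_Icc] at hxs
    have hx1 : x₁ ≤ x := by
      have := le_max_left x₁ 1
      omega
    have h3 := hx₁ x hx1
    simp only [Function.comp_apply] at h3
    refine le_trans ?_ h11
    rw [div_le_iff₀ hsx, one_mul]
    calc |Lf f x| ≤ C * Real.sqrt x * rho x := hC x hx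
      _ = (C * rho x) * Real.sqrt x := by ring
      _ ≤ 1 * Real.sqrt x := by gcongr
      _ = Real.sqrt x := one_mul _

/-- The number of sign changes of a stage. -/
theorem choose_c (b μ z₀ l X : ℝ) (hμ : 1 ≤ μ) (hz₀ : 1 ≤ z₀) (hX : 4 ≤ X)
    (h1 : μ * Real.exp (z₀ + 1) < b * l)
    (h2 : b * l * (3 * Real.log X + 6) < Real.sqrt X) :
    ∃ c : ℕ, z₀ ≤ 2 * c / Real.sqrt X ∧ 2 * c / Real.sqrt X ≤ Real.log X ∧
      μ * Az (2 * c / Real.sqrt X) ≤ b * l ∧
      b * l * (1 - 4 / Real.sqrt X) ≤ μ * Az (2 * c / Real.sqrt X) ∧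
      Real.exp (2 * c / Real.sqrt X) ≤ (12 * (b * l)) ^ 2 := by
  have hX0 : 0 < X := by linarith
  have hs : 2 ≤ Real.sqrt X := by
    rw [show (2 : ℝ) = Real.sqrt 4 by rw [show (4 : ℝ) = 2 ^ 2 by norm_num]; simp]
    exact Real.sqrt_le_sqrt hX
  have hs0 : 0 < Real.sqrt X := by linarith
  have hlog : 0 ≤ Real.log X := Real.log_nonneg (by linarith)
  have hbl : 0 < b * l := lt_of_le_of_lt (by positivity) h1
  set c₁ : ℕ := ⌈Real.sqrt X * Real.log X / 2⌉₊ + 1 with hc₁
  classical
  set c := Nat.findGreatest (fun c : ℕ => μ * Az (2 * c / Real.sqrt X) ≤ b * l) c₁ with hc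
  have hP0 : μ * Az (2 * ((0 : ℕ) : ℝ) / Real.sqrt X) ≤ b * l := by
    have h3 : Az (2 * ((0 : ℕ) : ℝ) / Real.sqrt X) ≤ Real.exp 0 := by
      have := Az_le_exp (z := 2 * ((0 : ℕ) : ℝ) / Real.sqrt X) (by positivity)
      simpa using this
    have h4 : Real.exp 0 ≤ Real.exp (z₀ + 1) := Real.exp_le_exp.2 (by linarith)
    have : μ * Az (2 * ((0 : ℕ) : ℝ) / Real.sqrt X) ≤ μ * Real.exp (z₀ + 1) := by
      gcongr; exact h3.trans h4
    linarith
  have hPc : μ * Az (2 * c / Real.sqrt X) ≤ b * l :=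
    Nat.findGreatest_spec (P := fun c : ℕ => μ * Az (2 * c / Real.sqrt X) ≤ b * l) (Nat.zero_le _) hP0
  have hcle : c ≤ c₁ := Nat.findGreatest_le _
  -- large values are excluded
  have hbig : ∀ d : ℕ, Real.log X ≤ 2 * d / Real.sqrt X → b * l < μ * Az (2 * d / Real.sqrt X) := by
    intro d hd
    have h3 : Az (Real.log X) ≤ Az (2 * d / Real.sqrt X) := Az_mono hlog hd
    have h4 := exp_le_Az hlog
    rw [Real.exp_log hX0] at h4
    have h5 : b * l < Az (Real.log X) := by
      by_contra hcon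
      push Not at hcon
      have h6 : X ≤ (3 * Real.log X + 6) * (b * l) := h4.trans (by gcongr)
      have h7 : (3 * Real.log X + 6) * (b * l) < Real.sqrt X := by linarith
      have h8 : Real.sqrt X * Real.sqrt X = X := Real.mul_self_sqrt hX0.le
      nlinarith
    have h6 : 0 ≤ Az (2 * d / Real.sqrt X) := by linarith
    nlinarith
  have hzlog : 2 * c / Real.sqrt X < Real.log X := by
    by_contra hcon
    push Not at hcon
    have := hbig c hcon
    linarith
  have hclt : c < c₁ := by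
    rcases hcle.lt_or_eq with h | h
    · exact h
    · exfalso
      have h3 : Real.sqrt X * Real.log X / 2 ≤ c₁ := by
        rw [hc₁]; push_cast
        have := Nat.le_ceil (Real.sqrt X * Real.log X / 2)
        linarith
      have h4 : Real.log X ≤ 2 * c / Real.sqrt X := by
        rw [le_div_iff₀ hs0, h]; linarith
      linarith
  have hnot : b * l < μ * Az (2 * ((c + 1 : ℕ) : ℝ) / Real.sqrt X) := by
    by_contra hcon
    push Not at hcon
    exact Nat.findGreatest_is_greatest (P := fun c : ℕ => μ * Az (2 * c / Real.sqrt X) ≤ b * l)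
      (Nat.lt_succ_self c) hclt hcon
  set z : ℝ := 2 * c / Real.sqrt X with hz
  have hz0 : 0 ≤ z := by positivity
  have hstep : 2 * ((c + 1 : ℕ) : ℝ) / Real.sqrt X = z + 2 / Real.sqrt X := by
    rw [hz]; push_cast; ring
  rw [hstep] at hnot
  have hh0 : 0 ≤ 2 / Real.sqrt X := by positivity
  have hh1 : 2 / Real.sqrt X ≤ 1 := by rw [div_le_one hs0]; exact hs
  have hzz : z₀ ≤ z := by
    by_contra hcon
    push Not at hcon
    have h3 : Az (z + 2 / Real.sqrt X) ≤ Real.exp (z₀ + 1) :=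
      (Az_le_exp (by positivity)).trans (Real.exp_le_exp.2 (by linarith))
    have : μ * Az (z + 2 / Real.sqrt X) ≤ μ * Real.exp (z₀ + 1) := by gcongr
    linarith
  have hz1 : 1 ≤ z := hz₀.trans hzz
  have hAz0 : 0 < Az z := by
    have := Az_max hz0 0
    simp at this
    linarith
  refine ⟨c, hzz, hzlog.le, hPc, ?_, ?_⟩
  · have h3 := Az_step hz1 hh0 hh1
    have h4 : b * l < μ * Az z * Real.exp (4 / Real.sqrt X) := by
      calc b * l < μ * Az (z + 2 / Real.sqrt X) := hnot
        _ ≤ μ * (Az z * Real.exp (2 * (2 / Real.sqrt X))) := by gcongr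
        _ = μ * Az z * Real.exp (4 / Real.sqrt X) := by
            rw [mul_assoc]; congr 3; ring
    have h5 : 1 - 4 / Real.sqrt X ≤ Real.exp (-(4 / Real.sqrt X)) := by
      have := Real.add_one_le_exp (-(4 / Real.sqrt X))
      linarith
    calc b * l * (1 - 4 / Real.sqrt X) ≤ b * l * Real.exp (-(4 / Real.sqrt X)) := by gcongr
      _ ≤ μ * Az z * Real.exp (4 / Real.sqrt X) * Real.exp (-(4 / Real.sqrt X)) := by gcongr
      _ = μ * Az z := by rw [mul_assoc, ← Real.exp_add]; simp
  · have h3 := exp_le_Az hz0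
    have h4 : Az z ≤ b * l := by
      have : Az z ≤ μ * Az z := le_mul_of_one_le_left hAz0.le hμ
      linarith
    have h5 : 3 * z + 6 ≤ 12 * Real.exp (z / 2) := by
      have := Real.add_one_le_exp (z / 2)
      linarith
    have h6 : Real.exp z = Real.exp (z / 2) * Real.exp (z / 2) := by
      rw [← Real.exp_add]; congr 1; ring
    have h7 : Real.exp (z / 2) * Real.exp (z / 2) ≤ 12 * Real.exp (z / 2) * (b * l) := by
      rw [← h6]
      exact h3.trans (mul_le_mul h5 h4 hAz0.le (by positivity))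
    have h8 : Real.exp (z / 2) ≤ 12 * (b * l) := by
      have h9 : 0 < Real.exp (z / 2) := Real.exp_pos _
      by_contra hcon
      push Not at hcon
      nlinarith
    rw [h6, sq]
    exact mul_le_mul h8 h8 (Real.exp_pos _).le (by positivity)

end Pool.Agent.Helper66.GL
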