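import Pool.Agent.Helper66.GL.Defs
import Pool.Agent.Helper66.MB.Remove

/-!
# Block GL-SB (MP_a499ba_nt, Q2)

From the events `GR r n₀ k` to a bound for all star sums.

Proof: copy `star_bound` of `Pool.Agent.Helper66.MB.Remove` (the case `r = 2`): for `x ≥ 2 ^ k₁`, `k = Nat.log 2 x`,
`GR r n₀ k ω` gives `|Sm x (star ω (Ico n₀ (2^(k+1))))| ≤ √(2^k) / k^r`, this is the sum over `Ico n₀ x` (`Sm_star_Ico`),
and `1 + log x ≤ 3 k`, so `1 / k^r ≤ 3^r * kr r x`; smaller `x`: finitely many, constant.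
-/

set_option autoImplicit false

namespace Pool.Agent.Helper66.GL

open Finset Pool.Agent.Helper92.GB Pool.Agent.Helper66.MB

theorem kr_pos (r y : ℕ) : 0 < kr r y := by
  unfold kr
  have : 0 ≤ Real.log y := Real.log_natCast_nonneg y
  positivity

theorem kr_le_one (r y : ℕ) : kr r y ≤ 1 := by
  unfold kr
  have : 0 ≤ Real.log y := Real.log_natCast_nonneg y
  exact inv_le_one_of_one_le₀ (one_le_pow₀ (by linarith))

theorem star_bound_r (r n₀ k₁ : ℕ) (hk₁ : 1 ≤ k₁) (ω : ℕ → ℤˣ) (h : ∀ k : ℕ, k₁ ≤ k → GR r n₀ k ω) :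
    ∃ C : ℝ, 1 ≤ C ∧ ∀ x : ℕ, 1 ≤ x → |Sm x (star ω (Ico n₀ x))| ≤ C * Real.sqrt x * kr r x := by
  set S : ℝ := ∑ x ∈ Icc 1 (2 ^ k₁), |Sm x (star ω (Ico n₀ x))| * (kr r x)⁻¹ with hS
  have hS0 : 0 ≤ S := by
    apply sum_nonneg
    intro x hx
    have := kr_pos r x
    positivity
  have h3r : (1 : ℝ) ≤ 3 ^ r := one_le_pow₀ (by norm_num)
  refine ⟨3 ^ r + S, by linarith, fun x hx => ?_⟩
  have hk := kr_pos r x
  have hx1 : (1 : ℝ) ≤ (x : ℝ) := by exact_mod_cast hx
  have hsx : 1 ≤ Real.sqrt x := by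
    rw [Real.one_le_sqrt]
    exact hx1
  rcases lt_or_ge x (2 ^ k₁) with hlt | hge
  · have h1 : |Sm x (star ω (Ico n₀ x))| * (kr r x)⁻¹ ≤ S := by
      rw [hS]
      apply single_le_sum (f := fun x : ℕ => |Sm x (star ω (Ico n₀ x))| * (kr r x)⁻¹) _
        (mem_Icc.2 ⟨hx, hlt.le⟩)
      intro y hy
      have := kr_pos r y
      positivity
    have h2 : |Sm x (star ω (Ico n₀ x))| = |Sm x (star ω (Ico n₀ x))| * (kr r x)⁻¹ * kr r x := by
      field_simp
    rw [h2]
    calc |Sm x (star ω (Ico n₀ x))| * (kr r x)⁻¹ * kr r x ≤ S * kr r x :=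
          mul_le_mul_of_nonneg_right h1 hk.le
      _ ≤ ((3 ^ r + S) * Real.sqrt x) * kr r x := by
          apply mul_le_mul_of_nonneg_right _ hk.le
          nlinarith
      _ = _ := by ring
  · set k := Nat.log 2 x with hkdef
    have hk1 : k₁ ≤ k := by
      rw [hkdef]
      exact (Nat.le_log_iff_pow_le (by norm_num) (by omega)).2 hge
    have hlo : 2 ^ k ≤ x := Nat.pow_log_le_self 2 (by omega)
    have hhi : x < 2 ^ (k + 1) := Nat.lt_pow_succ_log_self (by norm_num) x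
    have hG := h k hk1 x hlo hhi
    rw [Sm_star_Ico ω n₀ x (2 ^ (k + 1)) hhi.le] at hG
    refine hG.trans ?_
    have hkR : (1 : ℝ) ≤ (k : ℝ) := by exact_mod_cast (le_trans hk₁ hk1)
    have hlog : Real.log x ≤ (k + 1) * Real.log 2 := by
      have h1 : (x : ℝ) ≤ 2 ^ (k + 1) := by exact_mod_cast hhi.le
      have h2 := Real.log_le_log (by linarith) h1
      rw [Real.log_pow] at h2
      push_cast at h2
      exact h2
    have hl0 : 0 ≤ Real.log x := Real.log_nonneg hx1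
    have hl2 : Real.log 2 < 0.6931471808 := Real.log_two_lt_d9
    have h3k : 1 + Real.log x ≤ 3 * k := by
      have : ((k : ℝ) + 1) * Real.log 2 ≤ (k + 1) * 1 := by
        apply mul_le_mul_of_nonneg_left _ (by positivity)
        linarith
      linarith [mul_le_mul_of_nonneg_left hl2.le (by positivity : (0 : ℝ) ≤ (k : ℝ) + 1)]
    have hsq : (1 + Real.log x) ^ r ≤ 3 ^ r * (k : ℝ) ^ r := by
      have := pow_le_pow_left₀ (by linarith) h3k r
      rwa [mul_pow] at this
    have hkap : 1 / (k : ℝ) ^ r ≤ 3 ^ r * kr r x := by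
      unfold kr
      rw [← div_eq_mul_inv, div_le_div_iff₀ (by positivity) (by positivity)]
      linarith
    have hsqrt : Real.sqrt (2 ^ k) ≤ Real.sqrt x := by
      apply Real.sqrt_le_sqrt
      exact_mod_cast hlo
    calc Real.sqrt (2 ^ k) / (k : ℝ) ^ r = Real.sqrt (2 ^ k) * (1 / (k : ℝ) ^ r) := by ring
      _ ≤ Real.sqrt x * (3 ^ r * kr r x) := by
          apply mul_le_mul hsqrt hkap (by positivity) (by positivity)
      _ ≤ (3 ^ r + S) * Real.sqrt x * kr r x := by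
          have : 0 ≤ S * Real.sqrt x * kr r x := by positivity
          nlinarith

end Pool.Agent.Helper66.GL
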